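import Pool.Agent.Work.MP_c6f924_an.Dense

set_option autoImplicit false

/-!
The superattracting parameters are dense in the boundary of the Mandelbrot set.
-/

namespace Pool.Agent.Work.MP_c6f924_an

open Set Filter Metric Topology Bornology

lemma norm_P_upper {c : ℂ} (hc : ‖c‖ ≤ 3) (n : ℕ) : ‖P n c‖ + 3 ≤ (3 : ℝ) ^ (2 ^ n) := by
  induction n with
  | zero => simp [P_zero]
  | succ n ih =>
    have h := norm_P_succ_le n c
    have h0 := norm_nonneg (P n c)
    calc ‖P (n + 1) c‖ + 3 ≤ ‖P n c‖ ^ 2 + ‖c‖ + 3 := by linarith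
      _ ≤ (‖P n c‖ + 3) ^ 2 := by nlinarith
      _ ≤ ((3 : ℝ) ^ (2 ^ n)) ^ 2 := by gcongr
      _ = (3 : ℝ) ^ (2 ^ (n + 1)) := by rw [← pow_mul, pow_succ]

lemma norm_P_lower {c : ℂ} (hc : ‖c‖ ≤ 3) {N : ℕ} (hN : 4 ≤ ‖P N c‖) (k : ℕ) :
    (3 : ℝ) ^ (2 ^ k) ≤ ‖P (N + k) c‖ - 1 := by
  induction k with
  | zero => simp only [pow_zero, pow_one, add_zero]; linarith
  | succ k ih =>
    have h := norm_P_succ_ge (N + k) c
    have h1 : (1 : ℝ) ≤ 3 ^ (2 ^ k) := one_le_pow₀ (by norm_num)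
    have h3 : (3 : ℝ) ≤ 3 ^ (2 ^ k) := by
      calc (3 : ℝ) = 3 ^ 1 := by norm_num
        _ ≤ 3 ^ (2 ^ k) := pow_le_pow_right₀ (by norm_num) (Nat.one_le_two_pow)
    calc (3 : ℝ) ^ (2 ^ (k + 1)) = ((3 : ℝ) ^ (2 ^ k)) ^ 2 := by rw [← pow_mul, pow_succ]
      _ ≤ (‖P (N + k) c‖ - 1) ^ 2 := by gcongr
      _ ≤ ‖P (N + k) c‖ ^ 2 - ‖c‖ - 1 := by nlinarith
      _ ≤ ‖P (N + (k + 1)) c‖ - 1 := by rw [← add_assoc]; linarith

/-- the limit used below -/
lemma tendsto_aux {η : ℝ} (hη : 0 < η) (C : ℝ) :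
    Tendsto (fun k : ℕ => (6 * ((3 : ℝ) ^ (2 ^ k))⁻¹) ^ η * (C * 2 ^ k)) atTop (𝓝 0) := by
  have hb : 0 < η * Real.log 3 := mul_pos hη (Real.log_pos (by norm_num))
  have h1 : Tendsto (fun t : ℝ => t * Real.exp (-(η * Real.log 3 * t))) atTop (𝓝 0) := by
    have h := (isLittleO_pow_exp_pos_mul_atTop 1 hb).tendsto_div_nhds_zero
    refine h.congr fun t => ?_
    rw [pow_one, Real.exp_neg, div_eq_mul_inv]
  have h2 : Tendsto (fun k : ℕ => (2 : ℝ) ^ k) atTop atTop :=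
    tendsto_pow_atTop_atTop_of_one_lt (by norm_num)
  have h3 := (h1.comp h2).const_mul ((6 : ℝ) ^ η * C)
  rw [mul_zero] at h3
  refine h3.congr fun k => ?_
  have e1 : ((3 : ℝ) ^ (2 ^ k))⁻¹ = Real.exp (-(Real.log 3 * 2 ^ k)) := by
    rw [Real.exp_neg, Real.exp_mul, Real.exp_log (by norm_num)]
    congr 1
    rw [← Real.rpow_natCast]
    push_cast
    rfl
  rw [e1, Real.mul_rpow (by norm_num) (Real.exp_pos _).le, ← Real.exp_mul]
  simp only [Function.comp]
  have e2 : -(Real.log 3 * 2 ^ k) * η = -(η * Real.log 3 * 2 ^ k) := by ring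
  rw [e2]
  ring

theorem centers_dense {x : ℂ} (hx : x ∈ frontier M) {r : ℝ} (hr : 0 < r) :
    ∃ n, 1 ≤ n ∧ ∃ a, P n a = 0 ∧ dist a x < r := by
  -- it suffices to treat `r ≤ 1`
  wlog hr1 : r ≤ 1 generalizing r with H
  · push Not at hr1
    obtain ⟨n, hn, a, ha, had⟩ := H one_pos le_rfl
    exact ⟨n, hn, a, ha, had.trans hr1⟩
  by_contra hcon
  push Not at hcon
  have hcon' : ∀ n, 1 ≤ n → ∀ z, dist z x < r → P n z ≠ 0 := fun n hn z hz h0 =>
    absurd hz (not_lt.2 (hcon n hn z h0))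
  have hxM : x ∈ M := isClosed_M.frontier_subset hx
  have hx2 : ‖x‖ ≤ 2 := norm_le_of_mem_M hxM
  have hx0 : x ≠ 0 := by
    have := hcon' 1 le_rfl x (by simpa using hr)
    rwa [P_one] at this
  -- a point outside `M`
  have hxc : x ∈ closure Mᶜ := by
    rw [frontier_eq_closure_inter_closure] at hx
    exact hx.2
  obtain ⟨a, haM, hax⟩ := Metric.mem_closure_iff.1 hxc (r / 8) (by positivity)
  rw [dist_comm] at hax
  have hxa : x ≠ a := fun h => haM (h ▸ hxM)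
  have hxapos : 0 < ‖x - a‖ := norm_pos_iff.2 (sub_ne_zero.2 hxa)
  set R : ℝ := r / 2 with hR
  have hRpos : 0 < R := by positivity
  have hxaR : ‖x - a‖ < R / 4 := by
    rw [← dist_eq_norm, dist_comm]; rw [hR]; linarith
  have hball : ∀ z ∈ ball a R, dist z x < r := by
    intro z hz
    have h1 := dist_triangle z a x
    have h2 : dist z a < R := hz
    rw [hR] at h2
    linarith
  have hball3 : ∀ z ∈ ball a R, ‖z‖ ≤ 3 := by
    intro z hz
    have h1 := hball z hz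
    rw [dist_eq_norm] at h1
    have h2 := norm_le_norm_add_norm_sub' z x
    linarith
  -- escape of `a`
  have htend : Tendsto (fun k => ‖P k a‖) atTop atTop := by
    rw [tendsto_norm_atTop_iff_cobounded]
    by_contra h
    exact haM ((mem_M_iff a).2 h)
  obtain ⟨N, hN1, hN⟩ : ∃ N, 1 ≤ N ∧ 4 < ‖P N a‖ := by
    obtain ⟨N, hN⟩ := ((htend.eventually (eventually_gt_atTop 4)).and (eventually_ge_atTop 1)).exists
    exact ⟨N, hN.2, hN.1⟩
  obtain ⟨ρ', hρ'pos, hρ'⟩ : ∃ ρ' > 0, ∀ z ∈ ball a ρ', 4 < ‖P N z‖ := by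
    have hopen : IsOpen {z | 4 < ‖P N z‖} := isOpen_lt continuous_const (continuous_P N).norm
    obtain ⟨ρ', h1, h2⟩ := Metric.isOpen_iff.1 hopen a hN
    exact ⟨ρ', h1, fun z hz => h2 hz⟩
  set ρ0 : ℝ := min ρ' (min (R / 2) ‖x - a‖) with hρ0
  have hρ0pos : 0 < ρ0 := lt_min hρ'pos (lt_min (by positivity) hxapos)
  have hρ0ρ' : ρ0 ≤ ρ' := min_le_left _ _
  have hρ0R : ρ0 ≤ R / 2 := (min_le_right _ _).trans (min_le_left _ _)
  have hρ0x : ρ0 ≤ ‖x - a‖ := (min_le_right _ _).trans (min_le_right _ _)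
  have ha0 : a ∈ ball a R := mem_ball_self hRpos
  have hsub : ball a ρ0 ⊆ ball a R := ball_subset_ball (by linarith)
  -- logarithms of the polynomials
  have hL : ∀ n, ∃ L : ℂ → ℂ, 1 ≤ n → DifferentiableOn ℂ L (ball a R) ∧
      (∀ z ∈ ball a R, Complex.exp (L z) = P n z) ∧ L a = Complex.log (P n a) := by
    intro n
    by_cases hn : 1 ≤ n
    · obtain ⟨L, h1, h2, h3⟩ := exists_log hRpos (differentiable_P n).differentiableOn
        (fun z hz => hcon' n hn z (hball z hz))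
      exact ⟨L, fun _ => ⟨h1, h2, h3⟩⟩
    · exact ⟨0, fun h => absurd h hn⟩
  choose L hL using hL
  -- the bound for the logarithms
  have hLb : ∀ n, N ≤ n → ∀ z ∈ closedBall a (3 * R / 4), ‖L n z‖ ≤ 54 * 2 ^ n := by
    intro n hn z hz
    obtain ⟨h1, h2, h3⟩ := hL n (hN1.trans hn)
    have hpow : (1 : ℝ) ≤ 2 ^ n := one_le_pow₀ (by norm_num)
    have hlog3 : Real.log 3 ≤ 2 := by
      have := Real.log_le_sub_one_of_pos (show (0 : ℝ) < 3 by norm_num)
      linarith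
    have hup : ∀ w ∈ ball a R, Real.log ‖P n w‖ ≤ 2 * 2 ^ n := by
      intro w hw
      have hpos : 0 < ‖P n w‖ := norm_pos_iff.2 (hcon' n (hN1.trans hn) w (hball w hw))
      have h4 : ‖P n w‖ ≤ 3 ^ (2 ^ n) := by
        have := norm_P_upper (hball3 w hw) n
        linarith
      calc Real.log ‖P n w‖ ≤ Real.log (3 ^ (2 ^ n)) := Real.log_le_log hpos h4
        _ = (2 ^ n : ℕ) * Real.log 3 := by rw [Real.log_pow]
        _ ≤ (2 ^ n : ℕ) * 2 := by gcongr
        _ = 2 * 2 ^ n := by push_cast; ring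
    have hre : ∀ w ∈ ball a R, (L n w).re ≤ 2 * 2 ^ n := by
      intro w hw
      have h5 : ‖P n w‖ = Real.exp (L n w).re := by rw [← h2 w hw, Complex.norm_exp]
      have := hup w hw
      rwa [h5, Real.log_exp] at this
    have hLa : ‖L n a‖ ≤ 6 * 2 ^ n := by
      rw [h3]
      have h6 : 1 ≤ ‖P n a‖ := by
        obtain ⟨k, rfl⟩ := Nat.exists_eq_add_of_le hn
        have := norm_P_lower (hball3 a ha0) hN.le k
        have h7 : (1 : ℝ) ≤ 3 ^ (2 ^ k) := one_le_pow₀ (by norm_num)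
        linarith
      have h8 := Complex.norm_le_abs_re_add_abs_im (Complex.log (P n a))
      rw [Complex.log_re, Complex.log_im] at h8
      have h9 := Complex.abs_arg_le_pi (P n a)
      have h10 : |Real.log ‖P n a‖| ≤ 2 * 2 ^ n := by
        rw [abs_of_nonneg (Real.log_nonneg h6)]
        exact hup a ha0
      have h11 := Real.pi_le_four
      linarith
    have hz' : ‖z - a‖ ≤ 3 * R / 4 := by
      simpa [mem_closedBall, dist_eq_norm] using hz
    have hzb : z ∈ ball a R := by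
      rw [mem_ball, dist_eq_norm]; linarith
    have hmain := borel hRpos (show (0 : ℝ) < 2 * 2 ^ n by positivity) h1 hre hzb
    have hden : 0 < R - ‖z - a‖ := by linarith
    have hb1 : 2 * (2 * 2 ^ n) * ‖z - a‖ / (R - ‖z - a‖) ≤ 12 * (2 : ℝ) ^ n := by
      rw [div_le_iff₀ hden]
      have : (2 : ℝ) ^ n * (12 * R - 16 * ‖z - a‖) ≥ 0 := by
        apply mul_nonneg (by positivity); linarith
      nlinarith
    have hb2 : ‖L n a‖ * (R + ‖z - a‖) / (R - ‖z - a‖) ≤ 42 * (2 : ℝ) ^ n := by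
      rw [div_le_iff₀ hden]
      have h12 : ‖L n a‖ * (R + ‖z - a‖) ≤ 6 * 2 ^ n * (R + ‖z - a‖) := by
        apply mul_le_mul_of_nonneg_right hLa
        have := norm_nonneg (z - a)
        linarith
      have : (2 : ℝ) ^ n * (36 * R - 48 * ‖z - a‖) ≥ 0 := by
        apply mul_nonneg (by positivity); linarith
      nlinarith
    linarith
  -- the quotients `P (n + 1) / P n ^ 2`
  set F : ℕ → ℂ → ℂ := fun k z => P (N + k + 1) z / P (N + k) z ^ 2 with hF
  set V : ℕ → ℂ → ℂ := fun k z =>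
    (L (N + k + 1) z - 2 * L (N + k) z) - (L (N + k + 1) a - 2 * L (N + k) a) with hV
  have hne : ∀ k, ∀ z ∈ ball a R, P (N + k) z ≠ 0 := fun k z hz =>
    hcon' (N + k) (by omega) z (hball z hz)
  have hFexp : ∀ k, ∀ z ∈ ball a R,
      Complex.exp (L (N + k + 1) z - 2 * L (N + k) z) = F k z := by
    intro k z hz
    obtain ⟨-, h2, -⟩ := hL (N + k) (by omega)
    obtain ⟨-, h2', -⟩ := hL (N + k + 1) (by omega)
    rw [Complex.exp_sub, h2' z hz, two_mul, Complex.exp_add, h2 z hz, ← pow_two]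
  have hF0 : ∀ k, ∀ z ∈ ball a R, F k z ≠ 0 := fun k z hz => by
    rw [← hFexp k z hz]; exact Complex.exp_ne_zero _
  have hVexp : ∀ k, ∀ z ∈ ball a R, F k z = Complex.exp (V k z) * F k a := by
    intro k z hz
    simp only [hV]
    rw [Complex.exp_sub, hFexp k z hz, hFexp k a ha0, div_mul_cancel₀ _ (hF0 k a ha0)]
  have hVdiff : ∀ k, DifferentiableOn ℂ (V k) (ball a R) := by
    intro k
    obtain ⟨h1, -, -⟩ := hL (N + k) (by omega)
    obtain ⟨h1', -, -⟩ := hL (N + k + 1) (by omega)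
    exact (h1'.sub (h1.const_mul 2)).sub_const _
  have hVa : ∀ k, V k a = 0 := fun k => by simp [hV]
  have hVA : ∀ k, ∀ z ∈ closedBall a (3 * R / 4), ‖V k z‖ ≤ 432 * 2 ^ N * 2 ^ k := by
    intro k z hz
    have haa : a ∈ closedBall a (3 * R / 4) := mem_closedBall_self (by positivity)
    have h1 := hLb (N + k) (by omega) z hz
    have h2 := hLb (N + k + 1) (by omega) z hz
    have h3 := hLb (N + k) (by omega) a haa
    have h4 := hLb (N + k + 1) (by omega) a haa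
    have h5 : ‖V k z‖ ≤ (‖L (N + k + 1) z‖ + 2 * ‖L (N + k) z‖) +
        (‖L (N + k + 1) a‖ + 2 * ‖L (N + k) a‖) := by
      simp only [hV]
      refine (norm_sub_le _ _).trans (add_le_add ?_ ?_)
      · refine (norm_sub_le _ _).trans ?_
        simp
      · refine (norm_sub_le _ _).trans ?_
        simp
    have e : (2 : ℝ) ^ (N + k + 1) = 2 * (2 ^ N * 2 ^ k) := by ring
    have e' : (2 : ℝ) ^ (N + k) = 2 ^ N * 2 ^ k := by ring
    rw [e] at h2 h4
    rw [e'] at h1 h3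
    linarith
  -- closeness to one
  have hFclose : ∀ k, ∀ z ∈ ball a ρ0, ‖F k z - 1‖ ≤ ((3 : ℝ) ^ (2 ^ k))⁻¹ := by
    intro k z hz
    have hzR := hsub hz
    have h1 : F k z - 1 = z / P (N + k) z ^ 2 := by
      simp only [hF]
      rw [P_succ]
      field_simp [hne k z hzR]
      ring
    have h2 := norm_P_lower (hball3 z hzR) (hρ' z (ball_subset_ball hρ0ρ' hz)).le k
    have h3 : (3 : ℝ) ≤ 3 ^ (2 ^ k) := by
      calc (3 : ℝ) = 3 ^ 1 := by norm_num
        _ ≤ 3 ^ (2 ^ k) := pow_le_pow_right₀ (by norm_num) (Nat.one_le_two_pow)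
    rw [h1, norm_div, norm_pow, div_le_iff₀ (pow_pos (norm_pos_iff.2 (hne k z hzR)) 2)]
    have h4 : (3 : ℝ) ^ (2 ^ k) ≤ ‖P (N + k) z‖ := by linarith
    calc ‖z‖ ≤ 3 := hball3 z hzR
      _ ≤ 3 ^ (2 ^ k) := h3
      _ = ((3 : ℝ) ^ (2 ^ k))⁻¹ * ((3 : ℝ) ^ (2 ^ k)) ^ 2 := by field_simp
      _ ≤ ((3 : ℝ) ^ (2 ^ k))⁻¹ * ‖P (N + k) z‖ ^ 2 := by gcongr
  have hε3 : ∀ k : ℕ, ((3 : ℝ) ^ (2 ^ k))⁻¹ ≤ 1 / 3 := by
    intro k
    rw [one_div]
    apply inv_anti₀ (by norm_num)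
    calc (3 : ℝ) = 3 ^ 1 := by norm_num
      _ ≤ 3 ^ (2 ^ k) := pow_le_pow_right₀ (by norm_num) (Nat.one_le_two_pow)
  have hεpos : ∀ k : ℕ, 0 < ((3 : ℝ) ^ (2 ^ k))⁻¹ := fun k => by positivity
  have hVre : ∀ k, ∀ z ∈ ball a ρ0, (V k z).re ≤ 3 * ((3 : ℝ) ^ (2 ^ k))⁻¹ := by
    intro k z hz
    have hzR := hsub hz
    have h1 := hVexp k z hzR
    have h2 : ‖F k z‖ = Real.exp (V k z).re * ‖F k a‖ := by
      rw [h1, norm_mul, Complex.norm_exp]
    have h3 := hFclose k z hz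
    have h4 := hFclose k a (mem_ball_self hρ0pos)
    set e := ((3 : ℝ) ^ (2 ^ k))⁻¹ with he
    have he1 := hε3 k
    have he0 := hεpos k
    rw [← he] at he1 he0
    have h5 : ‖F k z‖ ≤ 1 + e := by
      have := norm_le_norm_add_norm_sub' (F k z) 1
      rw [norm_one] at this; linarith
    have h6 : 1 - e ≤ ‖F k a‖ := by
      have := norm_sub_norm_le (1 : ℂ) (1 - F k a)
      rw [norm_one, sub_sub_cancel] at this
      have h7 : ‖1 - F k a‖ ≤ e := by rw [norm_sub_rev]; exact h4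
      linarith
    have h8 : Real.exp (V k z).re * (1 - e) ≤ 1 + e := by
      calc Real.exp (V k z).re * (1 - e) ≤ Real.exp (V k z).re * ‖F k a‖ := by gcongr
        _ = ‖F k z‖ := h2.symm
        _ ≤ 1 + e := h5
    have h9 : Real.exp (V k z).re ≤ 1 + 3 * e := by
      have : 0 < 1 - e := by linarith
      have h10 : Real.exp (V k z).re ≤ (1 + e) / (1 - e) := by
        rw [le_div_iff₀ this]; exact h8
      refine h10.trans ?_
      rw [div_le_iff₀ this]
      nlinarith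
    have h11 := Real.add_one_le_exp (V k z).re
    linarith
  have hVsmall : ∀ k, ∀ z ∈ closedBall a (ρ0 / 2), ‖V k z‖ ≤ 6 * ((3 : ℝ) ^ (2 ^ k))⁻¹ := by
    intro k z hz
    have hz' : ‖z - a‖ ≤ ρ0 / 2 := by simpa [mem_closedBall, dist_eq_norm] using hz
    have hzb : z ∈ ball a ρ0 := by
      rw [mem_ball, dist_eq_norm]; linarith
    have hm := borel hρ0pos (mul_pos (by norm_num : (0 : ℝ) < 3) (hεpos k))
      ((hVdiff k).mono hsub) (hVre k) hzb
    rw [hVa, norm_zero, zero_mul, zero_div, add_zero] at hm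
    refine hm.trans ?_
    have hden : 0 < ρ0 - ‖z - a‖ := by linarith
    rw [div_le_iff₀ hden]
    have := hεpos k
    have : ((3 : ℝ) ^ (2 ^ k))⁻¹ * (6 * ρ0 - 12 * ‖z - a‖) ≥ 0 := by
      apply mul_nonneg this.le; linarith
    nlinarith
  -- the exponent
  set θ : ℝ := (Real.log ‖x - a‖ - Real.log (ρ0 / 2)) / (Real.log (3 * R / 4) - Real.log (ρ0 / 2))
    with hθ
  have hden : Real.log (ρ0 / 2) < Real.log (3 * R / 4) :=
    Real.log_lt_log (by positivity) (by linarith)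
  have hθ0 : 0 ≤ θ := by
    apply div_nonneg
    · have := Real.log_le_log (show 0 < ρ0 / 2 by positivity) (show ρ0 / 2 ≤ ‖x - a‖ by linarith)
      linarith
    · linarith
  have hθ1 : θ < 1 := by
    rw [hθ, div_lt_one (by linarith)]
    have := Real.log_lt_log hxapos (show ‖x - a‖ < 3 * R / 4 by linarith)
    linarith
  have hVx : ∀ k, ‖V k x‖ ≤ (6 * ((3 : ℝ) ^ (2 ^ k))⁻¹) ^ (1 - θ) * (432 * 2 ^ N * 2 ^ k) := by
    intro k
    have h1 := two_constants (V := V k) (a := a) (x := x) (ρ := ρ0 / 2) (σ := 3 * R / 4) (R := R)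
      (A := 432 * 2 ^ N * 2 ^ k) (ε := 6 * ((3 : ℝ) ^ (2 ^ k))⁻¹) (by positivity) (by linarith)
      (by linarith) (hVdiff k) (hVA k) (hVsmall k) (by linarith) (by linarith)
    rw [← hθ] at h1
    refine h1.trans ?_
    apply mul_le_mul_of_nonneg_left _ (by positivity)
    have hA1 : (1 : ℝ) ≤ 432 * 2 ^ N * 2 ^ k := by
      have h2 : (1 : ℝ) ≤ 2 ^ N := one_le_pow₀ (by norm_num)
      have h3 : (1 : ℝ) ≤ 2 ^ k := one_le_pow₀ (by norm_num)
      nlinarith
    calc (432 * 2 ^ N * 2 ^ k : ℝ) ^ θ ≤ (432 * 2 ^ N * 2 ^ k : ℝ) ^ (1 : ℝ) :=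
          Real.rpow_le_rpow_of_exponent_le hA1 hθ1.le
      _ = 432 * 2 ^ N * 2 ^ k := Real.rpow_one _
  have hVlim : Tendsto (fun k => V k x) atTop (𝓝 0) := by
    apply squeeze_zero_norm hVx
    exact tendsto_aux (by linarith) _
  have hεlim : Tendsto (fun k : ℕ => ((3 : ℝ) ^ (2 ^ k))⁻¹) atTop (𝓝 0) := by
    have h1 : Tendsto (fun k : ℕ => (3 : ℝ) ^ (2 ^ k)) atTop atTop :=
      (tendsto_pow_atTop_atTop_of_one_lt (by norm_num)).comp
        (tendsto_pow_atTop_atTop_of_one_lt (by norm_num))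
    exact h1.inv_tendsto_atTop
  have hFa : Tendsto (fun k => F k a) atTop (𝓝 1) := by
    rw [tendsto_iff_norm_sub_tendsto_zero]
    exact squeeze_zero (fun k => norm_nonneg _) (fun k => hFclose k a (mem_ball_self hρ0pos)) hεlim
  have hxball : x ∈ ball a R := by rw [mem_ball, dist_eq_norm]; linarith
  have hFx : Tendsto (fun k => F k x) atTop (𝓝 1) := by
    have h1 : Tendsto (fun k => Complex.exp (V k x) * F k a) atTop (𝓝 (Complex.exp 0 * 1)) :=
      ((Complex.continuous_exp.tendsto 0).comp hVlim).mul hFa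
    rw [Complex.exp_zero, mul_one] at h1
    exact h1.congr fun k => (hVexp k x hxball).symm
  -- contradiction
  have hbig : ∀ k, ‖x‖ / 4 ≤ ‖F k x - 1‖ := by
    intro k
    have h1 : F k x - 1 = x / P (N + k) x ^ 2 := by
      simp only [hF]
      rw [P_succ]
      field_simp [hne k x hxball]
      ring
    have h2 : ‖P (N + k) x‖ ≤ 2 := (mem_M_iff_le x).1 hxM _
    have h3 : 0 < ‖P (N + k) x‖ := norm_pos_iff.2 (hne k x hxball)
    rw [h1, norm_div, norm_pow]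
    apply div_le_div_of_nonneg_left (norm_nonneg _) (by positivity)
    nlinarith
  have hlim0 : Tendsto (fun k => ‖F k x - 1‖) atTop (𝓝 0) :=
    tendsto_iff_norm_sub_tendsto_zero.1 hFx
  have hfin := ge_of_tendsto' hlim0 hbig
  have : 0 < ‖x‖ := norm_pos_iff.2 hx0
  linarith

end Pool.Agent.Work.MP_c6f924_an
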