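import Mathlib

/-!
# A real box estimate
-/

namespace MPc6f924

lemma box_real {a b r s : ℝ} (hb : 0 < b) (hab : a ^ 2 + b ^ 2 ≤ 0.55 / 60)
    (hr1 : 60 ≤ r) (hr2 : r ≤ 61.2) (hs : |s| ≤ 1.4523)
    (h1 : 2 * r * (b ^ 2 - a ^ 2) + 4 * s * a * b = 1 + a)
    (h2 : 2 * s * (b ^ 2 - a ^ 2) - 4 * r * a * b = b) :
    -0.00534 ≤ a ∧ a ≤ -0.00293 ∧ 0.0900 ≤ b ∧ b ≤ 0.09146 := by
  have q1 := hs
  norm_num at hab hr2
  rw [abs_le] at hs
  norm_num at hs
  have hb1 : b ≤ 383 / 4000 := by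
    apply le_of_sq_le_sq _ (by norm_num)
    norm_num
    linarith [sq_nonneg a]
  have q2 : |a| ≤ 383 / 4000 := by
    apply abs_le_of_sq_le_sq _ (by norm_num)
    norm_num
    linarith [sq_nonneg b]
  have q2' := abs_le.mp q2
  have q3 : |(4 : ℝ)| = 4 := by norm_num
  have q4 : |(2 : ℝ)| = 2 := by norm_num
  have hsab : |4 * s * a * b| ≤ 267 / 5000 := by
    rw [abs_mul, abs_mul, abs_mul, abs_of_pos hb, q3]
    calc 4 * |s| * |a| * b ≤ 4 * 1.4523 * (383 / 4000) * (383 / 4000) := by gcongr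
      _ ≤ 267 / 5000 := by norm_num
  rw [abs_le] at hsab
  have hr0 : 0 < r := by linarith
  have hD : 0 < b ^ 2 - a ^ 2 := by
    by_contra hcon
    push Not at hcon
    have : 2 * r * (b ^ 2 - a ^ 2) ≤ 0 := mul_nonpos_of_nonneg_of_nonpos (by linarith) hcon
    linarith [hsab.2, q2'.1]
  have hDb : b ^ 2 - a ^ 2 ≤ 383 / 4000 * b := by
    have : b * b ≤ 383 / 4000 * b := by gcongr
    nlinarith [sq_nonneg a]
  have hs1 : |2 * s * (b ^ 2 - a ^ 2)| ≤ 0.27812 * b := by
    rw [abs_mul, abs_mul, abs_of_pos hD, q4]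
    calc 2 * |s| * (b ^ 2 - a ^ 2) ≤ 2 * 1.4523 * (383 / 4000 * b) := by gcongr
      _ ≤ 0.27812 * b := by
        have : (0.27812 - 2 * 1.4523 * (383 / 4000)) * b ≥ 0 := by
          apply mul_nonneg _ hb.le; norm_num
        linarith
  rw [abs_le] at hs1
  have k1 : 4 * r * a + 0.72188 ≤ 0 := by
    by_contra hcon
    push Not at hcon
    have : 0 < (4 * r * a + 0.72188) * b := mul_pos hcon hb
    linarith [hs1.2, hs1.1]
  have k2 : 0 ≤ 4 * r * a + 1.27812 := by
    by_contra hcon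
    push Not at hcon
    have : (4 * r * a + 1.27812) * b < 0 := mul_neg_of_neg_of_pos hcon hb
    linarith [hs1.1, hs1.2]
  have ha_neg : a < 0 := by
    by_contra hcon
    push Not at hcon
    have : 0 ≤ 4 * r * a := by positivity
    norm_num at k1
    linarith
  norm_num at k1 k2
  have A1 : -(267 / 50000) ≤ a := by
    have h3 : 4 * r * a ≤ 240 * a := by
      have : (r - 60) * a ≤ 0 := mul_nonpos_of_nonneg_of_nonpos (by linarith) ha_neg.le
      linarith
    linarith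
  have A2 : a ≤ -(293 / 100000) := by
    have h3 : 244.8 * a ≤ 4 * r * a := by
      have : 0 ≤ (r - 61.2) * a := mul_nonneg_of_nonpos_of_nonpos (by norm_num; linarith) ha_neg.le
      linarith
    norm_num at h3
    linarith
  have q5 : |a| ≤ 267 / 50000 := by rw [abs_le]; constructor <;> linarith
  have hsab2 : |4 * s * a * b| ≤ 0.00298 := by
    rw [abs_mul, abs_mul, abs_mul, abs_of_pos hb, q3]
    calc 4 * |s| * |a| * b ≤ 4 * 1.4523 * (267 / 50000) * (383 / 4000) := by gcongr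
      _ ≤ 0.00298 := by norm_num
  rw [abs_le] at hsab2
  norm_num at hsab2
  have ha2 : a ^ 2 ≤ (267 / 50000) ^ 2 := sq_le_sq' A1 (by linarith)
  have ha2' := sq_nonneg a
  norm_num at ha2
  have B1 : 9 / 100 ≤ b := by
    by_contra hcon
    push Not at hcon
    have h3 : b ^ 2 ≤ (9 / 100) ^ 2 := by gcongr
    norm_num at h3
    have h4 : 2 * r * (b ^ 2 - a ^ 2) ≤ 2 * 61.2 * (81 / 10000) := by
      gcongr
      · norm_num; linarith
      · linarith
    norm_num at h4
    linarith [hsab2.2]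
  have B2 : b ≤ 4573 / 50000 := by
    by_contra hcon
    push Not at hcon
    have h3 : (4573 / 50000) ^ 2 ≤ b ^ 2 := by gcongr
    norm_num at h3
    have h5 : 20841040 / 2500000000 ≤ b ^ 2 - a ^ 2 := by linarith
    have h6 : (r - 60) * (b ^ 2 - a ^ 2) ≥ 0 := mul_nonneg (by linarith) hD.le
    linarith [hsab2.1]
  norm_num
  exact ⟨A1, A2, B1, B2⟩

end MPc6f924
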