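import Mathlib

/-!
# Error term of the telescoping function
-/

namespace MPc6f924

open Complex

/-- multiplier of `E = exp (L t)`: `β² M(x) = 1 + q h`. -/
noncomputable def hh (q x : ℂ) : ℂ := x * ((1 - q) * (3 - q) - (2 - q) * x) / (1 - q - x) ^ 2

/-- relative change of `1 - 1/E`. -/
noncomputable def bb (q x : ℂ) : ℂ :=
  x ^ 2 * (2 - q - x) / ((1 + x) * (1 - (2 - q) * x + x ^ 2))

lemma log_sub_le {w : ℂ} (h : ‖w‖ ≤ 1 / 2) : ‖log (1 + w) - w‖ ≤ ‖w‖ ^ 2 := by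
  have h1 := Complex.norm_log_one_add_sub_self_le (z := w) (by linarith)
  have h2 : (1 - ‖w‖)⁻¹ ≤ 2 := by
    rw [inv_le_comm₀ (by linarith) (by norm_num)]
    linarith
  calc _ ≤ ‖w‖ ^ 2 * (1 - ‖w‖)⁻¹ / 2 := h1
    _ ≤ ‖w‖ ^ 2 * 2 / 2 := by gcongr
    _ = ‖w‖ ^ 2 := by ring

lemma norm_D1 {q x : ℂ} (hq : ‖q‖ ≤ 1 / 10) (hx : ‖x‖ ≤ 1 / 10) :
    4 / 5 ≤ ‖1 - q - x‖ := by
  have h := norm_sub_norm_le (1 : ℂ) (q + x)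
  have h2 := norm_add_le q x
  rw [show (1 : ℂ) - q - x = 1 - (q + x) by ring]
  rw [norm_one] at h
  linarith

lemma norm_one_add {x : ℂ} (hx : ‖x‖ ≤ 1 / 10) : 9 / 10 ≤ ‖1 + x‖ := by
  have h := norm_sub_norm_le (1 : ℂ) (-x)
  rw [norm_one, norm_neg, sub_neg_eq_add] at h
  linarith

lemma norm_two_sub {q : ℂ} (hq : ‖q‖ ≤ 1 / 10) : ‖2 - q‖ ≤ 21 / 10 := by
  have h := norm_sub_le (2 : ℂ) q
  have h2 : ‖(2 : ℂ)‖ = 2 := by simp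
  linarith

lemma norm_NN {q x : ℂ} (hq : ‖q‖ ≤ 1 / 10) (hx : ‖x‖ ≤ 1 / 10) :
    3 / 4 ≤ ‖1 - (2 - q) * x + x ^ 2‖ := by
  have h := norm_sub_norm_le (1 : ℂ) ((2 - q) * x - x ^ 2)
  have h2 := norm_sub_le ((2 - q) * x) (x ^ 2)
  rw [norm_mul, norm_pow] at h2
  have h3 := norm_two_sub hq
  rw [show (1 : ℂ) - (2 - q) * x + x ^ 2 = 1 - ((2 - q) * x - x ^ 2) by ring]
  rw [norm_one] at h
  have h0 := norm_nonneg x
  have h0' := norm_nonneg (2 - q)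
  nlinarith

lemma norm_hh {q x : ℂ} (hq : ‖q‖ ≤ 1 / 10) (hx : ‖x‖ ≤ 1 / 10) :
    ‖hh q x‖ ≤ 6 * ‖x‖ := by
  have h1 := norm_D1 hq hx
  have h2 : ‖(1 - q) * (3 - q) - (2 - q) * x‖ ≤ 3.75 := by
    have a1 : ‖1 - q‖ ≤ 11 / 10 := by
      have := norm_sub_le (1 : ℂ) q
      rw [norm_one] at this; linarith
    have a2 : ‖3 - q‖ ≤ 31 / 10 := by
      have := norm_sub_le (3 : ℂ) q
      have h3 : ‖(3 : ℂ)‖ = 3 := by simp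
      linarith
    have a3 := norm_two_sub hq
    calc _ ≤ ‖(1 - q) * (3 - q)‖ + ‖(2 - q) * x‖ := norm_sub_le _ _
      _ = ‖1 - q‖ * ‖3 - q‖ + ‖2 - q‖ * ‖x‖ := by rw [norm_mul, norm_mul]
      _ ≤ 11 / 10 * (31 / 10) + 21 / 10 * (1 / 10) := by gcongr
      _ ≤ 3.75 := by norm_num
  rw [hh, norm_div, norm_mul, norm_pow, div_le_iff₀ (by positivity)]
  have h0 := norm_nonneg x
  have h4 : (16 / 25 : ℝ) ≤ ‖1 - q - x‖ ^ 2 := by nlinarith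
  calc ‖x‖ * ‖(1 - q) * (3 - q) - (2 - q) * x‖ ≤ ‖x‖ * 3.75 := by gcongr
    _ ≤ 6 * ‖x‖ * (16 / 25) := by nlinarith
    _ ≤ 6 * ‖x‖ * ‖1 - q - x‖ ^ 2 := by gcongr

lemma norm_bb {q x : ℂ} (hq : ‖q‖ ≤ 1 / 10) (hx : ‖x‖ ≤ 1 / 10) :
    ‖bb q x‖ ≤ 4 * ‖x‖ ^ 2 := by
  have h1 := norm_one_add hx
  have h2 := norm_NN hq hx
  have h3 := norm_two_sub hq
  have h4 := norm_sub_le (2 - q) x
  rw [bb, norm_div, norm_mul, norm_mul, norm_pow, div_le_iff₀ (by positivity)]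
  calc ‖x‖ ^ 2 * ‖2 - q - x‖ ≤ ‖x‖ ^ 2 * (22 / 10) := by gcongr; linarith
    _ ≤ 4 * ‖x‖ ^ 2 * (9 / 10 * (3 / 4)) := by nlinarith [sq_nonneg ‖x‖]
    _ ≤ 4 * ‖x‖ ^ 2 * (‖1 + x‖ * ‖1 - (2 - q) * x + x ^ 2‖) := by gcongr

lemma alg_bound : ∃ C : ℝ, 0 ≤ C ∧ ∀ q x : ℂ, ‖q‖ ≤ 1 / 10 → ‖x‖ ≤ 1 / 10 →
    ‖hh q x / 2 - 11 / 8 * bb q x + 3 / 4 * (x ^ 2 - (2 - q) * x)‖
      ≤ C * (‖x‖ ^ 3 + ‖q‖ * ‖x‖) := by
  obtain ⟨C1, hC1⟩ := (isCompact_closedBall (0 : ℂ) (1 / 10)).exists_bound_of_continuousOn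
    (f := fun x : ℂ => 9 - 36 * x + 51 * x ^ 2 - 30 * x ^ 3 + 6 * x ^ 4)
    (by fun_prop)
  obtain ⟨C2, hC2⟩ := ((isCompact_closedBall (0 : ℂ) (1 / 10)).prod
    (isCompact_closedBall (0 : ℂ) (1 / 10))).exists_bound_of_continuousOn
    (f := fun p : ℂ × ℂ => 14 - 3 * p.2 - 18 * p.2 ^ 2 + 71 * p.2 ^ 3 - 80 * p.2 ^ 4
          + 24 * p.2 ^ 5
          - 20 * p.1 + 8 * p.1 * p.2 + 5 * p.1 * p.2 ^ 2 - 64 * p.1 * p.2 ^ 3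
          + 36 * p.1 * p.2 ^ 4
          + 6 * p.1 ^ 2 - 15 * p.1 ^ 2 * p.2 - 8 * p.1 ^ 2 * p.2 ^ 2 + 24 * p.1 ^ 2 * p.2 ^ 3
          + 6 * p.1 ^ 3 * p.2 + 6 * p.1 ^ 3 * p.2 ^ 2)
    (by fun_prop)
  refine ⟨max C1 C2, ?_, ?_⟩
  · have := hC1 0 (by simp)
    exact le_max_of_le_left ((norm_nonneg _).trans this)
  intro q x hq hx
  have h1 := norm_D1 hq hx
  have h2 := norm_one_add hx
  have h3 := norm_NN hq hx
  have n1 : 1 - q - x ≠ 0 := by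
    intro h; rw [h, norm_zero] at h1; linarith
  have n2 : 1 + x ≠ 0 := by
    intro h; rw [h, norm_zero] at h2; linarith
  have n3 : 1 - (2 - q) * x + x ^ 2 ≠ 0 := by
    intro h; rw [h, norm_zero] at h3; linarith
  have key : (hh q x / 2 - 11 / 8 * bb q x + 3 / 4 * (x ^ 2 - (2 - q) * x))
      * (8 * ((1 - q - x) ^ 2 * ((1 + x) * (1 - (2 - q) * x + x ^ 2))))
      = x ^ 3 * (9 - 36 * x + 51 * x ^ 2 - 30 * x ^ 3 + 6 * x ^ 4)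
        + q * x * (14 - 3 * x - 18 * x ^ 2 + 71 * x ^ 3 - 80 * x ^ 4 + 24 * x ^ 5
          - 20 * q + 8 * q * x + 5 * q * x ^ 2 - 64 * q * x ^ 3 + 36 * q * x ^ 4
          + 6 * q ^ 2 - 15 * q ^ 2 * x - 8 * q ^ 2 * x ^ 2 + 24 * q ^ 2 * x ^ 3
          + 6 * q ^ 3 * x + 6 * q ^ 3 * x ^ 2) := by
    have e1 : hh q x * (1 - q - x) ^ 2 = x * ((1 - q) * (3 - q) - (2 - q) * x) := by
      unfold hh; exact div_mul_cancel₀ _ (pow_ne_zero 2 n1)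
    have e2 : bb q x * ((1 + x) * (1 - (2 - q) * x + x ^ 2)) = x ^ 2 * (2 - q - x) := by
      unfold bb; exact div_mul_cancel₀ _ (mul_ne_zero n2 n3)
    linear_combination (4 * ((1 + x) * (1 - (2 - q) * x + x ^ 2))) * e1
      - 11 * (1 - q - x) ^ 2 * e2
  have hD : 1 ≤ ‖(8 : ℂ) * ((1 - q - x) ^ 2 * ((1 + x) * (1 - (2 - q) * x + x ^ 2)))‖ := by
    rw [norm_mul, norm_mul, norm_mul, norm_pow]
    have h8 : ‖(8 : ℂ)‖ = 8 := by simp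
    rw [h8]
    have h4 : (16 / 25 : ℝ) ≤ ‖1 - q - x‖ ^ 2 := by nlinarith
    calc (1 : ℝ) ≤ 8 * (16 / 25 * (9 / 10 * (3 / 4))) := by norm_num
      _ ≤ 8 * (‖1 - q - x‖ ^ 2 * (‖1 + x‖ * ‖1 - (2 - q) * x + x ^ 2‖)) := by gcongr
  have hX := norm_nonneg x
  have hQ := norm_nonneg q
  have b1 := hC1 x (by simpa using hx)
  have b2 := hC2 (q, x) (by
    constructor
    · simpa using hq
    · simpa using hx)
  simp only at b1 b2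
  have hk := congrArg norm key
  rw [norm_mul] at hk
  calc ‖hh q x / 2 - 11 / 8 * bb q x + 3 / 4 * (x ^ 2 - (2 - q) * x)‖
      ≤ ‖hh q x / 2 - 11 / 8 * bb q x + 3 / 4 * (x ^ 2 - (2 - q) * x)‖ *
        ‖(8 : ℂ) * ((1 - q - x) ^ 2 * ((1 + x) * (1 - (2 - q) * x + x ^ 2)))‖ :=
        le_mul_of_one_le_right (norm_nonneg _) hD
    _ = _ := hk
    _ ≤ ‖x ^ 3 * (9 - 36 * x + 51 * x ^ 2 - 30 * x ^ 3 + 6 * x ^ 4)‖ + _ := norm_add_le _ _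
    _ ≤ ‖x‖ ^ 3 * max C1 C2 + ‖q‖ * ‖x‖ * max C1 C2 := by
        rw [norm_mul, norm_mul (q * x), norm_mul q x, norm_pow]
        gcongr
        · exact b1.trans (le_max_left _ _)
        · exact b2.trans (le_max_right _ _)
    _ = max C1 C2 * (‖x‖ ^ 3 + ‖q‖ * ‖x‖) := by ring

/-- relation between `q` and `L`. -/
lemma q_L {L : ℂ} (hL : ‖L‖ ≤ 1 / 20) (hL0 : L ≠ 0) :
    ‖(1 - exp (-L / 2)) / L - 1 / 2‖ ≤ ‖L‖ / 4 := by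
  have h := norm_exp_sub_one_sub_id_le (x := -L / 2) (by
    rw [norm_div, norm_neg]; simp; linarith)
  have hpos : 0 < ‖L‖ := norm_pos_iff.mpr hL0
  have e : (1 - exp (-L / 2)) / L - 1 / 2 = -(exp (-L / 2) - 1 - (-L / 2)) / L := by
    field_simp
    ring
  rw [e, norm_div, norm_neg, div_le_iff₀ hpos]
  refine h.trans ?_
  rw [norm_div, norm_neg]
  simp only [Complex.norm_ofNat]
  nlinarith

lemma norm_q_le {L : ℂ} (hL : ‖L‖ ≤ 1 / 20) : ‖1 - exp (-L / 2)‖ ≤ ‖L‖ := by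
  have h := norm_exp_sub_one_sub_id_le (x := -L / 2) (by
    rw [norm_div, norm_neg]; simp; linarith)
  have h2 : 1 - exp (-L / 2) = -(exp (-L / 2) - 1 - (-L / 2)) + L / 2 := by ring
  rw [h2]
  refine (norm_add_le _ _).trans ?_
  rw [norm_neg]
  rw [norm_div, norm_neg] at h
  rw [norm_div]
  simp only [Complex.norm_ofNat] at *
  nlinarith [norm_nonneg L]

/-- one-step error. -/
noncomputable def err (L x : ℂ) : ℂ :=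
  log (1 + (1 - exp (-L / 2)) * hh (1 - exp (-L / 2)) x) / L
    - 11 / 8 * log (1 + bb (1 - exp (-L / 2)) x)
    + 3 / 4 * (x ^ 2 - (1 + exp (-L / 2)) * x)

lemma err_bound : ∃ C : ℝ, 0 < C ∧ ∀ L x : ℂ, L ≠ 0 → ‖L‖ ≤ 1 / 20 → ‖x‖ ≤ 1 / 10 →
    ‖err L x‖ ≤ C * (‖x‖ ^ 3 + ‖L‖ * ‖x‖) := by
  obtain ⟨C, hC0, hC⟩ := alg_bound
  refine ⟨C + 60, by positivity, ?_⟩
  intro L x hL0 hL hx
  set q := 1 - exp (-L / 2) with hq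
  have hqL : ‖q‖ ≤ ‖L‖ := norm_q_le hL
  have hq1 : ‖q‖ ≤ 1 / 10 := by linarith
  have hpos : 0 < ‖L‖ := norm_pos_iff.mpr hL0
  have h1 := hC q x hq1 hx
  have hX := norm_nonneg x
  have hh1 := norm_hh hq1 hx
  have hb1 := norm_bb hq1 hx
  -- first log
  have hqh : ‖q * hh q x‖ ≤ 1 / 2 := by
    rw [norm_mul]
    calc ‖q‖ * ‖hh q x‖ ≤ (1 / 10) * (6 * (1 / 10)) := by
          gcongr
          exact hh1.trans (by gcongr)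
      _ ≤ 1 / 2 := by norm_num
  have l1 := log_sub_le hqh
  have l1' : ‖(log (1 + q * hh q x) - q * hh q x) / L‖ ≤ 36 * (‖L‖ * ‖x‖) := by
    rw [norm_div, div_le_iff₀ hpos]
    refine l1.trans ?_
    rw [norm_mul]
    calc (‖q‖ * ‖hh q x‖) ^ 2 ≤ (‖L‖ * (6 * ‖x‖)) ^ 2 := by gcongr
      _ = 36 * (‖L‖ * ‖x‖) * ‖L‖ * ‖x‖ := by ring
      _ ≤ 36 * (‖L‖ * ‖x‖) * ‖L‖ * 1 := by gcongr; linarith
      _ = _ := by ring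
  have l2 : ‖(q / L - 1 / 2) * hh q x‖ ≤ 2 * (‖L‖ * ‖x‖) := by
    rw [norm_mul]
    calc ‖q / L - 1 / 2‖ * ‖hh q x‖ ≤ (‖L‖ / 4) * (6 * ‖x‖) := by
          gcongr
          exact q_L hL hL0
      _ ≤ 2 * (‖L‖ * ‖x‖) := by nlinarith [mul_nonneg hpos.le hX]
  -- second log
  have hbb : ‖bb q x‖ ≤ 1 / 2 := by
    refine hb1.trans ?_
    nlinarith
  have l3 := log_sub_le hbb
  have l3' : ‖log (1 + bb q x) - bb q x‖ ≤ 2 * ‖x‖ ^ 3 := by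
    refine l3.trans ?_
    calc ‖bb q x‖ ^ 2 ≤ (4 * ‖x‖ ^ 2) ^ 2 := by gcongr
      _ = 16 * ‖x‖ ^ 3 * ‖x‖ := by ring
      _ ≤ 16 * ‖x‖ ^ 3 * (1 / 10) := by gcongr
      _ ≤ 2 * ‖x‖ ^ 3 := by nlinarith [pow_nonneg hX 3]
  have e : err L x = (hh q x / 2 - 11 / 8 * bb q x + 3 / 4 * (x ^ 2 - (2 - q) * x))
      + (log (1 + q * hh q x) - q * hh q x) / L + (q / L - 1 / 2) * hh q x
      - 11 / 8 * (log (1 + bb q x) - bb q x) := by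
    have hexp : exp (-L / 2) = 1 - q := by rw [hq]; ring
    simp only [err, hexp, sub_sub_cancel]
    ring
  rw [e]
  calc _ ≤ ‖(hh q x / 2 - 11 / 8 * bb q x + 3 / 4 * (x ^ 2 - (2 - q) * x))
      + (log (1 + q * hh q x) - q * hh q x) / L + (q / L - 1 / 2) * hh q x‖
      + ‖11 / 8 * (log (1 + bb q x) - bb q x)‖ := norm_sub_le _ _
    _ ≤ ‖(hh q x / 2 - 11 / 8 * bb q x + 3 / 4 * (x ^ 2 - (2 - q) * x))‖
      + ‖(log (1 + q * hh q x) - q * hh q x) / L‖ + ‖(q / L - 1 / 2) * hh q x‖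
      + ‖11 / 8 * (log (1 + bb q x) - bb q x)‖ := by
        gcongr
        exact norm_add₃_le
    _ ≤ C * (‖x‖ ^ 3 + ‖q‖ * ‖x‖) + 36 * (‖L‖ * ‖x‖) + 2 * (‖L‖ * ‖x‖)
      + 11 / 8 * (2 * ‖x‖ ^ 3) := by
        gcongr
        rw [norm_mul]
        have : ‖(11 / 8 : ℂ)‖ = 11 / 8 := by norm_num
        rw [this]
        gcongr
    _ ≤ C * (‖x‖ ^ 3 + ‖L‖ * ‖x‖) + 36 * (‖L‖ * ‖x‖) + 2 * (‖L‖ * ‖x‖)
      + 11 / 8 * (2 * ‖x‖ ^ 3) := by gcongr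
    _ ≤ (C + 60) * (‖x‖ ^ 3 + ‖L‖ * ‖x‖) := by
        nlinarith [mul_nonneg hpos.le hX, pow_nonneg hX 3]

end MPc6f924
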