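import Mathlib

/-!
# Verified escape of a box under `x ↦ x^2 - x`
-/

namespace MPc6f924

open Complex

/-- the limit map -/
noncomputable def gx (x : ℂ) : ℂ := x ^ 2 - x

/-- `f z`, but the kernel evaluates `z` first. -/
def force {α : Type} (z : ℤ) (f : ℤ → α) : α :=
  match z with
  | Int.ofNat 0 => f (Int.ofNat 0)
  | Int.ofNat (n + 1) => f (Int.ofNat (n + 1))
  | Int.negSucc 0 => f (Int.negSucc 0)
  | Int.negSucc (n + 1) => f (Int.negSucc (n + 1))

lemma force_eq {α : Type} (z : ℤ) (f : ℤ → α) : force z f = f z := by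
  unfold force
  split <;> rfl

/-- `a ≤ b` as a boolean -/
def leb (a b : ℤ) : Bool :=
  match b - a with
  | Int.ofNat _ => true
  | Int.negSucc _ => false

lemma le_of_leb {a b : ℤ} (h : leb a b = true) : a ≤ b := by
  unfold leb at h
  split at h
  · rename_i n hn
    have : 0 ≤ b - a := by rw [hn]; exact Int.natCast_nonneg n
    linarith
  · simp at h

/-- scale -/
def SC : ℤ := 1099511627776

def newton (v m : ℤ) : ℤ :=
  force ((m + v / m) / 2) fun m1 => force ((m1 + v / m1) / 2) fun m2 => m2 + 1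

def chk : ℕ → ℤ → ℤ → ℤ → Bool
  | 0, _, _, _ => false
  | n + 1, re, im, r =>
    bif leb ((2 * SC + r) * (2 * SC + r) + 1) (re * re + im * im) then true
    else bif leb r SC then
      force ((2 * re - SC) * (2 * re - SC) + 4 * (im * im)) fun v =>
      force (newton v ((SC + v / SC) / 2)) fun m =>
      bif leb v (m * m) && leb 0 m then
        force ((re * re - im * im) / SC - re) fun re' =>
        force ((2 * (re * im)) / SC - im) fun im' =>
        force ((m * r) / SC + (r * r) / SC + 4) fun r' =>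
        chk n re' im' r'
      else false
    else false

def rad (ha hb : ℤ) : ℤ := newton (ha * ha + hb * hb) (3 * (ha + hb) / 4 + 1)

def cov : ℕ → ℤ → ℤ → ℤ → ℤ → Bool
  | 0, _, _, _, _ => false
  | n + 1, a, b, ha, hb =>
    bif Nat.ble n 3 && (force (rad ha hb) fun r => leb 0 r && leb (ha * ha + hb * hb) (r * r)
      && chk 110 a b r)
    then true
    else bif leb hb ha then
      force ((ha + 1) / 2) fun h => force (a - h) fun a1 => force (a + h) fun a2 =>
        cov n a1 b h hb && cov n a2 b h hb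
      else
      force ((hb + 1) / 2) fun h => force (b - h) fun b1 => force (b + h) fun b2 =>
        cov n a b1 ha h && cov n a b2 ha h

set_option maxRecDepth 100000 in
lemma cov_true : cov 10 (-4546480581) 99758689988 1324911513 802643490 = true := by
  decide +kernel

/-! ### Soundness -/

lemma div_bounds (z : ℤ) : 0 ≤ (z : ℝ) / SC - ((z / SC : ℤ) : ℝ) ∧
    (z : ℝ) / SC - ((z / SC : ℤ) : ℝ) ≤ 1 := by
  have hS : (0 : ℝ) < (SC : ℝ) := by norm_num [SC]
  have hS' : (0 : ℤ) < SC := by norm_num [SC]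
  have h1 : SC * (z / SC) ≤ z := Int.mul_ediv_self_le hS'.ne'
  have h2 : z < SC * (z / SC) + SC := Int.lt_mul_ediv_self_add hS'
  have h1' : (SC : ℝ) * ((z / SC : ℤ) : ℝ) ≤ z := by exact_mod_cast h1
  have h2' : (z : ℝ) < (SC : ℝ) * ((z / SC : ℤ) : ℝ) + SC := by exact_mod_cast h2
  constructor
  · rw [sub_nonneg, le_div_iff₀ hS]; linarith
  · rw [sub_le_iff_le_add, div_le_iff₀ hS]; nlinarith

lemma step_sound {re im r m : ℤ} {x : ℂ}
    (hx : ‖(SC : ℂ) * x - ((re : ℂ) + (im : ℂ) * I)‖ ≤ r)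
    (hm : (2 * re - SC) * (2 * re - SC) + 4 * (im * im) ≤ m * m) (hm0 : 0 ≤ m) :
    ‖(SC : ℂ) * gx x - ((((re * re - im * im) / SC - re : ℤ) : ℂ)
      + (((2 * (re * im)) / SC - im : ℤ) : ℂ) * I)‖
      ≤ (((m * r) / SC + (r * r) / SC + 4 : ℤ) : ℝ) := by
  have hS : (0 : ℝ) < (SC : ℝ) := by norm_num [SC]
  have hSc : (SC : ℂ) ≠ 0 := by norm_num [SC]
  have hr : (0 : ℝ) ≤ r := (norm_nonneg _).trans hx
  set c : ℂ := (re : ℂ) + (im : ℂ) * I with hc
  set δ : ℂ := (SC : ℂ) * x - c with hδ
  have hxe : x = (c + δ) / SC := by rw [hδ]; field_simp; ring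
  obtain ⟨a1, a2⟩ := div_bounds (re * re - im * im)
  obtain ⟨b1, b2⟩ := div_bounds (2 * (re * im))
  obtain ⟨-, c2⟩ := div_bounds (m * r)
  obtain ⟨-, d2⟩ := div_bounds (r * r)
  set f1 : ℝ := ((re * re - im * im : ℤ) : ℝ) / SC - (((re * re - im * im) / SC : ℤ) : ℝ) with hf1
  set f2 : ℝ := ((2 * (re * im) : ℤ) : ℝ) / SC - (((2 * (re * im)) / SC : ℤ) : ℝ) with hf2
  have key : (SC : ℂ) * gx x - ((((re * re - im * im) / SC - re : ℤ) : ℂ)
      + (((2 * (re * im)) / SC - im : ℤ) : ℂ) * I)
      = ((f1 : ℂ) + (f2 : ℂ) * I) + (2 * c - SC) * δ / SC + δ ^ 2 / SC := by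
    have e1 : (f1 : ℂ) = ((re : ℂ) * re - im * im) / SC - (((re * re - im * im) / SC : ℤ) : ℂ) := by
      rw [hf1]; push_cast; ring
    have e2 : (f2 : ℂ) = (2 * ((re : ℂ) * im)) / SC - (((2 * (re * im)) / SC : ℤ) : ℂ) := by
      rw [hf2]; push_cast; ring
    rw [e1, e2, gx, hxe]
    push_cast
    have e3 : c ^ 2 = ((re : ℂ) * re - im * im) + 2 * (re * im) * I := by
      rw [hc]
      linear_combination ((im : ℂ) ^ 2) * I_sq
    field_simp
    linear_combination e3 - (SC : ℂ) * hc
  rw [key]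
  have n1 : ‖(f1 : ℂ) + (f2 : ℂ) * I‖ ≤ 2 := by
    refine (norm_add_le _ _).trans ?_
    rw [norm_mul, norm_I, mul_one, norm_real, norm_real, Real.norm_of_nonneg a1,
      Real.norm_of_nonneg b1]
    linarith
  have n2 : ‖2 * c - SC‖ ≤ m := by
    have hm' : (2 * (re : ℝ) - SC) * (2 * re - SC) + 4 * (im * im) ≤ m * m := by
      exact_mod_cast hm
    have hm0' : (0 : ℝ) ≤ m := by exact_mod_cast hm0
    have e : ‖2 * c - SC‖ ^ 2 = (2 * (re : ℝ) - SC) * (2 * re - SC) + 4 * (im * im) := by
      rw [← normSq_eq_norm_sq, normSq_apply]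
      have r1 : (2 * c - (SC : ℂ)).re = 2 * re - SC := by
        simp [hc]
      have r2 : (2 * c - (SC : ℂ)).im = 2 * im := by
        simp [hc]
      rw [r1, r2]; ring
    have := norm_nonneg (2 * c - (SC : ℂ))
    nlinarith
  have hSn : ‖(SC : ℂ)‖ = (SC : ℝ) := by
    rw [norm_intCast, abs_of_pos hS]
  have hm0' : (0 : ℝ) ≤ m := by exact_mod_cast hm0
  have n3 : ‖(2 * c - SC) * δ / SC‖ ≤ (m * r : ℝ) / SC := by
    rw [norm_div, norm_mul, hSn]
    gcongr
  have n4 : ‖δ ^ 2 / SC‖ ≤ (r * r : ℝ) / SC := by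
    rw [norm_div, norm_pow, hSn, pow_two]
    gcongr
  refine (norm_add₃_le).trans ?_
  push_cast at c2 d2 ⊢
  linarith

lemma chk_sound (n : ℕ) : ∀ (re im r : ℤ) (x : ℂ), chk n re im r = true →
    ‖(SC : ℂ) * x - ((re : ℂ) + (im : ℂ) * I)‖ ≤ r → ∃ k, 2 < ‖gx^[k] x‖ := by
  induction n with
  | zero => intro re im r x h; simp [chk] at h
  | succ n ih =>
    intro re im r x h hx
    have hS : (0 : ℝ) < (SC : ℝ) := by norm_num [SC]
    have hr : (0 : ℝ) ≤ r := (norm_nonneg _).trans hx
    rw [chk] at h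
    cases h1 : leb ((2 * SC + r) * (2 * SC + r) + 1) (re * re + im * im) with
    | true =>
      have h2 := le_of_leb h1
      refine ⟨0, ?_⟩
      simp only [Function.iterate_zero, id_eq]
      have h3 : (2 * (SC : ℝ) + r) * (2 * SC + r) + 1 ≤ re * re + im * im := by exact_mod_cast h2
      set c : ℂ := (re : ℂ) + (im : ℂ) * I with hc
      have e : ‖c‖ ^ 2 = (re : ℝ) * re + im * im := by
        rw [← normSq_eq_norm_sq, normSq_apply]
        simp [hc]
      have h4 : 2 * (SC : ℝ) + r < ‖c‖ := by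
        have := norm_nonneg c
        nlinarith
      have h5 : ‖c‖ ≤ ‖(SC : ℂ) * x‖ + r := by
        have : c = (SC : ℂ) * x - ((SC : ℂ) * x - c) := by ring
        calc ‖c‖ = ‖(SC : ℂ) * x - ((SC : ℂ) * x - c)‖ := by rw [← this]
          _ ≤ _ := (norm_sub_le _ _).trans (by gcongr)
      rw [norm_mul, norm_intCast, abs_of_pos hS] at h5
      nlinarith
    | false =>
      rw [h1, cond_false] at h
      cases h2 : leb r SC with
      | false => rw [h2, cond_false] at h; simp at h
      | true =>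
        rw [h2, cond_true, force_eq, force_eq] at h
        set v := (2 * re - SC) * (2 * re - SC) + 4 * (im * im) with hv
        set m := newton v ((SC + v / SC) / 2) with hm
        cases h3 : (leb v (m * m) && leb 0 m) with
        | false => rw [h3, cond_false] at h; simp at h
        | true =>
          rw [h3, cond_true, force_eq, force_eq, force_eq] at h
          rw [Bool.and_eq_true] at h3
          have := step_sound hx (le_of_leb h3.1) (le_of_leb h3.2)
          obtain ⟨k, hk⟩ := ih _ _ _ (gx x) h this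
          exact ⟨k + 1, by rwa [Function.iterate_succ_apply]⟩

lemma cov_sound (n : ℕ) : ∀ (a b ha hb : ℤ) (x : ℂ), cov n a b ha hb = true →
    |(SC : ℝ) * x.re - a| ≤ ha → |(SC : ℝ) * x.im - b| ≤ hb → ∃ k, 2 < ‖gx^[k] x‖ := by
  induction n with
  | zero => intro a b ha hb x h; simp [cov] at h
  | succ n ih =>
    intro a b ha hb x h hxa hxb
    have hS : (0 : ℝ) < (SC : ℝ) := by norm_num [SC]
    rw [cov] at h
    simp only [force_eq] at h
    have hhalf : ∀ z : ℤ, (z : ℝ) ≤ 2 * (((z + 1) / 2 : ℤ) : ℝ) := by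
      intro z
      have : z ≤ 2 * ((z + 1) / 2) := by omega
      exact_mod_cast this
    cases h1 : (Nat.ble n 3 && (leb 0 (rad ha hb) && leb (ha * ha + hb * hb) (rad ha hb * rad ha hb)
      && chk 110 a b (rad ha hb))) with
    | true =>
      rw [Bool.and_eq_true, Bool.and_eq_true, Bool.and_eq_true] at h1
      obtain ⟨-, ⟨h2, h3⟩, h4⟩ := h1
      apply chk_sound 110 a b (rad ha hb) x h4
      have h2' : (0 : ℝ) ≤ rad ha hb := by exact_mod_cast le_of_leb h2
      have h3' : (ha : ℝ) * ha + hb * hb ≤ rad ha hb * rad ha hb := by exact_mod_cast le_of_leb h3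
      have e : ‖(SC : ℂ) * x - ((a : ℂ) + (b : ℂ) * I)‖ ^ 2
          = ((SC : ℝ) * x.re - a) ^ 2 + ((SC : ℝ) * x.im - b) ^ 2 := by
        rw [← normSq_eq_norm_sq, normSq_apply]
        have r1 : ((SC : ℂ) * x - ((a : ℂ) + (b : ℂ) * I)).re = (SC : ℝ) * x.re - a := by
          simp
        have r2 : ((SC : ℂ) * x - ((a : ℂ) + (b : ℂ) * I)).im = (SC : ℝ) * x.im - b := by
          simp
        rw [r1, r2]; ring
      have q1 : ((SC : ℝ) * x.re - a) ^ 2 ≤ (ha : ℝ) ^ 2 := sq_le_sq' (by linarith [(abs_le.mp hxa).1]) (abs_le.mp hxa).2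
      have q2 : ((SC : ℝ) * x.im - b) ^ 2 ≤ (hb : ℝ) ^ 2 := sq_le_sq' (by linarith [(abs_le.mp hxb).1]) (abs_le.mp hxb).2
      apply le_of_sq_le_sq _ h2'
      rw [e]
      nlinarith
    | false =>
      rw [h1, cond_false] at h
      cases h2 : leb hb ha with
      | true =>
        rw [h2, cond_true, Bool.and_eq_true] at h
        have hh := hhalf ha
        rw [abs_le] at hxa
        rcases le_total ((SC : ℝ) * x.re) a with h3 | h3
        · apply ih _ _ _ _ x h.1 _ hxb
          push_cast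
          rw [abs_le]
          constructor <;> linarith [hxa.1, hxa.2]
        · apply ih _ _ _ _ x h.2 _ hxb
          push_cast
          rw [abs_le]
          constructor <;> linarith [hxa.1, hxa.2]
      | false =>
        rw [h2, cond_false, Bool.and_eq_true] at h
        have hh := hhalf hb
        rw [abs_le] at hxb
        rcases le_total ((SC : ℝ) * x.im) b with h3 | h3
        · apply ih _ _ _ _ x h.1 hxa
          push_cast
          rw [abs_le]
          constructor <;> linarith [hxb.1, hxb.2]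
        · apply ih _ _ _ _ x h.2 hxa
          push_cast
          rw [abs_le]
          constructor <;> linarith [hxb.1, hxb.2]

/-- All points of the box escape. -/
lemma box_escape {x : ℂ} (h1 : -0.00534 ≤ x.re) (h2 : x.re ≤ -0.00293) (h3 : 0.0900 ≤ x.im)
    (h4 : x.im ≤ 0.09146) : ∃ k, 2 < ‖gx^[k] x‖ := by
  apply cov_sound _ _ _ _ _ x cov_true
  · rw [abs_le]
    constructor
    · norm_num [SC]; norm_num at h1 h2; linarith
    · norm_num [SC]; norm_num at h1 h2; linarith
  · rw [abs_le]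
    constructor
    · norm_num [SC]; norm_num at h3 h4; linarith
    · norm_num [SC]; norm_num at h3 h4; linarith

/-- Points with large modulus have unbounded orbits. -/
lemma unbounded_of {x : ℂ} {k : ℕ} (h : 2 < ‖gx^[k] x‖) (B : ℝ) : ∃ n, B < ‖gx^[n] x‖ := by
  set r := ‖gx^[k] x‖ with hr
  have key : ∀ n : ℕ, r * (r - 1) ^ n ≤ ‖gx^[n + k] x‖ := by
    intro n
    induction n with
    | zero => simp [hr]
    | succ n ih =>
      have h1 : (1 : ℝ) ≤ (r - 1) ^ n := one_le_pow₀ (by linarith)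
      have h2 : r ≤ ‖gx^[n + k] x‖ := by nlinarith
      rw [show n + 1 + k = (n + k) + 1 by ring, Function.iterate_succ_apply']
      set y := gx^[n + k] x
      have h3 : ‖gx y‖ = ‖y‖ * ‖y - 1‖ := by
        rw [gx, ← norm_mul]; congr 1; ring
      have h4 : ‖y‖ - 1 ≤ ‖y - 1‖ := by
        have := norm_sub_norm_le y 1
        rwa [norm_one] at this
      rw [h3, pow_succ, ← mul_assoc]
      apply mul_le_mul ih (by linarith) (by linarith) (norm_nonneg _)
  obtain ⟨n, hn⟩ := pow_unbounded_of_one_lt B (show 1 < r - 1 by linarith)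
  refine ⟨n + k, lt_of_lt_of_le hn (le_trans ?_ (key n))⟩
  have : (0 : ℝ) ≤ (r - 1) ^ n := by
    have : 0 ≤ r - 1 := by linarith
    positivity
  nlinarith

end MPc6f924
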