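import Mathlib
import Pool.Agent.Work.MP_c6f924_an.Err
import Pool.Agent.Work.MP_c6f924_an.Numeric
import Pool.Agent.Work.MP_c6f924_an.BoxReal

/-!
# Repelling side: every orbit in the channel escapes
-/

namespace MPc6f924

open Complex

noncomputable def stepU (x t : ℂ) : ℂ := t - (2 - x) / (2 * (1 - x) ^ 2)

def ER (x t : ℂ) : Prop := -2 * t * x ^ 2 = 1 + x

noncomputable def VV (x t : ℂ) : ℂ := t + 11 / 8 * log t - 3 / 4 * x

noncomputable def ee (x : ℂ) : ℂ :=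
  1 - (2 - x) / (2 * (1 - x) ^ 2) + 11 / 8 * (log (1 + x ^ 3) - 2 * log (1 + -x ^ 2))
    - 3 / 4 * (x ^ 2 - 2 * x)

lemma one_sub_ne {x : ℂ} (hx : ‖x‖ ≤ 1 / 10) : 1 - x ≠ 0 := by
  intro h
  have : x = 1 := by linear_combination -h
  rw [this] at hx; norm_num at hx

lemma er_step {x t : ℂ} (hx : ‖x‖ ≤ 1 / 10) (h : ER x t) : ER (gx x) (stepU x t) := by
  unfold ER gx stepU at *
  have h1 := one_sub_ne hx
  have e : (2 - x) / (2 * (1 - x) ^ 2) * (2 * (1 - x) ^ 2) = 2 - x :=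
    div_mul_cancel₀ _ (by simpa using h1)
  linear_combination (1 - x) ^ 2 * h + x ^ 2 * e

lemma ratio {x t : ℂ} (hx : ‖x‖ ≤ 1 / 10) (h : ER x t) :
    stepU x t * (1 + -x ^ 2) ^ 2 = t * (1 + x ^ 3) := by
  unfold ER stepU at *
  have h1 := one_sub_ne hx
  have e : (2 - x) / (2 * (1 - x) ^ 2) * (2 * (1 - x) ^ 2) = 2 - x :=
    div_mul_cancel₀ _ (by simpa using h1)
  linear_combination (-(1 + x) ^ 2 / 2) * e + (2 - x) * (1 + x) / 2 * h

lemma norm_log_small {y : ℂ} (hy : ‖y‖ ≤ 1 / 100) : ‖log (1 + y)‖ ≤ 1 / 50 := by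
  refine (norm_log_one_add_half_le_self (by linarith)).trans ?_
  linarith

lemma one_add_ne {y : ℂ} (hy : ‖y‖ ≤ 1 / 100) : 1 + y ≠ 0 := by
  intro h
  have : y = -1 := by linear_combination h
  rw [this] at hy; norm_num at hy

lemma log_step {x t : ℂ} (hx : ‖x‖ ≤ 1 / 10) (h : ER x t) (ht : 0 < t.re) :
    log (stepU x t) = log t + (log (1 + x ^ 3) - 2 * log (1 + -x ^ 2)) := by
  have hX := norm_nonneg x
  have y1 : ‖x ^ 3‖ ≤ 1 / 100 := by
    rw [norm_pow]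
    calc ‖x‖ ^ 3 ≤ (1 / 10) ^ 3 := by gcongr
      _ ≤ 1 / 100 := by norm_num
  have y2 : ‖-x ^ 2‖ ≤ 1 / 100 := by
    rw [norm_neg, norm_pow]
    calc ‖x‖ ^ 2 ≤ (1 / 10) ^ 2 := by gcongr
      _ ≤ 1 / 100 := by norm_num
  have n1 := one_add_ne y1
  have n2 := one_add_ne y2
  have l1 := norm_log_small y1
  have l2 := norm_log_small y2
  have ht0 : t ≠ 0 := by
    intro h; rw [h] at ht; simp at ht
  have e : stepU x t = exp (log t + (log (1 + x ^ 3) - 2 * log (1 + -x ^ 2))) := by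
    rw [exp_add, exp_sub, exp_log ht0, exp_log n1]
    have : exp (2 * log (1 + -x ^ 2)) = (1 + -x ^ 2) ^ 2 := by
      rw [show (2 : ℂ) * log (1 + -x ^ 2) = ((2 : ℕ) : ℂ) * log (1 + -x ^ 2) by norm_num,
        exp_nat_mul, exp_log n2]
    rw [this, mul_div_assoc', eq_div_iff (pow_ne_zero 2 n2)]
    exact ratio hx h
  have him : |(log t).im| < Real.pi / 2 := by
    rw [log_im]
    exact abs_arg_lt_pi_div_two_iff.mpr (Or.inl ht)
  have hpi := Real.pi_gt_three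
  have i1 := (abs_im_le_norm (log (1 + x ^ 3))).trans l1
  have i2 := (abs_im_le_norm (log (1 + -x ^ 2))).trans l2
  have e3 : (log t + (log (1 + x ^ 3) - 2 * log (1 + -x ^ 2))).im
      = (log t).im + (log (1 + x ^ 3)).im - 2 * (log (1 + -x ^ 2)).im := by
    simp only [add_im, sub_im, mul_im, re_ofNat, im_ofNat, zero_mul, add_zero]
    ring
  rw [abs_le] at i1 i2
  rw [abs_lt] at him
  rw [e]
  apply log_exp
  · rw [e3]; linarith [i1.1, i2.2, him.1]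
  · rw [e3]; linarith [i1.2, i2.1, him.2]

lemma VV_step {x t : ℂ} (hx : ‖x‖ ≤ 1 / 10) (h : ER x t) (ht : 0 < t.re) :
    VV (gx x) (stepU x t) = VV x t - 1 + ee x := by
  have h1 := log_step hx h ht
  unfold VV ee
  rw [h1]
  unfold stepU gx
  ring

lemma norm_one_sub {x : ℂ} (hx : ‖x‖ ≤ 1 / 10) : 9 / 10 ≤ ‖1 - x‖ := by
  have h := norm_sub_norm_le (1 : ℂ) x
  rw [norm_one] at h
  linarith

lemma ee_bound {x : ℂ} (hx : ‖x‖ ≤ 1 / 10) : ‖ee x‖ ≤ 3 / 2 * ‖x‖ ^ 3 := by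
  have hX := norm_nonneg x
  have h1 := one_sub_ne hx
  have h9 := norm_one_sub hx
  -- rational part
  set E : ℂ := 1 - (2 - x) / (2 * (1 - x) ^ 2) + 11 / 8 * (x ^ 3 + 2 * x ^ 2 + x ^ 4)
    - 3 / 4 * (x ^ 2 - 2 * x) with hE
  have eE : E * (8 * (1 - x) ^ 2) = x ^ 3 * (-9 + 5 * x - 11 * x ^ 2 + 11 * x ^ 3) := by
    rw [hE]
    field_simp
    ring
  have nE : ‖E‖ ≤ 1.4848 * ‖x‖ ^ 3 := by
    have h2 : ‖(-9 + 5 * x - 11 * x ^ 2 + 11 * x ^ 3 : ℂ)‖ ≤ 9.621 := by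
      calc ‖(-9 + 5 * x - 11 * x ^ 2 + 11 * x ^ 3 : ℂ)‖
          ≤ ‖(-9 + 5 * x - 11 * x ^ 2 : ℂ)‖ + ‖11 * x ^ 3‖ := norm_add_le _ _
        _ ≤ (‖(-9 + 5 * x : ℂ)‖ + ‖11 * x ^ 2‖) + ‖11 * x ^ 3‖ := by
            gcongr; exact norm_sub_le _ _
        _ ≤ ((‖(-9 : ℂ)‖ + ‖5 * x‖) + ‖11 * x ^ 2‖) + ‖11 * x ^ 3‖ := by
            gcongr; exact norm_add_le _ _
        _ = ((9 + 5 * ‖x‖) + 11 * ‖x‖ ^ 2) + 11 * ‖x‖ ^ 3 := by
            simp [norm_pow]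
        _ ≤ ((9 + 5 * (1 / 10)) + 11 * (1 / 10) ^ 2) + 11 * (1 / 10) ^ 3 := by gcongr
        _ ≤ 9.621 := by norm_num
    have h3 := congrArg norm eE
    rw [norm_mul, norm_mul, norm_mul, norm_pow, norm_pow] at h3
    have h8 : ‖(8 : ℂ)‖ = 8 := by simp
    rw [h8] at h3
    have h4 : ‖E‖ * (8 * (9 / 10) ^ 2) ≤ ‖x‖ ^ 3 * 9.621 := by
      calc ‖E‖ * (8 * (9 / 10) ^ 2) ≤ ‖E‖ * (8 * ‖1 - x‖ ^ 2) := by gcongr
        _ = _ := h3
        _ ≤ ‖x‖ ^ 3 * 9.621 := by gcongr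
    nlinarith [pow_nonneg hX 3]
  -- logs
  have y1 : ‖x ^ 3‖ ≤ 1 / 100 := by
    rw [norm_pow]
    calc ‖x‖ ^ 3 ≤ (1 / 10) ^ 3 := by gcongr
      _ ≤ 1 / 100 := by norm_num
  have y2 : ‖-x ^ 2‖ ≤ 1 / 100 := by
    rw [norm_neg, norm_pow]
    calc ‖x‖ ^ 2 ≤ (1 / 10) ^ 2 := by gcongr
      _ ≤ 1 / 100 := by norm_num
  have x6 : ‖x‖ ^ 6 ≤ 1 / 1000 * ‖x‖ ^ 3 := by
    calc ‖x‖ ^ 6 = ‖x‖ ^ 3 * ‖x‖ ^ 3 := by ring
      _ ≤ (1 / 10) ^ 3 * ‖x‖ ^ 3 := by gcongr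
      _ = _ := by norm_num
  have l1 : ‖log (1 + x ^ 3) - x ^ 3‖ ≤ 1 / 1000 * ‖x‖ ^ 3 := by
    refine (log_sub_le (by linarith)).trans ?_
    rw [norm_pow]
    calc (‖x‖ ^ 3) ^ 2 = ‖x‖ ^ 6 := by ring
      _ ≤ _ := x6
  have l2 : ‖log (1 + -x ^ 2) - (-x ^ 2 - x ^ 4 / 2)‖ ≤ 1 / 1000 * ‖x‖ ^ 3 := by
    have h3 := norm_log_sub_logTaylor_le 2 (z := -x ^ 2) (by linarith)
    have h4 : logTaylor (2 + 1) (-x ^ 2) = -x ^ 2 - x ^ 4 / 2 := by
      rw [logTaylor_succ, logTaylor_succ, logTaylor_succ, logTaylor_zero]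
      simp only [Pi.add_apply]
      norm_num
      ring
    rw [h4] at h3
    refine h3.trans ?_
    have h5 : (1 - ‖-x ^ 2‖)⁻¹ ≤ 2 := by
      rw [inv_le_comm₀ (by linarith) (by norm_num)]
      linarith
    calc ‖-x ^ 2‖ ^ (2 + 1) * (1 - ‖-x ^ 2‖)⁻¹ / ((2 : ℕ) + 1)
        ≤ ‖-x ^ 2‖ ^ (2 + 1) * 2 / ((2 : ℕ) + 1) := by gcongr
      _ = 2 / 3 * ‖x‖ ^ 6 := by rw [norm_neg, norm_pow]; push_cast; ring
      _ ≤ ‖x‖ ^ 6 := by nlinarith [pow_nonneg hX 6]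
      _ ≤ _ := x6
  have e : ee x = E + 11 / 8 * ((log (1 + x ^ 3) - x ^ 3)
      - 2 * (log (1 + -x ^ 2) - (-x ^ 2 - x ^ 4 / 2))) := by
    unfold ee
    rw [hE]; ring
  rw [e]
  calc _ ≤ ‖E‖ + ‖11 / 8 * ((log (1 + x ^ 3) - x ^ 3)
      - 2 * (log (1 + -x ^ 2) - (-x ^ 2 - x ^ 4 / 2)))‖ := norm_add_le _ _
    _ ≤ ‖E‖ + 11 / 8 * (‖log (1 + x ^ 3) - x ^ 3‖
        + 2 * ‖log (1 + -x ^ 2) - (-x ^ 2 - x ^ 4 / 2)‖) := by
        rw [norm_mul]
        have : ‖(11 / 8 : ℂ)‖ = 11 / 8 := by norm_num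
        rw [this]
        gcongr
        refine (norm_sub_le _ _).trans ?_
        rw [norm_mul]
        simp
    _ ≤ 1.4848 * ‖x‖ ^ 3 + 11 / 8 * (1 / 1000 * ‖x‖ ^ 3 + 2 * (1 / 1000 * ‖x‖ ^ 3)) := by gcongr
    _ ≤ 3 / 2 * ‖x‖ ^ 3 := by
        have := pow_nonneg hX 3
        linarith

lemma er_norm {x t : ℂ} (h : ER x t) (ht : 60 ≤ t.re) (hx : ‖x‖ ≤ 1 / 5) :
    ‖x‖ ≤ 1 / 10 ∧ ‖x‖ ^ 2 ≤ 0.55 / t.re := by
  unfold ER at h
  have h1 := congrArg norm h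
  rw [norm_mul, norm_mul, norm_pow, norm_neg] at h1
  simp only [Complex.norm_ofNat] at h1
  have h2 : t.re ≤ ‖t‖ := (le_abs_self _).trans (abs_re_le_norm _)
  have h3 : ‖1 + x‖ ≤ 1 + ‖x‖ := by
    have := norm_add_le (1 : ℂ) x
    rwa [norm_one] at this
  have hX := norm_nonneg x
  have h4 : 2 * t.re * ‖x‖ ^ 2 ≤ 1 + ‖x‖ := by
    calc 2 * t.re * ‖x‖ ^ 2 ≤ 2 * ‖t‖ * ‖x‖ ^ 2 := by gcongr
      _ = _ := h1
      _ ≤ _ := h3
  have h5 : ‖x‖ ≤ 1 / 10 := by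
    have h6 : 120 * ‖x‖ ^ 2 ≤ 2 * t.re * ‖x‖ ^ 2 := by gcongr; linarith
    nlinarith
  refine ⟨h5, ?_⟩
  rw [le_div_iff₀ (by linarith)]
  linarith

lemma re_step {x t : ℂ} (hx : ‖x‖ ^ 2 ≤ 0.55 / 60) :
    0.81 ≤ t.re - (stepU x t).re ∧ t.re - (stepU x t).re ≤ 1.19 := by
  have hX := norm_nonneg x
  have hx1 : ‖x‖ ≤ 0.09575 := by
    norm_num at hx ⊢
    nlinarith
  have h1 := one_sub_ne (x := x) (by norm_num at hx1 ⊢; linarith)
  have h9 : 0.90425 ≤ ‖1 - x‖ := by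
    have h := norm_sub_norm_le (1 : ℂ) x
    rw [norm_one] at h
    norm_num at hx1 ⊢
    linarith
  have e : (2 - x) / (2 * (1 - x) ^ 2) - 1 = x * (3 - 2 * x) / (2 * (1 - x) ^ 2) := by
    field_simp
    ring
  have hpos : 0 < ‖1 - x‖ := by norm_num at h9; linarith
  have h2 : ‖(2 - x) / (2 * (1 - x) ^ 2) - 1‖ ≤ 0.19 := by
    rw [e, norm_div, norm_mul, norm_mul, norm_pow,
      div_le_iff₀ (mul_pos (by simp) (pow_pos hpos 2))]
    simp only [Complex.norm_ofNat]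
    have h3 : ‖3 - 2 * x‖ ≤ 3 + 2 * 0.09575 := by
      refine (norm_sub_le _ _).trans ?_
      rw [norm_mul]
      simp only [Complex.norm_ofNat]
      gcongr
    calc ‖x‖ * ‖3 - 2 * x‖ ≤ 0.09575 * (3 + 2 * 0.09575) := by gcongr
      _ ≤ 0.19 * (2 * 0.90425 ^ 2) := by norm_num
      _ ≤ _ := by gcongr
  have h3 := (abs_re_le_norm _).trans h2
  have e2 : t.re - (stepU x t).re = ((2 - x) / (2 * (1 - x) ^ 2) - 1).re + 1 := by
    unfold stepU
    rw [sub_re, sub_re, one_re]; ring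
  rw [e2]
  rw [abs_le] at h3
  norm_num at h3 ⊢
  constructor <;> linarith [h3.1, h3.2]

lemma sqrt_step {s s' X : ℝ} (hs : 60 ≤ s') (hss : s' ≤ s - 0.81) (hX0 : 0 ≤ X)
    (hX : X ^ 2 ≤ 0.55 / s) : 3 / 2 * X ^ 3 ≤ 1.52 * (1 / √s' - 1 / √s) := by
  have h0 : 0 < s' := by linarith
  have h0' : 0 < s := by norm_num at hss; linarith
  have a0 : 0 < √s' := Real.sqrt_pos.mpr h0
  have b0 : 0 < √s := Real.sqrt_pos.mpr h0'
  have a2 : √s' ^ 2 = s' := Real.sq_sqrt h0.le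
  have b2 : √s ^ 2 = s := Real.sq_sqrt h0'.le
  have hab : √s' ≤ √s := Real.sqrt_le_sqrt (by norm_num at hss; linarith)
  have hX1 : X ≤ 0.742 / √s := by
    rw [le_div_iff₀ b0]
    have h1 : (X * √s) ^ 2 ≤ 0.55 := by
      rw [mul_pow, b2]
      rwa [le_div_iff₀ h0'] at hX
    norm_num at h1 ⊢
    nlinarith [mul_nonneg hX0 b0.le]
  have hX3 : X ^ 3 ≤ 0.4082 / (s * √s) := by
    calc X ^ 3 = X ^ 2 * X := by ring
      _ ≤ 0.55 / s * (0.742 / √s) := by gcongr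
      _ = 0.4081 / (s * √s) := by field_simp; norm_num
      _ ≤ 0.4082 / (s * √s) := by gcongr; norm_num
  have e : 1 / √s' - 1 / √s = (s - s') / (√s' * √s * (√s' + √s)) := by
    rw [div_sub_div _ _ a0.ne' b0.ne', div_eq_div_iff (by positivity) (by positivity)]
    have h3 : (√s - √s') * (√s' + √s) = s - s' := by
      linear_combination b2 - a2
    linear_combination (√s' * √s) * h3
  have h4 : 0.405 / (s * √s) ≤ 1 / √s' - 1 / √s := by
    rw [e]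
    have hmul : √s * √s = s := Real.mul_self_sqrt h0'.le
    have hd : 0.81 ≤ s - s' := by linarith
    calc 0.405 / (s * √s) = 0.81 / (√s * √s * (√s + √s)) := by
          rw [div_eq_div_iff (by positivity) (by positivity), hmul]
          ring
      _ ≤ (s - s') / (√s' * √s * (√s' + √s)) := by
          gcongr
  calc 3 / 2 * X ^ 3 ≤ 3 / 2 * (0.4082 / (s * √s)) := by gcongr
    _ = 0.6123 / (s * √s) := by ring
    _ ≤ 1.52 * (0.405 / (s * √s)) := by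
        rw [← mul_div_assoc]
        gcongr
        norm_num
    _ ≤ _ := by gcongr

lemma norm_gx_le {x : ℂ} (hx : ‖x‖ ≤ 1 / 10) : ‖gx x‖ ≤ 1 / 5 := by
  unfold gx
  have e : x ^ 2 - x = x * (x - 1) := by ring
  rw [e, norm_mul]
  have : ‖x - 1‖ ≤ 11 / 10 := by
    refine (norm_sub_le _ _).trans ?_
    rw [norm_one]; linarith
  calc ‖x‖ * ‖x - 1‖ ≤ 1 / 10 * (11 / 10) := by gcongr
    _ ≤ 1 / 5 := by norm_num

structure ExInv (τ R : ℝ) (x t : ℂ) (n : ℕ) : Prop where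
  er : ER x t
  re : 60 ≤ t.re
  xs : ‖x‖ ≤ 1 / 10
  im : |(VV x t).im| ≤ τ + 1.52 / √t.re
  dec : t.re ≤ R - 0.81 * n

lemma ex_step {τ R : ℝ} {x t : ℂ} {n : ℕ} (h : ExInv τ R x t n) (h2 : 61.2 < t.re) :
    ExInv τ R (gx x) (stepU x t) (n + 1) := by
  obtain ⟨her, hre, hxs, him, hdec⟩ := h
  norm_num at h2
  have hx2 := (er_norm her hre (by linarith)).2
  have hx60 : ‖x‖ ^ 2 ≤ 0.55 / 60 := hx2.trans (by gcongr)
  obtain ⟨r1, r2⟩ := re_step (t := t) hx60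
  have her' := er_step hxs her
  have hre' : 60 ≤ (stepU x t).re := by norm_num at r2; linarith
  have hxs' := (er_norm her' hre' (norm_gx_le hxs)).1
  refine ⟨her', hre', hxs', ?_, ?_⟩
  · rw [VV_step hxs her (by linarith)]
    have h3 := sqrt_step (s := t.re) (s' := (stepU x t).re) hre' (by norm_num at r1 ⊢; linarith)
      (norm_nonneg x) hx2
    have h4 := (abs_im_le_norm (ee x)).trans (ee_bound hxs)
    have e : (VV x t - 1 + ee x).im = (VV x t).im + (ee x).im := by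
      simp [sub_im, add_im]
    rw [e]
    refine (abs_add_le _ _).trans ?_
    have e2 : (1.52 : ℝ) * (1 / √(stepU x t).re - 1 / √t.re)
        = 1.52 / √(stepU x t).re - 1.52 / √t.re := by ring
    rw [e2] at h3
    linarith
  · push_cast
    norm_num at r1 hdec ⊢
    linarith

lemma exists_exit {τ : ℝ} {x t : ℂ} (her : ER x t) (hre : 60 ≤ t.re) (hx : ‖x‖ ≤ 1 / 10)
    (him : |(VV x t).im| ≤ τ) :
    ∃ (n : ℕ) (s : ℂ), ER (gx^[n] x) s ∧ 60 ≤ s.re ∧ s.re ≤ 61.2 ∧ ‖gx^[n] x‖ ≤ 1 / 10 ∧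
      |(VV (gx^[n] x) s).im| ≤ τ + 0.1963 := by
  by_contra hcon
  push Not at hcon
  have key : ∀ n : ℕ, ∃ s, ExInv τ t.re (gx^[n] x) s n := by
    intro n
    induction n with
    | zero =>
      refine ⟨t, her, hre, hx, ?_, by simp⟩
      refine him.trans ?_
      have : (0 : ℝ) ≤ 1.52 / √t.re := by positivity
      simpa using this
    | succ n ih =>
      obtain ⟨s, hs⟩ := ih
      have h1 : 61.2 < s.re := by
        by_contra h2
        push Not at h2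
        have h3 := hcon n s hs.er hs.re h2 hs.xs
        have h4 := hs.im
        have h5 : 1.52 / √s.re ≤ 0.1963 := by
          have h60 : 7.744 ≤ √s.re := by
            apply Real.le_sqrt_of_sq_le
            have := hs.re
            norm_num; linarith
          rw [div_le_iff₀ (by linarith)]
          calc (1.52 : ℝ) ≤ 0.1963 * 7.744 := by norm_num
            _ ≤ _ := by gcongr
        linarith
      refine ⟨stepU (gx^[n] x) s, ?_⟩
      rw [Function.iterate_succ_apply']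
      exact ex_step hs h1
  obtain ⟨n, hn⟩ := exists_nat_gt ((t.re - 60) / 0.81)
  obtain ⟨s, hs⟩ := key n
  have h1 := hs.dec
  have h2 := hs.re
  rw [div_lt_iff₀ (by norm_num)] at hn
  linarith

lemma im_le_of {t : ℂ} : |t.im| ≤ |t.im + 11 / 8 * arg t| := by
  rcases le_or_gt 0 t.im with h | h
  · have h1 := arg_nonneg_iff.mpr h
    rw [abs_of_nonneg h]
    exact le_trans (by linarith) (le_abs_self _)
  · have h1 := arg_neg_iff.mpr h
    rw [abs_of_neg h]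
    exact le_trans (by linarith) (neg_le_abs _)

lemma VV_im (x t : ℂ) : (VV x t).im = t.im + 11 / 8 * arg t - 3 / 4 * x.im := by
  unfold VV
  have e1 : (11 / 8 : ℂ) * log t = ((11 / 8 : ℝ) : ℂ) * log t := by push_cast; ring
  have e2 : (3 / 4 : ℂ) * x = ((3 / 4 : ℝ) : ℂ) * x := by push_cast; ring
  rw [e1, e2, sub_im, add_im, im_ofReal_mul, im_ofReal_mul, log_im]

lemma box_pos {x t : ℂ} (her : ER x t) (hr1 : 60 ≤ t.re) (hr2 : t.re ≤ 61.2)
    (hx : ‖x‖ ≤ 1 / 10) (hs : |t.im| ≤ 1.4523) (hb : 0 < x.im) :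
    -0.00534 ≤ x.re ∧ x.re ≤ -0.00293 ∧ 0.0900 ≤ x.im ∧ x.im ≤ 0.09146 := by
  have h0 := (er_norm her hr1 (by linarith)).2
  have h0' : x.re ^ 2 + x.im ^ 2 ≤ 0.55 / 60 := by
    have e : x.re ^ 2 + x.im ^ 2 = ‖x‖ ^ 2 := by
      rw [← normSq_eq_norm_sq, normSq_apply]; ring
    rw [e]
    exact h0.trans (by gcongr)
  unfold ER at her
  have hre := congrArg re her
  have him := congrArg im her
  simp only [pow_two, mul_re, mul_im, neg_re, neg_im, re_ofNat, im_ofNat, add_re, add_im, one_re,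
    one_im] at hre him
  apply box_real (r := t.re) (s := t.im) hb h0' hr1 hr2 hs
  · linear_combination hre
  · linear_combination him

lemma conj_iter (x : ℂ) (n : ℕ) : gx^[n] (starRingEnd ℂ x) = starRingEnd ℂ (gx^[n] x) := by
  induction n with
  | zero => rfl
  | succ n ih =>
    rw [Function.iterate_succ_apply', Function.iterate_succ_apply', ih]
    simp [gx]

/-- main lemma of this file -/
lemma escape_channel {x t : ℂ} (her : ER x t) (hre : 60 ≤ t.re) (hx : ‖x‖ ≤ 1 / 10)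
    (him : |(VV x t).im| ≤ 1.18) : ∃ n, 3 < ‖gx^[n] x‖ := by
  obtain ⟨n, s, h1, h2, h3, h4, h5⟩ := exists_exit her hre hx him
  set y := gx^[n] x with hy
  have hyn := (er_norm h1 h2 (by linarith)).2
  have hyn2 : ‖y‖ ≤ 0.09575 := by
    have h6 : ‖y‖ ^ 2 ≤ 0.55 / 60 := hyn.trans (by gcongr)
    have := norm_nonneg y
    norm_num at h6 ⊢
    nlinarith
  have hs : |s.im| ≤ 1.4523 := by
    refine im_le_of.trans ?_
    have e : s.im + 11 / 8 * arg s = (VV y s).im + 3 / 4 * y.im := by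
      rw [VV_im]; ring
    rw [e]
    refine (abs_add_le _ _).trans ?_
    rw [abs_mul]
    have := (abs_im_le_norm y).trans hyn2
    have e3 : |(3 / 4 : ℝ)| = 3 / 4 := by norm_num
    rw [e3]
    norm_num at h5 this ⊢
    linarith
  rcases lt_trichotomy y.im 0 with hb | hb | hb
  · -- conjugate
    have her' : ER (starRingEnd ℂ y) (starRingEnd ℂ s) := by
      unfold ER at h1 ⊢
      have := congrArg (starRingEnd ℂ) h1
      simpa [map_ofNat] using this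
    have hbox := box_pos her' (by simpa using h2) (by simpa using h3) (by simpa using h4)
      (by simpa using hs) (by simpa using hb)
    obtain ⟨k, hk⟩ := box_escape hbox.1 hbox.2.1 hbox.2.2.1 hbox.2.2.2
    obtain ⟨m, hm⟩ := unbounded_of hk 3
    refine ⟨m + n, ?_⟩
    rw [Function.iterate_add_apply, ← hy]
    rw [conj_iter, norm_conj] at hm
    exact hm
  · exfalso
    unfold ER at h1
    have hre := congrArg re h1
    simp only [pow_two, mul_re, mul_im, neg_re, neg_im, re_ofNat, im_ofNat, add_re,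
      one_re, hb] at hre
    have h7 := abs_le.mp ((abs_re_le_norm y).trans h4)
    nlinarith [h7.1, h7.2, mul_nonneg (show (0 : ℝ) ≤ s.re by linarith) (mul_self_nonneg y.re)]
  · have hbox := box_pos h1 h2 h3 h4 hs hb
    obtain ⟨k, hk⟩ := box_escape hbox.1 hbox.2.1 hbox.2.2.1 hbox.2.2.2
    obtain ⟨m, hm⟩ := unbounded_of hk 3
    refine ⟨m + n, ?_⟩
    rw [Function.iterate_add_apply, ← hy]
    exact hm

end MPc6f924
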