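import Mathlib
import Pool.Prelude.Def_F_c31e40fa

/-!
# The Mandelbrot set: escape criterion and an affine coordinate near `c = -3/4`
-/

open Filter Topology Bornology

namespace MPc6f924

open N62a1eb23

/-- critical orbit of `z ↦ z^2 + c`. -/
noncomputable def crit (c : ℂ) (n : ℕ) : ℂ := (fun z : ℂ => z ^ 2 + c)^[n] 0

@[simp] lemma crit_zero (c : ℂ) : crit c 0 = 0 := rfl

lemma crit_succ (c : ℂ) (n : ℕ) : crit c (n + 1) = crit c n ^ 2 + c := by
  simp [crit, Function.iterate_succ_apply']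

lemma norm_step {z c : ℂ} (h : ‖c‖ ≤ ‖z‖) : ‖z‖ * (‖z‖ - 1) ≤ ‖z ^ 2 + c‖ := by
  have h1 : ‖z ^ 2‖ - ‖c‖ ≤ ‖z ^ 2 + c‖ := by
    have := norm_sub_norm_le (z ^ 2) (-c)
    simpa [sub_neg_eq_add] using this
  rw [norm_pow] at h1
  nlinarith

lemma escape_of_norm {c : ℂ} {k : ℕ} (h2 : 2 < ‖crit c k‖) (hc : ‖c‖ ≤ ‖crit c k‖) :
    Tendsto (fun n => crit c n) atTop (cobounded ℂ) := by
  set r := ‖crit c k‖ with hr
  have key : ∀ n : ℕ, r * (r - 1) ^ n ≤ ‖crit c (k + n)‖ := by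
    intro n
    induction n with
    | zero => simp [hr]
    | succ n ih =>
      have h1 : (1 : ℝ) ≤ (r - 1) ^ n := one_le_pow₀ (by linarith)
      have h2' : r ≤ ‖crit c (k + n)‖ := by nlinarith
      have h3 := norm_step (hc.trans h2')
      rw [← add_assoc, crit_succ]
      refine le_trans ?_ h3
      rw [pow_succ, ← mul_assoc]
      apply mul_le_mul ih (by linarith) (by linarith) (by positivity)
  have h3 : Tendsto (fun n : ℕ => r * (r - 1) ^ n) atTop atTop :=
    (tendsto_pow_atTop_atTop_of_one_lt (by linarith)).const_mul_atTop (by linarith)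
  have h4 : Tendsto (fun n => ‖crit c (k + n)‖) atTop atTop := tendsto_atTop_mono key h3
  have h5 : Tendsto (fun n => ‖crit c n‖) atTop atTop := by
    rw [← tendsto_add_atTop_iff_nat k]
    simpa [add_comm] using h4
  rwa [← tendsto_norm_atTop_iff_cobounded]

lemma mem_iff_not_tendsto (c : ℂ) :
    c ∈ mandelbrotSet ↔ ¬ Tendsto (fun n => crit c n) atTop (cobounded ℂ) := Iff.rfl

/-- Escape criterion, one direction. -/
lemma norm_crit_le_two {c : ℂ} (h : c ∈ mandelbrotSet) (k : ℕ) : ‖crit c k‖ ≤ 2 := by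
  rw [mem_iff_not_tendsto] at h
  have hc : ‖c‖ ≤ 2 := by
    by_contra h2
    push Not at h2
    apply h
    have h1 : crit c 1 = c := by rw [crit_succ]; simp
    exact escape_of_norm (k := 1) (by rw [h1]; exact h2) (by rw [h1])
  by_contra h2
  push Not at h2
  exact h (escape_of_norm h2 (hc.trans h2.le))

lemma mem_of_bounded {c : ℂ} {B : ℝ} (h : ∀ k, ‖crit c k‖ ≤ B) : c ∈ mandelbrotSet := by
  rw [mem_iff_not_tendsto]
  intro ht
  have h1 := tendsto_norm_atTop_iff_cobounded.mpr ht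
  obtain ⟨k, hk⟩ := (h1.eventually_gt_atTop B).exists
  exact absurd (h k) (not_le.mpr hk)

/-- `x`-coordinate: `x = z + 1/2 - q/2` with `c = -3/4 + (q - q^2/4)`, `β = 1 - q`;
the map becomes `x ↦ x^2 - β x`. -/
noncomputable def xorb (q : ℂ) : ℕ → ℂ
  | 0 => (1 - q) / 2
  | n + 1 => xorb q n ^ 2 - (1 - q) * xorb q n

lemma crit_eq_xorb (q : ℂ) (n : ℕ) :
    crit (-3 / 4 + (q - q ^ 2 / 4)) n = xorb q n - 1 / 2 + q / 2 := by
  induction n with
  | zero => simp [xorb]; ring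
  | succ n ih =>
    rw [crit_succ, ih, xorb]
    ring

end MPc6f924
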