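import Mathlib

/-!
# Size facts in the gate
-/

namespace MPc6f924

open Complex

lemma abs_sinh_le {x : ℝ} (hx : |x| ≤ 1) : |Real.sinh x| ≤ 2 * |x| := by
  have h1 := Real.abs_exp_sub_one_sub_id_le hx
  have h2 := Real.abs_exp_sub_one_sub_id_le (x := -x) (by rwa [abs_neg])
  have h3 : |x| ^ 2 = x ^ 2 := sq_abs x
  rw [Real.sinh_eq]
  rw [abs_le] at h1 h2 ⊢
  have h4 : x ^ 2 ≤ |x| := by
    rw [← h3]; nlinarith [abs_nonneg x]
  constructor
  · have := neg_abs_le x
    nlinarith [h1.1, h1.2, h2.1, h2.2]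
  · have := le_abs_self x
    nlinarith [h1.1, h1.2, h2.1, h2.2]

structure Gate (N t : ℂ) (s m : ℝ) : Prop where
  re_lo : m / (2 * N.re) ≤ (t / N).re
  re_hi : (t / N).re ≤ 1 - m / (2 * N.re)
  re_up : (t / N).re ≤ 14 / 10 * m / N.re ∨ 1 - (t / N).re ≤ 14 / 10 * m / N.re
  im_le : |(t / N).im| ≤ 31 / 100 * m / N.re

lemma gate_of {N t : ℂ} {s T : ℝ} (hT : 1000 ≤ T) (hA : 2000 ≤ N.re) (hν : |N.im| ≤ 13 / 2)
    (hm : T ≤ min s (N.re - s))
    (ht : ‖t - s‖ ≤ 3 / 10 * min s (N.re - s)) :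
    Gate N t s (min s (N.re - s)) := by
  set m := min s (N.re - s) with hmdef
  set A := N.re with hAdef
  set ν := N.im with hνdef
  have hApos : 0 < A := by linarith
  have hms : m ≤ s := min_le_left _ _
  have hmA : m ≤ A - s := min_le_right _ _
  have hre : |t.re - s| ≤ 3 / 10 * m := by
    have := (abs_re_le_norm (t - s)).trans ht
    simpa using this
  have him : |t.im| ≤ 3 / 10 * m := by
    have := (abs_im_le_norm (t - s)).trans ht
    simpa using this
  rw [abs_le] at hre him hν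
  have hD : normSq N = A ^ 2 + ν ^ 2 := by rw [normSq_apply]; ring
  have hDpos : 0 < A ^ 2 + ν ^ 2 := by positivity
  have ha : (t / N).re = (t.re * A + t.im * ν) / (A ^ 2 + ν ^ 2) := by
    rw [div_re, hD]; ring
  have hb : (t / N).im = (t.im * A - t.re * ν) / (A ^ 2 + ν ^ 2) := by
    rw [div_im, hD]; ring
  have hν2 : ν ^ 2 ≤ 43 := by nlinarith [hν.1, hν.2]
  have hν0 : 0 ≤ ν ^ 2 := sq_nonneg _
  have hmpos : 0 < m := by linarith
  have ti : |t.im * ν| ≤ 39 / 20 * m := by
    rw [abs_mul]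
    have e1 : |t.im| ≤ 3 / 10 * m := abs_le.mpr him
    have e2 : |ν| ≤ 13 / 2 := abs_le.mpr hν
    calc |t.im| * |ν| ≤ (3 / 10 * m) * (13 / 2) := by gcongr
      _ = _ := by ring
  rw [abs_le] at ti
  have hA2 : 2 * m ≤ A := by linarith
  refine ⟨?_, ?_, ?_, ?_⟩
  · rw [ha, div_le_div_iff₀ (by positivity) hDpos]
    have e1 : 7 / 10 * m ≤ t.re := by linarith [hre.1]
    have e2 : 7 / 10 * m * A ≤ t.re * A := by gcongr
    nlinarith [ti.1, mul_pos hmpos hApos, mul_nonneg hmpos.le hν0]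
  · rw [ha, div_le_iff₀ hDpos]
    have e1 : 7 / 10 * m ≤ A - t.re := by linarith [hre.2]
    have e2 : 7 / 10 * m * A ≤ (A - t.re) * A := by gcongr
    have e3 : m / (2 * A) * (A ^ 2 + ν ^ 2) ≤ m * A / 2 + m * 43 / (2 * A) := by
      have : m / (2 * A) * (A ^ 2 + ν ^ 2) = m * A / 2 + m * ν ^ 2 / (2 * A) := by
        field_simp
      rw [this]
      gcongr
    have e4 : m * 43 / (2 * A) ≤ m * A / 100 := by
      rw [div_le_div_iff₀ (by positivity) (by norm_num)]
      nlinarith [mul_pos hmpos hApos, mul_pos hmpos (mul_pos hApos hApos)]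
    have e5 : 39 / 20 * m ≤ m * A / 100 := by nlinarith
    nlinarith [ti.2]
  · rcases le_total s (A - s) with h | h
    · left
      have hms' : m = s := by rw [hmdef]; exact min_eq_left h
      rw [ha, div_le_div_iff₀ hDpos hApos]
      have e1 : t.re ≤ 13 / 10 * m := by linarith [hre.2]
      have e2 : t.re * A ≤ 13 / 10 * m * A := by gcongr
      have e3 : (t.re * A + t.im * ν) * A ≤ (13 / 10 * m * A + 39 / 20 * m) * A :=
        mul_le_mul_of_nonneg_right (by linarith [ti.2]) hApos.le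
      have e4 : 14 / 10 * m * A ^ 2 ≤ 14 / 10 * m * (A ^ 2 + ν ^ 2) := by
        gcongr; linarith
      nlinarith [mul_pos hmpos hApos]
    · right
      have hms' : m = A - s := by rw [hmdef]; exact min_eq_right h
      have e0 : 1 - (t / N).re = ((A - t.re) * A + ν ^ 2 - t.im * ν) / (A ^ 2 + ν ^ 2) := by
        rw [ha]; field_simp; ring
      rw [e0, div_le_div_iff₀ hDpos hApos]
      have e1 : A - t.re ≤ 13 / 10 * m := by linarith [hre.1]
      have e2 : (A - t.re) * A ≤ 13 / 10 * m * A := by gcongr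
      have e3 : ((A - t.re) * A + ν ^ 2 - t.im * ν) * A
          ≤ (13 / 10 * m * A + 43 + 39 / 20 * m) * A :=
        mul_le_mul_of_nonneg_right (by linarith [ti.1]) hApos.le
      have e4 : 14 / 10 * m * A ^ 2 ≤ 14 / 10 * m * (A ^ 2 + ν ^ 2) := by
        gcongr; linarith
      nlinarith [mul_pos hmpos hApos]
  · rw [hb, abs_div, abs_of_pos hDpos, div_le_div_iff₀ hDpos hApos]
    have e1 : |t.im * A - t.re * ν| ≤ 3 / 10 * m * A + 13 / 2 * (13 / 10 * A) := by
      have f1 : |t.im * A| ≤ 3 / 10 * m * A := by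
        rw [abs_mul, abs_of_pos hApos]
        gcongr
        exact abs_le.mpr him
      have f2 : |t.re * ν| ≤ 13 / 10 * A * (13 / 2) := by
        rw [abs_mul]
        have g1 : |t.re| ≤ 13 / 10 * A := by
          rw [abs_le]
          constructor
          · linarith [hre.1]
          · linarith [hre.2]
        have g2 : |ν| ≤ 13 / 2 := abs_le.mpr hν
        gcongr
      calc _ ≤ |t.im * A| + |t.re * ν| := abs_sub _ _
        _ ≤ _ := by linarith
    calc |t.im * A - t.re * ν| * A ≤ (3 / 10 * m * A + 13 / 2 * (13 / 10 * A)) * A := by gcongr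
      _ ≤ 31 / 100 * m * A ^ 2 := by nlinarith [mul_pos hApos hApos]
      _ ≤ 31 / 100 * m * (A ^ 2 + ν ^ 2) := by gcongr; linarith

/-- normalised sine. -/
noncomputable def SS (N t : ℂ) : ℂ := N / Real.pi * sin (Real.pi * (t / N))

lemma sin_lo {a r : ℝ} (h1 : r / 2 ≤ a) (h2 : a ≤ 1 - r / 2) (hr : 0 ≤ r) :
    r ≤ Real.sin (Real.pi * a) := by
  have hpi := Real.pi_pos
  rcases le_total a (1 / 2) with h | h
  · have := Real.mul_le_sin (x := Real.pi * a) (by nlinarith) (by nlinarith)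
    have e : 2 / Real.pi * (Real.pi * a) = 2 * a := by field_simp
    rw [e] at this
    linarith
  · have := Real.mul_le_sin (x := Real.pi * (1 - a)) (by nlinarith) (by nlinarith)
    have e : 2 / Real.pi * (Real.pi * (1 - a)) = 2 * (1 - a) := by field_simp
    rw [e] at this
    have e2 : Real.sin (Real.pi * (1 - a)) = Real.sin (Real.pi * a) := by
      rw [show Real.pi * (1 - a) = Real.pi - Real.pi * a by ring, Real.sin_pi_sub]
    rw [e2] at this
    linarith

lemma sin_up {a r : ℝ} (h0 : 0 ≤ a) (h1 : a ≤ 1) (h : a ≤ r ∨ 1 - a ≤ r) :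
    Real.sin (Real.pi * a) ≤ Real.pi * r := by
  have hpi := Real.pi_pos
  rcases h with h | h
  · calc Real.sin (Real.pi * a) ≤ Real.pi * a := Real.sin_le (by positivity)
      _ ≤ _ := by gcongr
  · have e2 : Real.sin (Real.pi * a) = Real.sin (Real.pi * (1 - a)) := by
      rw [show Real.pi * (1 - a) = Real.pi - Real.pi * a by ring, Real.sin_pi_sub]
    rw [e2]
    calc Real.sin (Real.pi * (1 - a)) ≤ Real.pi * (1 - a) := Real.sin_le (by nlinarith)
      _ ≤ _ := by gcongr

lemma sin_re (z : ℂ) : (sin z).re = Real.sin z.re * Real.cosh z.im := by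
  rw [sin_eq z, ← ofReal_sin, ← ofReal_cosh, ← ofReal_cos, ← ofReal_sinh]
  simp only [add_re, mul_re, mul_im, ofReal_re, ofReal_im, I_re, I_im]
  ring

lemma sin_im (z : ℂ) : (sin z).im = Real.cos z.re * Real.sinh z.im := by
  rw [sin_eq z, ← ofReal_sin, ← ofReal_cosh, ← ofReal_cos, ← ofReal_sinh]
  simp only [add_im, mul_re, mul_im, ofReal_re, ofReal_im, I_re, I_im]
  ring

lemma sin_facts {N t : ℂ} {s m : ℝ} (hG : Gate N t s m) (hm : 1000 ≤ m) (hA : 2 * m ≤ N.re) :
    m / N.re ≤ (sin (Real.pi * (t / N))).re ∧ |(sin (Real.pi * (t / N))).im| ≤ 2 * m / N.re ∧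
    ‖sin (Real.pi * (t / N))‖ ≤ 9 * m / N.re ∧
    1 / 2 ≤ ‖exp (I * (Real.pi * (t / N)))‖ := by
  obtain ⟨h1, h2, h3, h4⟩ := hG
  set A := N.re
  have hApos : 0 < A := by linarith
  have hpi := Real.pi_pos
  have hpi1 := Real.pi_gt_three
  have hpi2 : Real.pi < 3.1416 := Real.pi_lt_d4
  have hmA : m / A ≤ 1 / 2 := by rw [div_le_iff₀ hApos]; linarith
  have hmA0 : 0 < m / A := by positivity
  set w := t / N with hw
  set a := w.re
  set b := w.im
  have hb : |b| ≤ 31 / 100 * (m / A) := by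
    have : 31 / 100 * m / A = 31 / 100 * (m / A) := by ring
    rw [← this]; exact h4
  have hb2 : |Real.pi * b| ≤ 1 / 2 := by
    rw [abs_mul, abs_of_pos hpi]
    calc Real.pi * |b| ≤ 3.1416 * (31 / 100 * (1 / 2)) := by
          gcongr
          exact hb.trans (by gcongr)
      _ ≤ 1 / 2 := by norm_num
  have ha1 : m / A / 2 ≤ a := by
    have : m / (2 * A) = m / A / 2 := by field_simp
    rw [← this]; exact h1
  have ha2 : a ≤ 1 - m / A / 2 := by
    have : m / (2 * A) = m / A / 2 := by field_simp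
    rw [← this]; exact h2
  have hsin := sin_lo ha1 ha2 hmA0.le
  have hre : ((Real.pi : ℂ) * w).re = Real.pi * a := by simp [a]
  have him : ((Real.pi : ℂ) * w).im = Real.pi * b := by simp [b]
  have hsr : (sin ((Real.pi : ℂ) * w)).re = Real.sin (Real.pi * a) * Real.cosh (Real.pi * b) := by
    rw [sin_re, hre, him]
  have hsi : (sin ((Real.pi : ℂ) * w)).im = Real.cos (Real.pi * a) * Real.sinh (Real.pi * b) := by
    rw [sin_im, hre, him]
  have hcosh1 : 1 ≤ Real.cosh (Real.pi * b) := Real.one_le_cosh _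
  have hcosh2 : Real.cosh (Real.pi * b) ≤ 3 / 2 := by
    have := Real.cosh_le_exp_half_sq (Real.pi * b)
    have h5 : (Real.pi * b) ^ 2 / 2 ≤ 1 / 8 := by
      have : (Real.pi * b) ^ 2 ≤ (1 / 2) ^ 2 := by
        rw [← sq_abs (Real.pi * b)]
        gcongr
      linarith
    have h6 := Real.abs_exp_sub_one_sub_id_le (x := 1 / 8) (by norm_num)
    rw [abs_le] at h6
    have h7 : Real.exp ((Real.pi * b) ^ 2 / 2) ≤ Real.exp (1 / 8) := Real.exp_le_exp.mpr h5
    linarith [h6.2]
  have hr : m / A ≤ (sin ((Real.pi : ℂ) * w)).re := by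
    rw [hsr]
    nlinarith
  have hi : |(sin ((Real.pi : ℂ) * w)).im| ≤ 2 * m / A := by
    rw [hsi, abs_mul]
    have e1 : |Real.cos (Real.pi * a)| ≤ 1 := Real.abs_cos_le_one _
    have e2 := abs_sinh_le (x := Real.pi * b) (by linarith)
    have e3 : |Real.pi * b| ≤ 3.1416 * (31 / 100 * (m / A)) := by
      rw [abs_mul, abs_of_pos hpi]
      gcongr
    calc |Real.cos (Real.pi * a)| * |Real.sinh (Real.pi * b)|
        ≤ 1 * (2 * |Real.pi * b|) := by gcongr
      _ ≤ 2 * (m / A) := by nlinarith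
      _ = 2 * m / A := by ring
  have hup : (sin ((Real.pi : ℂ) * w)).re ≤ 7 * (m / A) := by
    rw [hsr]
    have e1 := sin_up (a := a) (r := 14 / 10 * (m / A)) (by linarith) (by linarith) (by
      have : 14 / 10 * m / A = 14 / 10 * (m / A) := by ring
      rw [this] at h3; exact h3)
    calc Real.sin (Real.pi * a) * Real.cosh (Real.pi * b)
        ≤ (Real.pi * (14 / 10 * (m / A))) * (3 / 2) := by gcongr
      _ ≤ (3.1416 * (14 / 10 * (m / A))) * (3 / 2) := by gcongr
      _ ≤ 7 * (m / A) := by nlinarith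
  refine ⟨hr, hi, ?_, ?_⟩
  · calc ‖sin ((Real.pi : ℂ) * w)‖ ≤ |(sin ((Real.pi : ℂ) * w)).re|
          + |(sin ((Real.pi : ℂ) * w)).im| := norm_le_abs_re_add_abs_im _
      _ ≤ 7 * (m / A) + 2 * m / A := by
          gcongr
          rw [abs_of_pos (by linarith)]
          exact hup
      _ = _ := by ring
  · rw [norm_exp]
    have e1 : (I * ((Real.pi : ℂ) * w)).re = -(Real.pi * b) := by simp [b]
    rw [e1]
    have := Real.add_one_le_exp (-(Real.pi * b))
    have := (abs_le.mp hb2).2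
    linarith

lemma SS_facts {N t : ℂ} {s m : ℝ} (hG : Gate N t s m) (hm : 1000 ≤ m) (hA : 2 * m ≤ N.re)
    (hν : |N.im| ≤ 13 / 2) :
    m / 4 ≤ (SS N t).re ∧ m / 4 ≤ ‖SS N t‖ ∧ ‖SS N t‖ ≤ 3 * m := by
  obtain ⟨h1, h2, h3, h4⟩ := sin_facts hG hm hA
  set A := N.re with hAdef
  have hApos : 0 < A := by linarith
  have hpi := Real.pi_pos
  have hpi1 := Real.pi_gt_three
  have hpi2 : Real.pi < 3.1416 := Real.pi_lt_d4
  set S := sin ((Real.pi : ℂ) * (t / N)) with hS
  have hre : (SS N t).re = (A * S.re - N.im * S.im) / Real.pi := by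
    rw [SS, ← hS]
    have : (N / (Real.pi : ℂ) * S) = ((1 / Real.pi : ℝ) : ℂ) * (N * S) := by
      push_cast; ring
    rw [this, re_ofReal_mul, mul_re]
    ring
  have hA1 : 2000 ≤ A := by linarith
  have e1 : A * S.re ≥ m := by
    have : m / A * A ≤ S.re * A := by gcongr
    rw [div_mul_cancel₀ _ hApos.ne'] at this
    linarith
  have e2 : |N.im * S.im| ≤ 13 * m / A := by
    rw [abs_mul]
    calc |N.im| * |S.im| ≤ 13 / 2 * (2 * m / A) := by gcongr
      _ = _ := by ring
  have e3 : 13 * m / A ≤ m / 100 := by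
    rw [div_le_div_iff₀ hApos (by norm_num)]
    nlinarith
  have hlo : m / 4 ≤ (SS N t).re := by
    rw [hre, le_div_iff₀ hpi]
    have := (abs_le.mp e2).2
    nlinarith
  refine ⟨hlo, hlo.trans ((le_abs_self _).trans (abs_re_le_norm _)), ?_⟩
  rw [SS, ← hS, norm_mul, norm_div]
  have hN : ‖N‖ ≤ A + 13 / 2 := by
    calc ‖N‖ ≤ |N.re| + |N.im| := norm_le_abs_re_add_abs_im _
      _ ≤ A + 13 / 2 := by
        gcongr
        rw [abs_of_pos hApos]
  have hpin : ‖(Real.pi : ℂ)‖ = Real.pi := by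
    rw [norm_real, Real.norm_of_nonneg hpi.le]
  rw [hpin]
  calc ‖N‖ / Real.pi * ‖S‖ ≤ (A + 13 / 2) / 3.14 * (9 * m / A) := by
        gcongr
        exact Real.pi_gt_d2.le
    _ ≤ 3 * m := by
        rw [div_mul_div_comm, div_le_iff₀ (by positivity)]
        nlinarith

end MPc6f924
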