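import Mathlib
import Pool.Agent.Work.MP_c6f924_an.Err
import Pool.Agent.Work.MP_c6f924_an.Facts

/-!
# One step of the recursion in the coordinate `t`
-/

namespace MPc6f924

open Complex

noncomputable def LL (N : ℂ) : ℂ := 2 * Real.pi * I / N

noncomputable def qq (N : ℂ) : ℂ := 1 - exp (-LL N / 2)

noncomputable def stepT (N x t : ℂ) : ℂ := t + 1 + log (1 + qq N * hh (qq N) x) / LL N

noncomputable def stepX (N x : ℂ) : ℂ := x ^ 2 - (1 - qq N) * x

/-- the relation between `x` and `t`. -/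
def Rel (N x t : ℂ) : Prop := x ^ 2 * (exp (LL N * t) - 1) = qq N * (1 + x)

noncomputable def Theta (N x t : ℂ) : ℂ :=
  t * (1 + 11 / 16 * LL N) - 11 / 8 * log (SS N t) + 3 / 4 * x

lemma LL_ne {N : ℂ} (hN : N ≠ 0) : LL N ≠ 0 := by
  unfold LL
  have : (Real.pi : ℂ) ≠ 0 := by exact_mod_cast Real.pi_ne_zero
  simp [hN, this]

lemma norm_LL (N : ℂ) : ‖LL N‖ = 2 * Real.pi / ‖N‖ := by
  unfold LL
  rw [norm_div, norm_mul, norm_mul]
  simp [Real.pi_nonneg, abs_of_nonneg]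

lemma exp_LL {N : ℂ} : exp (LL N) * (1 - qq N) ^ 2 = 1 := by
  unfold qq
  rw [sub_sub_cancel, ← exp_nat_mul, ← exp_add]
  rw [show LL N + ((2 : ℕ) : ℂ) * (-LL N / 2) = 0 by push_cast; ring, exp_zero]

lemma exp_sub_one {N t : ℂ} (hN : N ≠ 0) :
    exp (LL N * t) - 1 = 2 * I * exp (LL N * t / 2) * sin (Real.pi * (t / N)) := by
  have h1 : LL N * t / 2 = (Real.pi * (t / N)) * I := by
    unfold LL; field_simp
  have h2 : LL N * t = LL N * t / 2 + LL N * t / 2 := by ring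
  rw [h2, exp_add, h1, Complex.sin, neg_mul, exp_neg]
  have h3 : exp (Real.pi * (t / N) * I) ≠ 0 := exp_ne_zero _
  field_simp
  rw [I_sq]
  ring_nf

lemma x_ne {N x t : ℂ} (hR : Rel N x t) (hq : qq N ≠ 0) (hx : ‖x‖ ≤ 1 / 10) : x ≠ 0 := by
  rintro rfl
  unfold Rel at hR
  simp at hR
  exact hq hR.symm

lemma key_id {q x : ℂ} (hq : ‖q‖ ≤ 1 / 10) (hx : ‖x‖ ≤ 1 / 10) :
    (1 + q * hh q x) * (1 - q - x) ^ 2 = (1 - q) ^ 2 * (1 - (2 - q) * x + x ^ 2) := by
  have h1 := norm_D1 hq hx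
  have n1 : 1 - q - x ≠ 0 := by
    intro h; rw [h, norm_zero] at h1; linarith
  have e1 : hh q x * (1 - q - x) ^ 2 = x * ((1 - q) * (3 - q) - (2 - q) * x) := by
    unfold hh; exact div_mul_cancel₀ _ (pow_ne_zero 2 n1)
  linear_combination q * e1

lemma one_add_qhh_ne {q x : ℂ} (hq : ‖q‖ ≤ 1 / 10) (hx : ‖x‖ ≤ 1 / 10) :
    1 + q * hh q x ≠ 0 := by
  intro h
  have h2 : ‖q * hh q x‖ ≤ 1 / 2 := by
    rw [norm_mul]
    calc ‖q‖ * ‖hh q x‖ ≤ (1 / 10) * (6 * (1 / 10)) := by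
          gcongr
          exact (norm_hh hq hx).trans (by gcongr)
      _ ≤ 1 / 2 := by norm_num
  have h3 : q * hh q x = -1 := by linear_combination h
  rw [h3] at h2
  norm_num at h2

lemma step_exp {N x t : ℂ} (hN : N ≠ 0) (hq : ‖qq N‖ ≤ 1 / 10) (hx : ‖x‖ ≤ 1 / 10) :
    exp (LL N * stepT N x t) * (1 - qq N - x) ^ 2
      = exp (LL N * t) * (1 - (2 - qq N) * x + x ^ 2) := by
  have h1 : LL N * stepT N x t = LL N * t + LL N + log (1 + qq N * hh (qq N) x) := by
    unfold stepT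
    have := LL_ne hN
    field_simp
  rw [h1, exp_add, exp_add, exp_log (one_add_qhh_ne hq hx)]
  have h2 := key_id hq hx
  have h3 := exp_LL (N := N)
  calc exp (LL N * t) * exp (LL N) * (1 + qq N * hh (qq N) x) * (1 - qq N - x) ^ 2
      = exp (LL N * t) * exp (LL N) * ((1 + qq N * hh (qq N) x) * (1 - qq N - x) ^ 2) := by ring
    _ = exp (LL N * t) * (exp (LL N) * (1 - qq N) ^ 2) * (1 - (2 - qq N) * x + x ^ 2) := by
        rw [h2]; ring
    _ = _ := by rw [h3]; ring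

lemma step_rel {N x t : ℂ} (hN : N ≠ 0) (hq : ‖qq N‖ ≤ 1 / 10) (hx : ‖x‖ ≤ 1 / 10)
    (hR : Rel N x t) : Rel N (stepX N x) (stepT N x t) := by
  unfold Rel at *
  have h := step_exp (t := t) hN hq hx
  unfold stepX
  set q := qq N
  set E := exp (LL N * t)
  set E' := exp (LL N * stepT N x t)
  have e1 : (x ^ 2 - (1 - q) * x) ^ 2 * (E' - 1)
      = x ^ 2 * (E' * (1 - q - x) ^ 2) - x ^ 2 * (1 - q - x) ^ 2 := by ring
  rw [e1, h]
  linear_combination (1 - (2 - q) * x + x ^ 2) * hR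

lemma bb_id {q x : ℂ} (hq : ‖q‖ ≤ 1 / 10) (hx : ‖x‖ ≤ 1 / 10) :
    (1 + bb q x) * ((1 + x) * (1 - (2 - q) * x + x ^ 2)) = 1 + (x ^ 2 - (1 - q) * x) := by
  have h2 := norm_one_add hx
  have h3 := norm_NN hq hx
  have n2 : 1 + x ≠ 0 := by
    intro h; rw [h, norm_zero] at h2; linarith
  have n3 : 1 - (2 - q) * x + x ^ 2 ≠ 0 := by
    intro h; rw [h, norm_zero] at h3; linarith
  have e2 : bb q x * ((1 + x) * (1 - (2 - q) * x + x ^ 2)) = x ^ 2 * (2 - q - x) := by
    unfold bb; exact div_mul_cancel₀ _ (mul_ne_zero n2 n3)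
  linear_combination e2

lemma step_sin {N x t : ℂ} (hN : N ≠ 0) (hq : ‖qq N‖ ≤ 1 / 10) (hq0 : qq N ≠ 0)
    (hx : ‖x‖ ≤ 1 / 10) (hR : Rel N x t) :
    SS N (stepT N x t)
      = SS N t * exp (LL N * (stepT N x t - t) / 2) * (1 + bb (qq N) x) := by
  have hx0 := x_ne hR hq0 hx
  have hR' := step_rel hN hq hx hR
  have hE := step_exp (t := t) hN hq hx
  have hb := bb_id hq hx
  have h1 := norm_D1 hq hx
  have h2 := norm_one_add hx
  have h3 := norm_NN hq hx
  unfold Rel stepX at *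
  have s1 := exp_sub_one (N := N) (t := t) hN
  have s2 := exp_sub_one (N := N) (t := stepT N x t) hN
  unfold SS
  set t' := stepT N x t
  set q := qq N
  have n1 : 1 - q - x ≠ 0 := by
    intro h; rw [h, norm_zero] at h1; linarith
  have n2 : 1 + x ≠ 0 := by
    intro h; rw [h, norm_zero] at h2; linarith
  have n3 : 1 - (2 - q) * x + x ^ 2 ≠ 0 := by
    intro h; rw [h, norm_zero] at h3; linarith
  set σ := sin (Real.pi * (t / N))
  set σ' := sin (Real.pi * (t' / N))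
  have x1 : exp (LL N * t / 2) ≠ 0 := exp_ne_zero _
  have x2 : exp (LL N * t' / 2) ≠ 0 := exp_ne_zero _
  have x3 : exp (LL N * t) = exp (LL N * t / 2) ^ 2 := by
    rw [← exp_nat_mul]; congr 1; push_cast; ring
  have x4 : exp (LL N * t') = exp (LL N * t' / 2) ^ 2 := by
    rw [← exp_nat_mul]; congr 1; push_cast; ring
  have x5 : exp (LL N * (t' - t) / 2) * exp (LL N * t / 2) = exp (LL N * t' / 2) := by
    rw [← exp_add]; congr 1; ring
  set e := exp (LL N * t / 2)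
  set e' := exp (LL N * t' / 2)
  set f := exp (LL N * (t' - t) / 2)
  rw [x3] at s1 hR hE
  rw [x4] at s2 hR' hE
  rw [s1] at hR
  rw [s2] at hR'
  -- goal: σ' = σ f (1+bb)
  have goal : σ' = σ * f * (1 + bb q x) := by
    have g1 : (x ^ 2 * (2 * I)) * ((1 - q - x) ^ 2 * e' * σ')
        = (x ^ 2 * (2 * I)) * ((1 + bb q x) * (1 - (2 - q) * x + x ^ 2) * e * σ) := by
      linear_combination hR' - q * hb - (1 + bb q x) * (1 - (2 - q) * x + x ^ 2) * hR
    have g2 := mul_left_cancel₀ (mul_ne_zero (pow_ne_zero 2 hx0)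
      (mul_ne_zero two_ne_zero I_ne_zero)) g1
    have g3 : (e ^ 2 * (1 - (2 - q) * x + x ^ 2)) * (e * σ')
        = (e ^ 2 * (1 - (2 - q) * x + x ^ 2)) * (e * (σ * f * (1 + bb q x))) := by
      linear_combination (-(e * σ')) * hE + e * e' * g2
        - (1 + bb q x) * (1 - (2 - q) * x + x ^ 2) * e ^ 2 * σ * x5
    have g4 := mul_left_cancel₀ (mul_ne_zero (pow_ne_zero 2 x1) n3) g3
    exact mul_left_cancel₀ x1 g4
  rw [goal]; ring

/-- imaginary parts are small, so logarithms add up. -/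
lemma step_log {N x t : ℂ} (hN : N ≠ 0) (hq : ‖qq N‖ ≤ 1 / 10) (hq0 : qq N ≠ 0)
    (hx : ‖x‖ ≤ 1 / 10) (hR : Rel N x t) (hS : 0 < (SS N t).re)
    (hsmall : ‖LL N * (stepT N x t - t) / 2‖ ≤ 1 / 2) :
    log (SS N (stepT N x t))
      = log (SS N t) + LL N * (stepT N x t - t) / 2 + log (1 + bb (qq N) x) := by
  have hSne : SS N t ≠ 0 := by
    intro h; rw [h] at hS; simp at hS
  have hb1 := norm_bb hq hx
  have hb2 : ‖bb (qq N) x‖ ≤ 1 / 25 := by
    refine hb1.trans ?_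
    have := norm_nonneg x
    nlinarith
  have hb3 := log_sub_le (w := bb (qq N) x) (by linarith)
  have hb4 : ‖log (1 + bb (qq N) x)‖ ≤ 1 / 10 := by
    have e : log (1 + bb (qq N) x) = (log (1 + bb (qq N) x) - bb (qq N) x) + bb (qq N) x := by
      ring
    rw [e]
    refine (norm_add_le _ _).trans ?_
    have h0 := norm_nonneg (bb (qq N) x)
    nlinarith
  have hbne : 1 + bb (qq N) x ≠ 0 := by
    intro h
    have h3 : bb (qq N) x = -1 := by linear_combination h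
    rw [h3] at hb2
    norm_num at hb2
  have him : |(log (SS N t)).im| < Real.pi / 2 := by
    rw [log_im]
    exact abs_arg_lt_pi_div_two_iff.mpr (Or.inl hS)
  have e1 : SS N (stepT N x t)
      = exp (log (SS N t) + LL N * (stepT N x t - t) / 2 + log (1 + bb (qq N) x)) := by
    rw [exp_add, exp_add, exp_log hSne, exp_log hbne]
    exact step_sin hN hq hq0 hx hR
  have hpi := Real.pi_gt_three
  have i1 := (abs_im_le_norm (LL N * (stepT N x t - t) / 2)).trans hsmall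
  have i2 := (abs_im_le_norm (log (1 + bb (qq N) x))).trans hb4
  rw [abs_le] at i1 i2
  rw [abs_lt] at him
  rw [e1]
  apply log_exp
  · simp only [add_im]
    linarith [i1.1, i2.1, him.1]
  · simp only [add_im]
    linarith [i1.2, i2.2, him.2]

lemma step_theta {N x t : ℂ} (hN : N ≠ 0) (hq : ‖qq N‖ ≤ 1 / 10) (hq0 : qq N ≠ 0)
    (hx : ‖x‖ ≤ 1 / 10) (hR : Rel N x t) (hS : 0 < (SS N t).re)
    (hsmall : ‖LL N * (stepT N x t - t) / 2‖ ≤ 1 / 2) :
    Theta N (stepX N x) (stepT N x t) = Theta N x t + 1 + err (LL N) x := by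
  have h := step_log hN hq hq0 hx hR hS hsmall
  have hL := LL_ne hN
  unfold Theta
  rw [h]
  have e1 : stepT N x t - t = 1 + log (1 + qq N * hh (qq N) x) / LL N := by
    unfold stepT; ring
  have e2 : stepT N x t = t + (stepT N x t - t) := by ring
  have e3 : exp (-LL N / 2) = 1 - qq N := by unfold qq; ring
  unfold err
  rw [show (1 : ℂ) - exp (-LL N / 2) = qq N from rfl, e3]
  unfold stepX
  generalize hδ : stepT N x t - t = δ at *
  rw [e2, e1]
  ring

end MPc6f924
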