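import Mathlib
import Pool.Agent.Work.MP_c6f924_an.Step

/-!
# The passage through the gate
-/

namespace MPc6f924

open Complex

lemma norm_N_ge {N : ℂ} : N.re ≤ ‖N‖ := (le_abs_self _).trans (abs_re_le_norm _)

lemma LL_small {N : ℂ} (hA : 2000 ≤ N.re) : ‖LL N‖ ≤ 63 / 10 / N.re ∧ ‖LL N‖ ≤ 1 / 200 := by
  have h0 : 0 < N.re := by linarith
  have h1 := norm_N_ge (N := N)
  have hpi2 : Real.pi < 3.15 := Real.pi_lt_d2
  have e : ‖LL N‖ ≤ 63 / 10 / N.re := by
    rw [norm_LL]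
    apply div_le_div₀ (by norm_num) (by linarith) h0 h1
  refine ⟨e, e.trans ?_⟩
  rw [div_le_iff₀ h0]
  linarith

lemma qq_small {N : ℂ} (hA : 2000 ≤ N.re) : ‖qq N‖ ≤ ‖LL N‖ :=
  norm_q_le ((LL_small hA).2.trans (by norm_num))

lemma qq_ne {N : ℂ} (hA : 2000 ≤ N.re) : qq N ≠ 0 := by
  have hN : N ≠ 0 := by
    intro h; rw [h] at hA; simp at hA; linarith
  have hL := LL_ne hN
  have h1 := (LL_small hA).2
  have h := q_L (L := LL N) (by linarith) hL
  intro h0
  have : (1 : ℂ) - exp (-LL N / 2) = 0 := h0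
  rw [this] at h
  simp only [zero_div, zero_sub, norm_neg] at h
  norm_num at h
  linarith

lemma X_bound {N x t : ℂ} {s m : ℝ} (hA : 2000 ≤ N.re) (hm : 1000 ≤ m) (h2m : 2 * m ≤ N.re)
    (hG : Gate N t s m) (hR : Rel N x t) (hx : ‖x‖ ≤ 1 / 10) : ‖x‖ ^ 2 ≤ 7 / m := by
  have hN : N ≠ 0 := by
    intro h; rw [h] at hA; simp at hA; linarith
  have hA0 : 0 < N.re := by linarith
  have hm0 : 0 < m := by linarith
  obtain ⟨h1, h2, h3, h4⟩ := sin_facts hG hm h2m
  unfold Rel at hR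
  rw [exp_sub_one hN] at hR
  have e1 : LL N * t / 2 = I * (Real.pi * (t / N)) := by
    unfold LL; field_simp
  rw [e1] at hR
  have hn := congrArg norm hR
  rw [norm_mul, norm_pow, norm_mul, norm_mul, norm_mul, norm_mul] at hn
  simp only [Complex.norm_ofNat, norm_I, mul_one] at hn
  have hs : m / N.re ≤ ‖sin ((Real.pi : ℂ) * (t / N))‖ :=
    h1.trans ((le_abs_self _).trans (abs_re_le_norm _))
  have hq : ‖qq N‖ ≤ 63 / 10 / N.re := (qq_small hA).trans (LL_small hA).1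
  have h1x : ‖1 + x‖ ≤ 11 / 10 := by
    have := norm_add_le (1 : ℂ) x
    rw [norm_one] at this; linarith
  have hlow : ‖x‖ ^ 2 * (m / N.re) ≤
      ‖x‖ ^ 2 * (2 * ‖exp (I * ((Real.pi : ℂ) * (t / N)))‖ *
        ‖sin ((Real.pi : ℂ) * (t / N))‖) := by
    have : m / N.re ≤ 2 * ‖exp (I * ((Real.pi : ℂ) * (t / N)))‖ *
        ‖sin ((Real.pi : ℂ) * (t / N))‖ := by
      calc m / N.re = 2 * (1 / 2) * (m / N.re) := by ring
        _ ≤ _ := by gcongr
    gcongr
  have hup : ‖qq N‖ * ‖1 + x‖ ≤ 7 / N.re := by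
    calc ‖qq N‖ * ‖1 + x‖ ≤ (63 / 10 / N.re) * (11 / 10) := by gcongr
      _ = (693 / 100) / N.re := by ring
      _ ≤ 7 / N.re := by gcongr; norm_num
  rw [hn] at hlow
  have h5 := hlow.trans hup
  rw [le_div_iff₀ hm0]
  have h6 : ‖x‖ ^ 2 * m / N.re ≤ 7 / N.re := by
    calc ‖x‖ ^ 2 * m / N.re = ‖x‖ ^ 2 * (m / N.re) := by ring
      _ ≤ _ := h5
  exact (div_le_div_iff_of_pos_right hA0).mp h6

lemma log_small {N x : ℂ} (hA : 2000 ≤ N.re) (hx : ‖x‖ ≤ 1 / 20) :
    ‖log (1 + qq N * hh (qq N) x) / LL N‖ ≤ 1 := by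
  have hN : N ≠ 0 := by
    intro h; rw [h] at hA; simp at hA; linarith
  have hL := LL_ne hN
  have hpos : 0 < ‖LL N‖ := norm_pos_iff.mpr hL
  have hL2 := (LL_small hA).2
  have hq := qq_small hA
  have h1 : ‖qq N * hh (qq N) x‖ ≤ 3 / 10 * ‖LL N‖ := by
    rw [norm_mul]
    calc ‖qq N‖ * ‖hh (qq N) x‖ ≤ ‖LL N‖ * (6 * (1 / 20)) := by
          gcongr
          exact (norm_hh (hq.trans (hL2.trans (by norm_num))) (by linarith)).trans (by gcongr)
      _ = _ := by ring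
  have h2 := log_sub_le (w := qq N * hh (qq N) x) (by linarith)
  rw [norm_div, div_le_iff₀ hpos, one_mul]
  have e : log (1 + qq N * hh (qq N) x)
      = (log (1 + qq N * hh (qq N) x) - qq N * hh (qq N) x) + qq N * hh (qq N) x := by ring
  rw [e]
  refine (norm_add_le _ _).trans ?_
  have h0 := norm_nonneg (qq N * hh (qq N) x)
  nlinarith

lemma rpow_step {s : ℝ} (hs : 1000 ≤ s) :
    1 / (s * √s) ≤ 3 * (1 / √s - 1 / √(s + 1)) := by
  have h0 : 0 < s := by linarith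
  have a0 : 0 < √s := Real.sqrt_pos.mpr h0
  have b0 : 0 < √(s + 1) := Real.sqrt_pos.mpr (by linarith)
  have a2 : √s ^ 2 = s := Real.sq_sqrt h0.le
  have b2 : √(s + 1) ^ 2 = s + 1 := Real.sq_sqrt (by linarith)
  have hab : √s ≤ √(s + 1) := Real.sqrt_le_sqrt (by linarith)
  have hb : √(s + 1) ≤ 6 / 5 * √s := by
    rw [Real.sqrt_le_iff]
    constructor
    · positivity
    · nlinarith
  have e : 1 / √s - 1 / √(s + 1) = 1 / (√s * √(s + 1) * (√s + √(s + 1))) := by
    rw [div_sub_div _ _ a0.ne' b0.ne', div_eq_div_iff (by positivity) (by positivity)]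
    have h3 : (√(s + 1) - √s) * (√s + √(s + 1)) = 1 := by
      linear_combination b2 - a2
    linear_combination (√s * √(s + 1)) * h3
  rw [e, mul_one_div, div_le_div_iff₀ (by positivity) (by positivity), one_mul]
  have h1 : √(s + 1) * (√s + √(s + 1)) ≤ 3 * s := by
    nlinarith
  calc √s * √(s + 1) * (√s + √(s + 1)) = √s * (√(s + 1) * (√s + √(s + 1))) := by ring
    _ ≤ √s * (3 * s) := by gcongr
    _ = 3 * (s * √s) := by ring

lemma rpow_step' {s : ℝ} (hs : 1000 ≤ s - 1) :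
    1 / (s * √s) ≤ 3 * (1 / √(s - 1) - 1 / √s) := by
  have h := rpow_step hs
  rw [sub_add_cancel] at h
  refine le_trans ?_ h
  have h1 : 0 < s - 1 := by linarith
  have : √(s - 1) ≤ √s := Real.sqrt_le_sqrt (by linarith)
  have : 0 < √(s - 1) := Real.sqrt_pos.mpr h1
  apply one_div_le_one_div_of_le (by positivity)
  exact mul_le_mul (by linarith) (by assumption) (by positivity) (by linarith)

/-- potential for the sum of the errors -/
noncomputable def pot (T A : ℝ) (n : ℕ) : ℝ :=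
  57 * (1 / √T - 1 / √(T + n)) + 57 * (1 / √(A - T - n) - 1 / √(A - T)) + 17 * n / (A * √T)

lemma pot_le {T A : ℝ} {n : ℕ} (hT : 1000 ≤ T) (hn : T + n ≤ A - T) :
    pot T A n ≤ 131 / √T := by
  have h0 : 0 < T := by linarith
  have a0 : 0 < √T := Real.sqrt_pos.mpr h0
  have hn0 : (0 : ℝ) ≤ n := Nat.cast_nonneg n
  have hA : 0 < A := by linarith
  have h1 : 0 ≤ 1 / √(T + n) := by positivity
  have h2 : 0 ≤ 1 / √(A - T) := by positivity
  have h3 : 1 / √(A - T - n) ≤ 1 / √T := by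
    apply one_div_le_one_div_of_le a0
    apply Real.sqrt_le_sqrt; linarith
  have h4 : 17 * n / (A * √T) ≤ 17 / √T := by
    rw [div_le_div_iff₀ (by positivity) a0]
    have : (n : ℝ) ≤ A := by linarith
    calc 17 * (n : ℝ) * √T ≤ 17 * A * √T := by gcongr
      _ = _ := by ring
  have e : 131 / √T = 57 * (1 / √T) + 57 * (1 / √T) + 17 / √T := by ring
  rw [e, pot]
  linarith

lemma pot_step {T A : ℝ} {n : ℕ} (hT : 1000 ≤ T) (hn : T + (n + 1 : ℕ) ≤ A - T)
    {m X : ℝ} (hm : m = min (T + n) (A - (T + n))) (hX0 : 0 ≤ X) (hX : X ^ 2 ≤ 7 / m) :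
    X ^ 3 + 63 / 10 / A * X ≤ pot T A (n + 1) - pot T A n := by
  push_cast at hn
  have hn0 : (0 : ℝ) ≤ n := Nat.cast_nonneg n
  have hTm : T ≤ m := by
    rw [hm]; apply le_min <;> linarith
  have hm0 : 0 < m := by linarith
  have hA : 0 < A := by linarith
  have hT0 : 0 < T := by linarith
  have sT : 0 < √T := Real.sqrt_pos.mpr hT0
  have sm : 0 < √m := Real.sqrt_pos.mpr hm0
  have sm2 : √m ^ 2 = m := Real.sq_sqrt hm0.le
  have hX1 : X ≤ 266 / 100 / √m := by
    rw [le_div_iff₀ sm]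
    have h1 : (X * √m) ^ 2 ≤ 7 := by
      rw [mul_pow, sm2]
      rwa [le_div_iff₀ hm0] at hX
    nlinarith [mul_nonneg hX0 sm.le]
  have hX3 : X ^ 3 ≤ 19 / (m * √m) := by
    calc X ^ 3 = X ^ 2 * X := by ring
      _ ≤ 7 / m * (266 / 100 / √m) := by gcongr
      _ = 1862 / 100 / (m * √m) := by field_simp; ring
      _ ≤ 19 / (m * √m) := by gcongr; norm_num
  have hm3 : 1 / (m * √m) ≤ 1 / ((T + n) * √(T + n)) +
      1 / ((A - T - n) * √(A - T - n)) := by
    rcases le_total (T + n) (A - (T + n)) with h | h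
    · have : m = T + n := by rw [hm]; exact min_eq_left h
      rw [this]
      have : 0 ≤ 1 / ((A - T - n) * √(A - T - n)) := by
        have : 0 ≤ A - T - n := by linarith
        positivity
      linarith
    · have : m = A - T - n := by rw [hm, min_eq_right h]; ring
      rw [this]
      have : 0 ≤ 1 / ((T + n) * √(T + n)) := by positivity
      linarith
  have r1 := rpow_step (s := T + n) (by linarith)
  have r2 := rpow_step' (s := A - T - n) (by linarith)
  have hX4 : 63 / 10 / A * X ≤ 17 / (A * √T) := by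
    have h5 : X ≤ 266 / 100 / √T := by
      refine hX1.trans ?_
      gcongr
    calc 63 / 10 / A * X ≤ 63 / 10 / A * (266 / 100 / √T) := by gcongr
      _ = 16758 / 1000 / (A * √T) := by field_simp; ring
      _ ≤ 17 / (A * √T) := by gcongr; norm_num
  have e : pot T A (n + 1) - pot T A n
      = 57 * (1 / √(T + n) - 1 / √(T + n + 1))
        + 57 * (1 / √(A - T - n - 1) - 1 / √(A - T - n)) + 17 / (A * √T) := by
    unfold pot
    push_cast
    rw [show T + ((n : ℝ) + 1) = T + n + 1 by ring, show A - T - ((n : ℝ) + 1) = A - T - n - 1 by ring]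
    ring
  rw [e]
  have h6 : 19 / (m * √m) = 19 * (1 / (m * √m)) := by ring
  rw [h6] at hX3
  linarith

structure TrInv (N : ℂ) (T C : ℝ) (x0 t0 x t : ℂ) (n : ℕ) : Prop where
  close : ‖t - ((T + n : ℝ) : ℂ)‖ ≤ 1 / 4 * min (T + n) (N.re - (T + n))
  xs : ‖x‖ ≤ 1 / 20
  rel : Rel N x t
  th : ‖Theta N x t - Theta N x0 t0 - n‖ ≤ C * pot T N.re n

structure TrHyp (N : ℂ) (T C : ℝ) (x0 t0 : ℂ) : Prop where
  hT : 3000 ≤ T
  hC : 0 < C
  hCT : C * (131 / √T) ≤ 1
  hA : 2 * T ≤ N.re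
  him : |N.im| ≤ 13 / 2
  h0 : ‖t0 - T‖ ≤ 1
  hx0 : ‖x0‖ ≤ 1 / 20
  hR : Rel N x0 t0

lemma tr_base {N : ℂ} {T C : ℝ} {x0 t0 : ℂ} (h : TrHyp N T C x0 t0) :
    TrInv N T C x0 t0 x0 t0 0 := by
  have hT := h.hT
  have hA := h.hA
  refine ⟨?_, h.hx0, h.hR, ?_⟩
  · simp only [Nat.cast_zero, add_zero]
    refine h.h0.trans ?_
    have : T ≤ min T (N.re - T) := by apply le_min <;> linarith
    linarith
  · simp [pot]

lemma log_diff {N t0 t : ℂ} {s0 m0 s m : ℝ} (hA : 2 * m ≤ N.re) (h0m : m0 ≤ m)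
    (hm0 : 1000 ≤ m0) (him : |N.im| ≤ 13 / 2)
    (hG0 : Gate N t0 s0 m0) (hG : Gate N t s m) :
    ‖log (SS N t) - log (SS N t0)‖ ≤ 12 * m / m0 + 4 := by
  obtain ⟨a1, a2, a3⟩ := SS_facts hG0 hm0 (by linarith) him
  obtain ⟨b1, b2, b3⟩ := SS_facts hG (by linarith) hA him
  have hpi : Real.pi < 3.15 := Real.pi_lt_d2
  have i1 : |(log (SS N t0)).im| < Real.pi / 2 := by
    rw [log_im]
    exact abs_arg_lt_pi_div_two_iff.mpr (Or.inl (by linarith))
  have i2 : |(log (SS N t)).im| < Real.pi / 2 := by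
    rw [log_im]
    exact abs_arg_lt_pi_div_two_iff.mpr (Or.inl (by linarith))
  have hm00 : 0 < m0 := by linarith
  have hm : 0 < m := by linarith
  have n0 : 0 < ‖SS N t0‖ := by linarith
  have n1 : 0 < ‖SS N t‖ := by linarith
  have r1 : |(log (SS N t)).re - (log (SS N t0)).re| ≤ 12 * m / m0 := by
    rw [log_re, log_re, abs_le]
    constructor
    · rw [neg_le_sub_iff_le_add, add_comm, ← sub_le_iff_le_add, ← Real.log_div n0.ne' n1.ne']
      refine (Real.log_le_sub_one_of_pos (by positivity)).trans ?_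
      have : ‖SS N t0‖ / ‖SS N t‖ ≤ 12 * m / m0 := by
        rw [div_le_div_iff₀ n1 hm00]
        calc ‖SS N t0‖ * m0 ≤ 3 * m0 * m0 := by gcongr
          _ ≤ 3 * m * m := by gcongr
          _ = 12 * m * (m / 4) := by ring
          _ ≤ 12 * m * ‖SS N t‖ := by gcongr
      linarith
    · rw [← Real.log_div n1.ne' n0.ne']
      refine (Real.log_le_sub_one_of_pos (by positivity)).trans ?_
      have : ‖SS N t‖ / ‖SS N t0‖ ≤ 12 * m / m0 := by
        rw [div_le_div_iff₀ n0 hm00]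
        calc ‖SS N t‖ * m0 ≤ 3 * m * m0 := by gcongr
          _ = 12 * m * (m0 / 4) := by ring
          _ ≤ 12 * m * ‖SS N t0‖ := by gcongr
      linarith
  calc ‖log (SS N t) - log (SS N t0)‖ ≤ |(log (SS N t) - log (SS N t0)).re|
        + |(log (SS N t) - log (SS N t0)).im| := norm_le_abs_re_add_abs_im _
    _ ≤ 12 * m / m0 + (|(log (SS N t)).im| + |(log (SS N t0)).im|) := by
        rw [sub_re, sub_im]
        gcongr
        exact abs_sub _ _
    _ ≤ 12 * m / m0 + 4 := by linarith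

lemma tr_step {N : ℂ} {T C : ℝ} {x0 t0 x t : ℂ} {n : ℕ}
    (hCerr : ∀ L x : ℂ, L ≠ 0 → ‖L‖ ≤ 1 / 20 → ‖x‖ ≤ 1 / 10 →
      ‖err L x‖ ≤ C * (‖x‖ ^ 3 + ‖L‖ * ‖x‖))
    (h : TrHyp N T C x0 t0) (hI : TrInv N T C x0 t0 x t n)
    (hn : T + (n + 1 : ℕ) ≤ N.re - T) :
    TrInv N T C x0 t0 (stepX N x) (stepT N x t) (n + 1) := by
  obtain ⟨hT, hC, hCT, hA, him, h0, hx0, hR0⟩ := h
  obtain ⟨hcl, hxs, hrel, hth⟩ := hI
  have hn' := hn
  push_cast at hn'
  have hnn : (0 : ℝ) ≤ n := Nat.cast_nonneg n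
  have hA' : 2000 ≤ N.re := by linarith
  have hN : N ≠ 0 := by
    intro h; rw [h] at hA'; simp at hA'; linarith
  obtain ⟨hL1, hL2⟩ := LL_small hA'
  have hq := qq_small hA'
  have hq1 : ‖qq N‖ ≤ 1 / 200 := hq.trans hL2
  have hq0 := qq_ne hA'
  set m := min (T + n) (N.re - (T + n)) with hm
  set m' := min (T + (n + 1 : ℕ)) (N.re - (T + (n + 1 : ℕ))) with hm'
  have hTm : T ≤ m := by rw [hm]; apply le_min <;> linarith
  have hTm' : T ≤ m' := by rw [hm']; push_cast; apply le_min <;> linarith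
  have hmm' : m ≤ m' + 1 := by
    rw [hm', hm]
    push_cast
    rcases le_total (T + (n + 1 : ℝ)) (N.re - (T + (n + 1))) with h | h
    · rw [min_eq_left h]
      exact (min_le_left _ _).trans (by linarith)
    · rw [min_eq_right h]
      exact (min_le_right _ _).trans (by linarith)
  have h2m : 2 * m ≤ N.re := by
    have := min_le_left (T + (n : ℝ)) (N.re - (T + n))
    have := min_le_right (T + (n : ℝ)) (N.re - (T + n))
    linarith
  have h2m' : 2 * m' ≤ N.re := by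
    have := min_le_left (T + ((n + 1 : ℕ) : ℝ)) (N.re - (T + (n + 1 : ℕ)))
    have := min_le_right (T + ((n + 1 : ℕ) : ℝ)) (N.re - (T + (n + 1 : ℕ)))
    linarith
  -- gate at n
  have hG : Gate N t (T + n) m := by
    apply gate_of (T := T) (by linarith) hA' him hTm
    refine hcl.trans ?_
    have : 0 ≤ m := by linarith
    linarith
  have hS := SS_facts hG (by linarith) h2m him
  have hSpos : 0 < (SS N t).re := by linarith [hS.1]
  have hls := log_small hA' hxs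
  have hdt : ‖stepT N x t - t - 1‖ ≤ 1 := by
    have : stepT N x t - t - 1 = log (1 + qq N * hh (qq N) x) / LL N := by
      unfold stepT; ring
    rw [this]; exact hls
  have hdt2 : ‖stepT N x t - t‖ ≤ 2 := by
    have : stepT N x t - t = (stepT N x t - t - 1) + 1 := by ring
    rw [this]
    refine (norm_add_le _ _).trans ?_
    rw [norm_one]; linarith
  have hsm : ‖LL N * (stepT N x t - t) / 2‖ ≤ 1 / 2 := by
    rw [norm_div, norm_mul]
    simp only [Complex.norm_ofNat]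
    calc ‖LL N‖ * ‖stepT N x t - t‖ / 2 ≤ (1 / 200) * 2 / 2 := by gcongr
      _ ≤ 1 / 2 := by norm_num
  have hx10 : ‖x‖ ≤ 1 / 10 := by linarith
  have hq10 : ‖qq N‖ ≤ 1 / 10 := by linarith
  have hθ := step_theta hN hq10 hq0 hx10 hrel hSpos hsm
  have hrel' := step_rel hN hq10 hx10 hrel
  -- weak closeness at n+1
  have hcl' : ‖stepT N x t - ((T + (n + 1 : ℕ) : ℝ) : ℂ)‖ ≤ 3 / 10 * m' := by
    have e : stepT N x t - ((T + (n + 1 : ℕ) : ℝ) : ℂ)
        = (stepT N x t - t - 1) + (t - ((T + n : ℝ) : ℂ)) := by push_cast; ring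
    rw [e]
    refine (norm_add_le _ _).trans ?_
    linarith
  have hG' : Gate N (stepT N x t) (T + (n + 1 : ℕ)) m' :=
    gate_of (T := T) (by linarith) hA' him hTm' hcl'
  -- x bound
  have hx' : ‖stepX N x‖ ≤ 1 / 10 := by
    unfold stepX
    have e : x ^ 2 - (1 - qq N) * x = x * (x - 1 + qq N) := by ring
    rw [e, norm_mul]
    have h1 : ‖x - 1 + qq N‖ ≤ 2 := by
      calc ‖x - 1 + qq N‖ ≤ ‖x - 1‖ + ‖qq N‖ := norm_add_le _ _
        _ ≤ (‖x‖ + ‖(1 : ℂ)‖) + ‖qq N‖ := by gcongr; exact norm_sub_le _ _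
        _ ≤ 2 := by rw [norm_one]; linarith
    calc ‖x‖ * ‖x - 1 + qq N‖ ≤ (1 / 20) * 2 := by gcongr
      _ = 1 / 10 := by norm_num
  have hx'2 := X_bound hA' (by linarith) h2m' hG' hrel' hx'
  have hx'3 : ‖stepX N x‖ ≤ 1 / 20 := by
    have h7 : 7 / m' ≤ 1 / 400 := by
      rw [div_le_div_iff₀ (by linarith) (by norm_num)]
      linarith
    have := norm_nonneg (stepX N x)
    nlinarith
  have hx2 := X_bound hA' (by linarith) h2m hG hrel hx10
  -- theta bound
  have hL0 := LL_ne hN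
  have herr := hCerr (LL N) x hL0 (by linarith) hx10
  have hX0 := norm_nonneg x
  have hps := pot_step (T := T) (A := N.re) (n := n) (by linarith) hn hm hX0 hx2
  have hθ' : ‖Theta N (stepX N x) (stepT N x t) - Theta N x0 t0 - ((n + 1 : ℕ) : ℂ)‖
      ≤ C * pot T N.re (n + 1) := by
    rw [hθ]
    have e : Theta N x t + 1 + err (LL N) x - Theta N x0 t0 - ((n + 1 : ℕ) : ℂ)
        = (Theta N x t - Theta N x0 t0 - n) + err (LL N) x := by push_cast; ring
    rw [e]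
    refine (norm_add_le _ _).trans ?_
    have h3 : ‖err (LL N) x‖ ≤ C * (pot T N.re (n + 1) - pot T N.re n) := by
      refine herr.trans ?_
      gcongr
      refine le_trans ?_ hps
      gcongr
    linarith
  refine ⟨?_, hx'3, hrel', hθ'⟩
  -- strong closeness
  have hpot := pot_le (T := T) (A := N.re) (n := n + 1) (by linarith) hn
  have hE : ‖Theta N (stepX N x) (stepT N x t) - Theta N x0 t0 - ((n + 1 : ℕ) : ℂ)‖ ≤ 1 :=
    hθ'.trans ((by gcongr : C * pot T N.re (n + 1) ≤ C * (131 / √T)).trans hCT)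
  have hG0 : Gate N t0 T T := by
    have := gate_of (N := N) (t := t0) (s := T) (T := T) (by linarith) hA' him
      (by apply le_min <;> linarith)
      (by
        rw [min_eq_left (by linarith)]
        refine h0.trans ?_; linarith)
    rwa [min_eq_left (by linarith)] at this
  have hld := log_diff (N := N) (t0 := t0) (t := stepT N x t) h2m' hTm' (by linarith) him hG0 hG'
  have hTpos : 0 < T := by linarith
  have hld2 : 12 * m' / T ≤ m' / 250 := by
    rw [div_le_div_iff₀ hTpos (by norm_num)]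
    nlinarith
  set t' := stepT N x t with ht'
  set x' := stepX N x with hx'def
  have e : t' - ((T + (n + 1 : ℕ) : ℝ) : ℂ)
      = (t0 - T) + (Theta N x' t' - Theta N x0 t0 - ((n + 1 : ℕ) : ℂ))
        + 11 / 8 * (log (SS N t') - log (SS N t0)) - 3 / 4 * (x' - x0)
        - 11 / 16 * (LL N * (t' - t0)) := by
    unfold Theta; push_cast; ring
  rw [e]
  have b1 : ‖(11 / 8 : ℂ) * (log (SS N t') - log (SS N t0))‖ ≤ 11 / 8 * (m' / 250 + 4) := by
    rw [norm_mul]
    have : ‖(11 / 8 : ℂ)‖ = 11 / 8 := by norm_num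
    rw [this]
    gcongr
    linarith
  have b2 : ‖(3 / 4 : ℂ) * (x' - x0)‖ ≤ 1 := by
    rw [norm_mul]
    have : ‖(3 / 4 : ℂ)‖ = 3 / 4 := by norm_num
    rw [this]
    have := norm_sub_le x' x0
    linarith
  have b3 : ‖(11 / 16 : ℂ) * (LL N * (t' - t0))‖ ≤ 6 := by
    rw [norm_mul, norm_mul]
    have : ‖(11 / 16 : ℂ)‖ = 11 / 16 := by norm_num
    rw [this]
    have h5 : ‖t' - t0‖ ≤ 13 / 10 * N.re := by
      have e5 : t' - t0 = (t' - ((T + (n + 1 : ℕ) : ℝ) : ℂ)) + (((n + 1 : ℕ) : ℝ) : ℂ)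
          - (t0 - T) := by push_cast; ring
      rw [e5]
      refine (norm_sub_le _ _).trans ?_
      refine (add_le_add_left (norm_add_le _ _) _).trans ?_
      rw [norm_real, Real.norm_of_nonneg (Nat.cast_nonneg _)]
      push_cast
      push_cast at hcl'
      linarith
    calc 11 / 16 * (‖LL N‖ * ‖t' - t0‖) ≤ 11 / 16 * ((63 / 10 / N.re) * (13 / 10 * N.re)) := by
          gcongr
      _ = 11 / 16 * (63 / 10) * (13 / 10) := by field_simp
      _ ≤ 6 := by norm_num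
  calc _ ≤ ‖(t0 - T) + (Theta N x' t' - Theta N x0 t0 - ((n + 1 : ℕ) : ℂ))
        + 11 / 8 * (log (SS N t') - log (SS N t0)) - 3 / 4 * (x' - x0)‖
        + ‖(11 / 16 : ℂ) * (LL N * (t' - t0))‖ := norm_sub_le _ _
    _ ≤ (‖(t0 - T) + (Theta N x' t' - Theta N x0 t0 - ((n + 1 : ℕ) : ℂ))
        + 11 / 8 * (log (SS N t') - log (SS N t0))‖ + ‖(3 / 4 : ℂ) * (x' - x0)‖)
        + ‖(11 / 16 : ℂ) * (LL N * (t' - t0))‖ := by gcongr; exact norm_sub_le _ _
    _ ≤ ((‖t0 - T‖ + ‖(Theta N x' t' - Theta N x0 t0 - ((n + 1 : ℕ) : ℂ))‖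
        + ‖11 / 8 * (log (SS N t') - log (SS N t0))‖) + ‖(3 / 4 : ℂ) * (x' - x0)‖)
        + ‖(11 / 16 : ℂ) * (LL N * (t' - t0))‖ := by gcongr; exact norm_add₃_le
    _ ≤ ((1 + 1 + 11 / 8 * (m' / 250 + 4)) + 1) + 6 := by gcongr
    _ ≤ 1 / 4 * m' := by linarith

lemma transit {C : ℝ}
    (hCerr : ∀ L x : ℂ, L ≠ 0 → ‖L‖ ≤ 1 / 20 → ‖x‖ ≤ 1 / 10 →
      ‖err L x‖ ≤ C * (‖x‖ ^ 3 + ‖L‖ * ‖x‖))
    {N : ℂ} {T : ℝ} {X t : ℕ → ℂ} (h : TrHyp N T C (X 0) (t 0))
    (hX : ∀ n, X (n + 1) = stepX N (X n)) (ht : ∀ n, t (n + 1) = stepT N (X n) (t n)) (n : ℕ)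
    (hn : T + n ≤ N.re - T) : TrInv N T C (X 0) (t 0) (X n) (t n) n := by
  induction n with
  | zero => exact tr_base h
  | succ n ih =>
    rw [hX, ht]
    apply tr_step hCerr h (ih _) hn
    push_cast at hn ⊢
    linarith

end MPc6f924
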