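import Mathlib
import Pool.Agent.Work.MP_c6f924_an.Defs
import Pool.Agent.Work.MP_c6f924_an.Transit

/-!
# Limits of orbits which went through the gate
-/

namespace MPc6f924

open Complex Filter Topology

/-- the real orbit of `1/2` under `x ↦ x^2 - x`. -/
noncomputable def aorb : ℕ → ℝ
  | 0 => 1 / 2
  | n + 1 => aorb n ^ 2 - aorb n

lemma aorb_facts (n : ℕ) : -1 / 4 ≤ aorb n ∧ aorb n ≤ 1 / 2 ∧ aorb n ≠ 0 ∧
    7 / 10 * n ≤ (1 + aorb n) / (2 * aorb n ^ 2) := by
  induction n with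
  | zero => norm_num [aorb]
  | succ n ih =>
    obtain ⟨h1, h2, h3, h4⟩ := ih
    set a := aorb n with ha
    have e : aorb (n + 1) = a ^ 2 - a := by rw [aorb]
    rw [e]
    have h5 : 0 < (1 - a) ^ 2 := by
      have : 0 < 1 - a := by linarith
      positivity
    have h6 : a ^ 2 - a ≠ 0 := by
      have : a ^ 2 - a = a * (a - 1) := by ring
      rw [this]
      apply mul_ne_zero h3
      intro h; linarith
    refine ⟨by nlinarith [sq_nonneg (a - 1 / 2)], by nlinarith, h6, ?_⟩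
    have e2 : (1 + (a ^ 2 - a)) / (2 * (a ^ 2 - a) ^ 2)
        = (1 + a) / (2 * a ^ 2) + (2 - a) / (2 * (1 - a) ^ 2) := by
      have h7 : (a ^ 2 - a) ^ 2 = a ^ 2 * (1 - a) ^ 2 := by ring
      rw [h7, div_add_div _ _ (by positivity) (by positivity), div_eq_div_iff (by positivity)
        (by positivity)]
      ring
    rw [e2]
    have h8 : 7 / 10 ≤ (2 - a) / (2 * (1 - a) ^ 2) := by
      rw [le_div_iff₀ (by positivity)]
      nlinarith
    push_cast
    linarith

lemma exists_start (T0 : ℝ) : ∃ n : ℕ, T0 ≤ (1 + aorb n) / (2 * aorb n ^ 2) ∧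
    |aorb n| ≤ 1 / 40 ∧ aorb n ≠ 0 := by
  obtain ⟨n, hn⟩ := exists_nat_ge (max T0 1500 / (7 / 10))
  obtain ⟨h1, h2, h3, h4⟩ := aorb_facts n
  rw [div_le_iff₀ (by norm_num)] at hn
  have h5 : max T0 1500 ≤ (1 + aorb n) / (2 * aorb n ^ 2) := by linarith
  refine ⟨n, (le_max_left _ _).trans h5, ?_, h3⟩
  have h6 : (1500 : ℝ) ≤ (1 + aorb n) / (2 * aorb n ^ 2) := (le_max_right _ _).trans h5
  have h7 : 0 < aorb n ^ 2 := by positivity
  rw [le_div_iff₀ (by positivity)] at h6
  rw [abs_le]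
  constructor <;> nlinarith

/-- iterates of `x ↦ x^2 - (1-q) x`. -/
noncomputable def xit (q x : ℂ) : ℕ → ℂ
  | 0 => x
  | n + 1 => xit q x n ^ 2 - (1 - q) * xit q x n

lemma xorb_add (q : ℂ) (k n : ℕ) : xorb q (k + n) = xit q (xorb q k) n := by
  induction n with
  | zero => rfl
  | succ n ih => rw [← add_assoc, xorb, ih, xit]

lemma continuous_xit (n : ℕ) : Continuous (fun p : ℂ × ℂ => xit p.1 p.2 n) := by
  induction n with
  | zero => simpa [xit] using continuous_snd
  | succ n ih =>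
    simp only [xit]
    fun_prop

lemma xorb_eq_xit (q : ℂ) (n : ℕ) : xorb q n = xit q ((1 - q) / 2) n := by
  have := xorb_add q 0 n
  rw [zero_add] at this
  rw [this]; rfl

lemma xit_aorb (n : ℕ) : xit 0 (1 / 2) n = aorb n := by
  induction n with
  | zero => simp [xit, aorb]
  | succ n ih => rw [xit, ih, aorb]; push_cast; ring

section limits

variable {ι : Type*} {F : Filter ι} {N : ι → ℂ}

lemma tendsto_LL (hA : Tendsto (fun j => (N j).re) F atTop) :
    Tendsto (fun j => LL (N j)) F (𝓝 0) := by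
  rw [tendsto_zero_iff_norm_tendsto_zero]
  have h1 : Tendsto (fun j => 63 / 10 / (N j).re) F (𝓝 0) := hA.const_div_atTop _
  refine squeeze_zero' (Eventually.of_forall fun j => norm_nonneg _) ?_ h1
  filter_upwards [hA.eventually_ge_atTop 2000] with j hj using (LL_small hj).1

lemma tendsto_qq (hA : Tendsto (fun j => (N j).re) F atTop) :
    Tendsto (fun j => qq (N j)) F (𝓝 0) := by
  have h := (tendsto_LL hA)
  rw [tendsto_zero_iff_norm_tendsto_zero] at h ⊢
  refine squeeze_zero' (Eventually.of_forall fun j => norm_nonneg _) ?_ h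
  filter_upwards [hA.eventually_ge_atTop 2000] with j hj using qq_small hj

lemma N_ne {N : ℂ} (hA : 2000 ≤ N.re) : N ≠ 0 := by
  intro h; rw [h] at hA; simp at hA; linarith

lemma tendsto_qL (hA : Tendsto (fun j => (N j).re) F atTop) :
    Tendsto (fun j => qq (N j) / LL (N j)) F (𝓝 (1 / 2)) := by
  have h := (tendsto_LL hA)
  rw [tendsto_zero_iff_norm_tendsto_zero] at h
  rw [tendsto_iff_norm_sub_tendsto_zero]
  have h2 : Tendsto (fun j => ‖LL (N j)‖ / 4) F (𝓝 0) := by simpa using h.div_const 4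
  refine squeeze_zero' (Eventually.of_forall fun j => norm_nonneg _) ?_ h2
  filter_upwards [hA.eventually_ge_atTop 2000] with j hj
  exact q_L ((LL_small hj).2.trans (by norm_num)) (LL_ne (N_ne hj))

lemma tendsto_expm1 (hA : Tendsto (fun j => (N j).re) F atTop) {w : ι → ℂ} {W : ℂ}
    (hw : Tendsto w F (𝓝 W)) :
    Tendsto (fun j => (exp (LL (N j) * w j) - 1) / LL (N j)) F (𝓝 W) := by
  have hL := tendsto_LL hA
  have h1 : Tendsto (fun j => LL (N j) * w j) F (𝓝 0) := by
    simpa using hL.mul hw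
  have h1' := h1.norm
  rw [norm_zero] at h1'
  have h2 : Tendsto (fun j => (exp (LL (N j) * w j) - 1 - LL (N j) * w j) / LL (N j)) F (𝓝 0) := by
    rw [tendsto_zero_iff_norm_tendsto_zero]
    have h3 : Tendsto (fun j => ‖LL (N j) * w j‖ * ‖w j‖) F (𝓝 0) := by
      simpa using h1'.mul hw.norm
    refine squeeze_zero' (Eventually.of_forall fun j => norm_nonneg _) ?_ h3
    filter_upwards [hA.eventually_ge_atTop 2000, h1'.eventually_le_const (u := 1) (by norm_num)]
      with j hj hj2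
    have hpos : 0 < ‖LL (N j)‖ := norm_pos_iff.mpr (LL_ne (N_ne hj))
    rw [norm_div, div_le_iff₀ hpos]
    refine (norm_exp_sub_one_sub_id_le hj2).trans (le_of_eq ?_)
    rw [norm_mul]; ring
  have h3 := h2.add hw
  rw [zero_add] at h3
  refine h3.congr' ?_
  filter_upwards [hA.eventually_ge_atTop 2000] with j hj
  have := LL_ne (N_ne hj)
  field_simp
  ring

lemma tendsto_logq (hA : Tendsto (fun j => (N j).re) F atTop) {y : ι → ℂ} {Y : ℂ}
    (hy : Tendsto y F (𝓝 Y)) :
    Tendsto (fun j => log (1 + qq (N j) * y j) / LL (N j)) F (𝓝 (Y / 2)) := by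
  have hq := tendsto_qq hA
  have h1 : Tendsto (fun j => qq (N j) * y j) F (𝓝 0) := by
    simpa using hq.mul hy
  have h1' := h1.norm
  rw [norm_zero] at h1'
  have h2 : Tendsto (fun j => (log (1 + qq (N j) * y j) - qq (N j) * y j) / LL (N j)) F
      (𝓝 0) := by
    rw [tendsto_zero_iff_norm_tendsto_zero]
    have h3 : Tendsto (fun j => ‖qq (N j) * y j‖ * ‖y j‖) F (𝓝 0) := by
      simpa using h1'.mul hy.norm
    refine squeeze_zero' (Eventually.of_forall fun j => norm_nonneg _) ?_ h3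
    filter_upwards [hA.eventually_ge_atTop 2000, h1'.eventually_le_const (u := 1 / 2) (by norm_num)]
      with j hj hj2
    have hpos : 0 < ‖LL (N j)‖ := norm_pos_iff.mpr (LL_ne (N_ne hj))
    rw [norm_div, div_le_iff₀ hpos]
    refine (log_sub_le hj2).trans ?_
    rw [norm_mul]
    have := qq_small hj
    calc (‖qq (N j)‖ * ‖y j‖) ^ 2 = ‖qq (N j)‖ * ‖y j‖ * ‖y j‖ * ‖qq (N j)‖ := by ring
      _ ≤ ‖qq (N j)‖ * ‖y j‖ * ‖y j‖ * ‖LL (N j)‖ := by gcongr
  have h3 := h2.add ((tendsto_qL hA).mul hy)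
  rw [zero_add, one_div_mul_eq_div] at h3
  refine h3.congr' ?_
  filter_upwards [hA.eventually_ge_atTop 2000] with j hj
  have := LL_ne (N_ne hj)
  field_simp
  ring

lemma norm_sin_sub_le {z : ℂ} (hz : ‖z‖ ≤ 1) : ‖sin z - z‖ ≤ ‖z‖ ^ 2 := by
  have h1 := norm_exp_sub_one_sub_id_le (x := -z * I) (by simpa using hz)
  have h2 := norm_exp_sub_one_sub_id_le (x := z * I) (by simpa using hz)
  have e : sin z - z = ((exp (-z * I) - 1 - (-z * I)) - (exp (z * I) - 1 - z * I)) * I / 2 := by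
    rw [Complex.sin]
    have := I_sq
    linear_combination (-z) * this
  rw [e, norm_div, norm_mul, norm_I, mul_one]
  simp only [Complex.norm_ofNat]
  have h3 := norm_sub_le (exp (-z * I) - 1 - (-z * I)) (exp (z * I) - 1 - z * I)
  simp only [norm_mul, norm_neg, norm_I, mul_one] at h1 h2
  linarith

lemma tendsto_SS (hA : Tendsto (fun j => (N j).re) F atTop) {w : ι → ℂ} {W : ℂ}
    (hw : Tendsto w F (𝓝 W)) : Tendsto (fun j => SS (N j) (w j)) F (𝓝 W) := by
  have h0 : Tendsto (fun j => ‖Real.pi * (w j / N j)‖) F (𝓝 0) := by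
    have h1 : Tendsto (fun j => Real.pi * ‖w j‖ * (1 / (N j).re)) F (𝓝 0) := by
      have := (hw.norm.const_mul Real.pi).mul (hA.const_div_atTop 1)
      simpa using this
    refine squeeze_zero' (Eventually.of_forall fun j => norm_nonneg _) ?_ h1
    filter_upwards [hA.eventually_ge_atTop 2000] with j hj
    rw [norm_mul, norm_div, norm_real, Real.norm_of_nonneg Real.pi_nonneg, mul_one_div,
      mul_div_assoc]
    have := norm_N_ge (N := N j)
    have : 0 < (N j).re := by linarith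
    have := Real.pi_pos
    gcongr
  have h2 : Tendsto (fun j => SS (N j) (w j) - w j) F (𝓝 0) := by
    rw [tendsto_zero_iff_norm_tendsto_zero]
    have h3 : Tendsto (fun j => ‖w j‖ * ‖Real.pi * (w j / N j)‖) F (𝓝 0) := by
      simpa using hw.norm.mul h0
    refine squeeze_zero' (Eventually.of_forall fun j => norm_nonneg _) ?_ h3
    filter_upwards [hA.eventually_ge_atTop 2000, h0.eventually_le_const (u := 1) (by norm_num)]
      with j hj hj2
    have hN := N_ne hj
    have hpi : (Real.pi : ℂ) ≠ 0 := by exact_mod_cast Real.pi_ne_zero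
    have e : SS (N j) (w j) - w j
        = N j / Real.pi * (sin (Real.pi * (w j / N j)) - Real.pi * (w j / N j)) := by
      unfold SS
      field_simp
    rw [e, norm_mul]
    have h5 := norm_sin_sub_le hj2
    have e2 : ‖w j‖ = ‖N j / Real.pi‖ * ‖Real.pi * (w j / N j)‖ := by
      rw [← norm_mul]; congr 1; field_simp
    calc _ ≤ ‖N j / Real.pi‖ * ‖Real.pi * (w j / N j)‖ ^ 2 := by gcongr
      _ = (‖N j / Real.pi‖ * ‖Real.pi * (w j / N j)‖) * ‖Real.pi * (w j / N j)‖ := by ring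
      _ = _ := by rw [← e2]
  have := h2.add hw
  simpa using this

end limits

lemma SS_reflect {N s : ℂ} (hN : N ≠ 0) : SS N (N - s) = SS N s := by
  unfold SS
  have : (Real.pi : ℂ) * ((N - s) / N) = Real.pi - Real.pi * (s / N) := by
    field_simp
  rw [this, sin_pi_sub]

lemma Theta_reflect {N x s : ℂ} (hN : N ≠ 0) : Theta N x (N - s)
    = N + 11 / 8 * Real.pi * I - s * (1 + 11 / 16 * LL N) - 11 / 8 * log (SS N s)
      + 3 / 4 * x := by
  unfold Theta
  rw [SS_reflect hN]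
  have : N * LL N = 2 * Real.pi * I := by
    unfold LL; field_simp
  linear_combination 11 / 16 * this

lemma exp_reflect {N s : ℂ} (hN : N ≠ 0) : exp (LL N * (N - s)) = exp (LL N * (-s)) := by
  have : LL N * (N - s) = LL N * (-s) + 2 * Real.pi * I := by
    unfold LL; field_simp; ring
  rw [this, exp_add, exp_two_pi_mul_I, mul_one]

lemma transit_end {C : ℝ}
    (hCerr : ∀ L x : ℂ, L ≠ 0 → ‖L‖ ≤ 1 / 20 → ‖x‖ ≤ 1 / 10 →
      ‖err L x‖ ≤ C * (‖x‖ ^ 3 + ‖L‖ * ‖x‖))
    {N : ℂ} {T : ℝ} {X : ℕ → ℂ} {t0 : ℂ} (h : TrHyp N T C (X 0) t0)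
    (hX : ∀ n, X (n + 1) = stepX N (X n)) :
    ∃ (K : ℕ) (s : ℂ), ‖X K‖ ≤ 1 / 20 ∧ (3 * T - 1) / 4 ≤ s.re ∧ ‖s‖ ≤ 2 * T ∧
      X K ^ 2 * (exp (LL N * (-s)) - 1) = qq N * (1 + X K) ∧
      |(Theta N (X K) (N - s) - Theta N (X 0) t0).im| ≤ C * (131 / √T) := by
  set t : ℕ → ℂ := fun n => Nat.rec t0 (fun n t => stepT N (X n) t) n with ht
  have ht0 : t 0 = t0 := rfl
  have hts : ∀ n, t (n + 1) = stepT N (X n) (t n) := fun n => rfl
  have hT := h.hT
  have hA := h.hA
  have him := h.him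
  have hN : N ≠ 0 := N_ne (by linarith)
  set K := ⌊N.re - 2 * T⌋₊ with hK
  have hK1 : (K : ℝ) ≤ N.re - 2 * T := Nat.floor_le (by linarith)
  have hK2 : N.re - 2 * T < K + 1 := Nat.lt_floor_add_one _
  rw [← ht0] at h
  obtain ⟨hcl, hxs, hrel, hth⟩ := transit hCerr h hX hts K (by linarith)
  have hclose : ‖t K - ((T + K : ℝ) : ℂ)‖ ≤ (T + 1) / 4 := by
    refine hcl.trans ?_
    have := min_le_right (T + (K : ℝ)) (N.re - (T + K))
    linarith
  have hre : |(t K).re - (T + K)| ≤ (T + 1) / 4 := by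
    have := (abs_re_le_norm (t K - ((T + K : ℝ) : ℂ))).trans hclose
    rwa [sub_re, ofReal_re] at this
  rw [abs_le] at hre
  refine ⟨K, N - t K, hxs, ?_, ?_, ?_, ?_⟩
  · rw [sub_re]
    linarith [hre.2]
  · have e : N - t K = ((N.re - (T + K) : ℝ) : ℂ) + N.im * I - (t K - ((T + K : ℝ) : ℂ)) := by
      conv_lhs => rw [← re_add_im N]
      push_cast
      ring
    rw [e]
    refine (norm_sub_le _ _).trans ?_
    refine (add_le_add_left (norm_add_le _ _) _).trans ?_
    rw [norm_real, norm_mul, norm_I, mul_one, norm_real, Real.norm_eq_abs, Real.norm_eq_abs,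
      abs_of_nonneg (by linarith : (0 : ℝ) ≤ N.re - (T + K))]
    linarith
  · have : LL N * (-(N - t K)) = LL N * t K - 2 * Real.pi * I := by
      unfold LL; field_simp; ring
    rw [this, exp_sub, exp_two_pi_mul_I, div_one]
    exact hrel
  · rw [sub_sub_cancel]
    have h1 : (Theta N (X K) (t K) - Theta N (X 0) t0).im
        = (Theta N (X K) (t K) - Theta N (X 0) (t 0) - K).im := by
      simp [ht0]
    rw [h1]
    refine (abs_im_le_norm _).trans (hth.trans ?_)
    have := h.hC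
    gcongr
    exact pot_le (by linarith) (by linarith)

lemma limit_lemma {C : ℝ} (hC : 0 < C)
    (hCerr : ∀ L x : ℂ, L ≠ 0 → ‖L‖ ≤ 1 / 20 → ‖x‖ ≤ 1 / 10 →
      ‖err L x‖ ≤ C * (‖x‖ ^ 3 + ‖L‖ * ‖x‖))
    {σ : ℝ} (hσ : σ ≤ 2) (T0 : ℝ) {η : ℝ} (hη : 0 < η) {N : ℕ → ℂ}
    (hA : Tendsto (fun j => (N j).re) atTop atTop)
    (hν : ∀ j, |(N j).im + 11 / 8 * Real.pi| ≤ σ)
    (hb : ∀ j n, ‖xorb (qq (N j)) n‖ ≤ 3) :
    ∃ x t : ℂ, T0 ≤ t.re ∧ ‖x‖ ≤ 1 / 20 ∧ -2 * t * x ^ 2 = 1 + x ∧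
      |(t + 11 / 8 * log t - 3 / 4 * x).im| ≤ σ + η ∧ ∀ n, ‖xit 0 x n‖ ≤ 3 := by
  -- choice of the starting point
  have hT1 : ∃ T1 : ℝ, ∀ T : ℝ, T1 ≤ T → C * (131 / √T) ≤ min 1 η := by
    have h1 : Tendsto (fun T : ℝ => C * (131 / √T)) atTop (𝓝 0) := by
      have := (Real.tendsto_sqrt_atTop.const_div_atTop 131).const_mul C
      simpa using this
    have h2 := h1.eventually_le_const (u := min 1 η) (by positivity)
    exact eventually_atTop.mp h2
  obtain ⟨T1, hT1⟩ := hT1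
  obtain ⟨n1, hn1, ha, ha0⟩ := exists_start (max T1 (max 3000 (2 * T0 + 2)))
  set a := aorb n1 with hadef
  set T := (1 + a) / (2 * a ^ 2) with hTdef
  have hTT1 : T1 ≤ T := (le_max_left _ _).trans hn1
  have hT3 : 3000 ≤ T := (le_max_left _ _).trans ((le_max_right _ _).trans hn1)
  have hT0 : 2 * T0 + 2 ≤ T := (le_max_right _ _).trans ((le_max_right _ _).trans hn1)
  have hCT := hT1 T hTT1
  have hTpos : 0 < T := by linarith
  -- limits
  set x0 : ℕ → ℂ := fun j => xorb (qq (N j)) n1 with hx0def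
  have hq0 := tendsto_qq hA
  have hx0 : Tendsto x0 atTop (𝓝 (a : ℂ)) := by
    have h1 : Tendsto (fun j => ((qq (N j), (1 - qq (N j)) / 2) : ℂ × ℂ)) atTop
        (𝓝 ((0, (1 - 0) / 2) : ℂ × ℂ)) :=
      hq0.prodMk_nhds ((tendsto_const_nhds.sub hq0).div_const 2)
    have h2 := ((continuous_xit n1).tendsto _).comp h1
    simp only [sub_zero] at h2
    rw [xit_aorb] at h2
    refine h2.congr fun j => ?_
    simp only [Function.comp, hx0def]
    rw [xorb_eq_xit]
  have hac : (a : ℂ) ≠ 0 := by exact_mod_cast ha0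
  set y : ℕ → ℂ := fun j => (1 + x0 j) / x0 j ^ 2 with hydef
  have hy : Tendsto y atTop (𝓝 ((1 + (a : ℂ)) / (a : ℂ) ^ 2)) :=
    (tendsto_const_nhds.add hx0).div (hx0.pow 2) (pow_ne_zero 2 hac)
  set t0 : ℕ → ℂ := fun j => log (1 + qq (N j) * y j) / LL (N j) with ht0def
  have ht0 : Tendsto t0 atTop (𝓝 (T : ℂ)) := by
    have h1 := tendsto_logq hA hy
    have e : (1 + (a : ℂ)) / (a : ℂ) ^ 2 / 2 = (T : ℂ) := by
      rw [hTdef]; push_cast; field_simp
    rw [e] at h1
    exact h1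
  have hqy : Tendsto (fun j => 1 + qq (N j) * y j) atTop (𝓝 1) := by
    have := (hq0.mul hy).const_add 1
    simpa using this
  have hpi := Real.pi_gt_d2
  have hpi2 := Real.pi_lt_d2
  have hev : ∀ᶠ j in atTop, ∃ p : ℕ × ℂ, ‖xorb (qq (N j)) (n1 + p.1)‖ ≤ 1 / 20 ∧
      (3 * T - 1) / 4 ≤ p.2.re ∧ ‖p.2‖ ≤ 2 * T ∧
      xorb (qq (N j)) (n1 + p.1) ^ 2 * (exp (LL (N j) * (-p.2)) - 1)
        = qq (N j) * (1 + xorb (qq (N j)) (n1 + p.1)) ∧
      |(Theta (N j) (xorb (qq (N j)) (n1 + p.1)) (N j - p.2) - Theta (N j) (x0 j) (t0 j)).im|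
        ≤ C * (131 / √T) := by
    have e1 : ∀ᶠ j in atTop, ‖t0 j - T‖ ≤ 1 := by
      have := (tendsto_iff_norm_sub_tendsto_zero.mp ht0)
      exact this.eventually_le_const (by norm_num)
    have e2 : ∀ᶠ j in atTop, ‖x0 j‖ ≤ 1 / 20 := by
      have := hx0.norm
      refine this.eventually_le_const ?_
      rw [norm_real, Real.norm_eq_abs]
      linarith
    have e3 : ∀ᶠ j in atTop, x0 j ≠ 0 := hx0.eventually_ne hac
    have e4 : ∀ᶠ j in atTop, 1 + qq (N j) * y j ≠ 0 := hqy.eventually_ne one_ne_zero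
    filter_upwards [e1, e2, e3, e4, hA.eventually_ge_atTop (2 * T),
      hA.eventually_ge_atTop 2000] with j h1 h2 h3 h4 h5 h6
    have hN := N_ne h6
    have hL := LL_ne hN
    have hyp : TrHyp (N j) T C ((fun n => xorb (qq (N j)) (n1 + n)) 0) (t0 j) := by
      refine ⟨hT3, hC, hCT.trans (min_le_left _ _), h5, ?_, h1, h2, ?_⟩
      · have := abs_le.mp (hν j)
        rw [abs_le]
        constructor <;> linarith [this.1, this.2]
      · have e : exp (LL (N j) * t0 j) = 1 + qq (N j) * y j := by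
          rw [ht0def]
          simp only
          rw [mul_div_cancel₀ _ hL, exp_log h4]
        unfold Rel
        rw [e]
        simp only [hydef, add_zero]
        change x0 j ^ 2 * (1 + qq (N j) * ((1 + x0 j) / x0 j ^ 2) - 1) = qq (N j) * (1 + x0 j)
        field_simp
        ring
    obtain ⟨K, s, hs⟩ := transit_end hCerr (X := fun n => xorb (qq (N j)) (n1 + n)) hyp
      (fun n => by
        simp only [stepX]
        rw [← add_assoc, xorb])
    exact ⟨(K, s), hs⟩
  obtain ⟨f, hf⟩ := hev.choice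
  -- ultrafilter
  set U : Ultrafilter ℕ := Filter.hyperfilter ℕ
  have hU : (U : Filter ℕ) ≤ atTop := Nat.hyperfilter_le_atTop
  have hfU := hU hf
  have hX : ∃ x : ℂ, Tendsto (fun j => xorb (qq (N j)) (n1 + (f j).1)) U (𝓝 x) := by
    have h1 : ((U.map (fun j => xorb (qq (N j)) (n1 + (f j).1)) : Ultrafilter ℂ) : Filter ℂ)
        ≤ 𝓟 (Metric.closedBall (0 : ℂ) (1 / 20)) := by
      rw [le_principal_iff, Ultrafilter.coe_map, mem_map]
      filter_upwards [hfU] with j hj
      simpa using hj.1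
    obtain ⟨x, -, hx⟩ := (isCompact_closedBall (0 : ℂ) (1 / 20)).ultrafilter_le_nhds _ h1
    exact ⟨x, hx⟩
  have hS : ∃ t : ℂ, Tendsto (fun j => (f j).2) U (𝓝 t) := by
    have h1 : ((U.map (fun j => (f j).2) : Ultrafilter ℂ) : Filter ℂ)
        ≤ 𝓟 (Metric.closedBall (0 : ℂ) (2 * T)) := by
      rw [le_principal_iff, Ultrafilter.coe_map, mem_map]
      filter_upwards [hfU] with j hj
      simpa using hj.2.2.1
    obtain ⟨x, -, hx⟩ := (isCompact_closedBall (0 : ℂ) (2 * T)).ultrafilter_le_nhds _ h1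
    exact ⟨x, hx⟩
  obtain ⟨x, hx⟩ := hX
  obtain ⟨t, ht⟩ := hS
  have hAU := hA.mono_left hU
  refine ⟨x, t, ?_, ?_, ?_, ?_, ?_⟩
  · have h1 : Tendsto (fun j => ((f j).2).re) U (𝓝 t.re) :=
      (continuous_re.tendsto _).comp ht
    refine ge_of_tendsto h1 ?_
    filter_upwards [hfU] with j hj
    linarith [hj.2.1]
  · refine le_of_tendsto hx.norm ?_
    filter_upwards [hfU] with j hj using hj.1
  · have h1 : Tendsto (fun j => xorb (qq (N j)) (n1 + (f j).1) ^ 2
        * ((exp (LL (N j) * (-(f j).2)) - 1) / LL (N j))) U (𝓝 (x ^ 2 * (-t))) :=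
      (hx.pow 2).mul (tendsto_expm1 hAU ht.neg)
    have h2 : Tendsto (fun j => qq (N j) / LL (N j) * (1 + xorb (qq (N j)) (n1 + (f j).1))) U
        (𝓝 (1 / 2 * (1 + x))) := (tendsto_qL hAU).mul (tendsto_const_nhds.add hx)
    have h3 : x ^ 2 * (-t) = 1 / 2 * (1 + x) := by
      refine tendsto_nhds_unique_of_eventuallyEq h1 h2 ?_
      filter_upwards [hfU] with j hj
      rw [← mul_div_assoc, hj.2.2.2.1]
      ring
    linear_combination 2 * h3
  · have hpos : 0 < t.re := by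
      have h1 : Tendsto (fun j => ((f j).2).re) U (𝓝 t.re) :=
        (continuous_re.tendsto _).comp ht
      have : (3 * T - 1) / 4 ≤ t.re := by
        refine ge_of_tendsto h1 ?_
        filter_upwards [hfU] with j hj using hj.2.1
      linarith
    have hLU := tendsto_LL hAU
    have hx0U := hx0.mono_left hU
    have ht0U := ht0.mono_left hU
    have l1 : Tendsto (fun j => log (SS (N j) ((f j).2))) U (𝓝 (log t)) :=
      (tendsto_SS hAU ht).clog (mem_slitPlane_iff.mpr (Or.inl hpos))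
    have l2 : Tendsto (fun j => log (SS (N j) (t0 j))) U (𝓝 (log (T : ℂ))) :=
      (tendsto_SS hAU ht0U).clog (mem_slitPlane_iff.mpr (Or.inl (by simpa using hTpos)))
    have h1 : Tendsto (fun j =>
        (- (f j).2 * (1 + 11 / 16 * LL (N j)) - 11 / 8 * log (SS (N j) ((f j).2))
          + 3 / 4 * xorb (qq (N j)) (n1 + (f j).1))
        - (t0 j * (1 + 11 / 16 * LL (N j)) - 11 / 8 * log (SS (N j) (t0 j)) + 3 / 4 * x0 j)) U
        (𝓝 ((-t * (1 + 11 / 16 * 0) - 11 / 8 * log t + 3 / 4 * x)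
          - (T * (1 + 11 / 16 * 0) - 11 / 8 * log (T : ℂ) + 3 / 4 * a))) := by
      refine Tendsto.sub ?_ ?_
      · exact ((ht.neg.mul ((hLU.const_mul _).const_add _)).sub (l1.const_mul _)).add
          (hx.const_mul _)
      · exact ((ht0U.mul ((hLU.const_mul _).const_add _)).sub (l2.const_mul _)).add
          (hx0U.const_mul _)
    have h2 := ((continuous_im.tendsto _).comp h1).abs
    have e : |((-t * (1 + 11 / 16 * 0) - 11 / 8 * log t + 3 / 4 * x)
          - (T * (1 + 11 / 16 * 0) - 11 / 8 * log (T : ℂ) + 3 / 4 * a)).im|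
        = |(t + 11 / 8 * log t - 3 / 4 * x).im| := by
      rw [← abs_neg]
      congr 1
      have e1 : (log (T : ℂ)).im = 0 := by
        rw [← ofReal_log hTpos.le, ofReal_im]
      have e2 : ((11 / 8 : ℂ) * log (T : ℂ)).im = 0 := by
        rw [← ofReal_log hTpos.le]
        have : ((11 / 8 : ℂ) * ((Real.log T : ℝ) : ℂ)) = ((11 / 8 * Real.log T : ℝ) : ℂ) := by
          push_cast; ring
        rw [this, ofReal_im]
      have e3 : ((3 / 4 : ℂ) * (a : ℂ)).im = 0 := by
        have : ((3 / 4 : ℂ) * (a : ℂ)) = ((3 / 4 * a : ℝ) : ℂ) := by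
          push_cast; ring
        rw [this, ofReal_im]
      simp only [mul_zero, add_zero, mul_one, sub_im, add_im, neg_im, e2, e3, ofReal_im]
      ring
    rw [e] at h2
    refine le_of_tendsto h2 ?_
    filter_upwards [hfU, hAU.eventually_ge_atTop 2000] with j hj hj2
    have hN := N_ne hj2
    have h3 := hj.2.2.2.2
    rw [Theta_reflect hN] at h3
    have h4 := hν j
    have e4 : (N j + 11 / 8 * Real.pi * I - (f j).2 * (1 + 11 / 16 * LL (N j))
        - 11 / 8 * log (SS (N j) (f j).2) + 3 / 4 * xorb (qq (N j)) (n1 + (f j).1)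
        - Theta (N j) (x0 j) (t0 j)).im
        = ((N j).im + 11 / 8 * Real.pi) + ((- (f j).2 * (1 + 11 / 16 * LL (N j))
          - 11 / 8 * log (SS (N j) ((f j).2))
          + 3 / 4 * xorb (qq (N j)) (n1 + (f j).1))
        - (t0 j * (1 + 11 / 16 * LL (N j)) - 11 / 8 * log (SS (N j) (t0 j)) + 3 / 4 * x0 j)).im := by
      unfold Theta
      have e5 : (11 / 8 * Real.pi * I : ℂ) = ((11 / 8 * Real.pi : ℝ) : ℂ) * I := by
        push_cast; ring
      rw [e5]
      simp only [sub_im, add_im, neg_mul, neg_im]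
      rw [im_ofReal_mul, I_im]
      ring
    rw [e4] at h3
    simp only [Function.comp]
    have h5 := hCT.trans (min_le_right _ _)
    rw [abs_le] at h3 h4 ⊢
    constructor <;> linarith [h3.1, h3.2, h4.1, h4.2]
  · intro n
    have h1 : Tendsto (fun j => ((qq (N j), xorb (qq (N j)) (n1 + (f j).1)) : ℂ × ℂ)) U
        (𝓝 ((0, x) : ℂ × ℂ)) := (hq0.mono_left hU).prodMk_nhds hx
    have h2 := (((continuous_xit n).tendsto _).comp h1).norm
    refine le_of_tendsto h2 (Eventually.of_forall fun j => ?_)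
    simp only [Function.comp]
    rw [← xorb_add]
    exact hb _ _

end MPc6f924
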