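import Mathlib
import Pool.Agent.Work.MP_c6f924_an.Limit
import Pool.Agent.Work.MP_c6f924_an.Exit

/-!
# The channel at `-3/4`
-/

namespace MPc6f924

open Complex Filter Topology N62a1eb23

lemma xit_eq_gx (x : ℂ) (n : ℕ) : xit 0 x n = gx^[n] x := by
  induction n with
  | zero => rfl
  | succ n ih => rw [xit, ih, Function.iterate_succ_apply', gx]; ring

lemma no_sequence {N : ℕ → ℂ} (hA : Tendsto (fun j => (N j).re) atTop atTop)
    (hν : ∀ j, |(N j).im + 11 / 8 * Real.pi| ≤ 1.179) : ∃ j n, 3 < ‖xorb (qq (N j)) n‖ := by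
  by_contra hcon
  push Not at hcon
  obtain ⟨C, hC, hCerr⟩ := err_bound
  obtain ⟨x, t, h1, h2, h3, h4, h5⟩ := limit_lemma hC hCerr (σ := 1.179) (by norm_num) 60
    (η := 0.001) (by norm_num) hA hν hcon
  have h4' : |(VV x t).im| ≤ 1.18 := by
    unfold VV
    refine h4.trans (by norm_num)
  obtain ⟨n, hn⟩ := escape_channel (x := x) (t := t) h3 h1 (by linarith) h4'
  have := h5 n
  rw [xit_eq_gx] at this
  linarith

/-- the parameter `N` in terms of `q`. -/
noncomputable def NN (q : ℂ) : ℂ := -(Real.pi * I) / log (1 - q)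

lemma log_ne {q : ℂ} (hq : ‖q‖ < 1) (hq0 : q ≠ 0) : log (1 - q) ≠ 0 := by
  have h1 : 1 - q ≠ 0 := by
    intro h
    have : q = 1 := by linear_combination -h
    rw [this] at hq; simp at hq
  intro h
  have h2 := exp_log h1
  rw [h, exp_zero] at h2
  apply hq0
  linear_combination h2

lemma qq_NN {q : ℂ} (hq : ‖q‖ < 1) (hq0 : q ≠ 0) : qq (NN q) = q := by
  have h1 : 1 - q ≠ 0 := by
    intro h
    have : q = 1 := by linear_combination -h
    rw [this] at hq; simp at hq
  have hl := log_ne hq hq0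
  have hpi : (Real.pi : ℂ) ≠ 0 := by exact_mod_cast Real.pi_ne_zero
  have : -LL (NN q) / 2 = log (1 - q) := by
    unfold LL NN
    field_simp
  rw [qq, this, exp_log h1]
  ring

lemma tendsto_NN {q : ℕ → ℂ} (hq : Tendsto q atTop (𝓝 0)) (hq0 : ∀ j, q j ≠ 0) :
    Tendsto (fun j => NN (q j) - Real.pi * I / (q j - q j ^ 2 / 4)) atTop
      (𝓝 (-(3 / 4 * Real.pi) * I)) := by
  have hqn := hq.norm
  rw [norm_zero] at hqn
  have hsmall := hqn.eventually_le_const (u := 1 / 2) (by norm_num)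
  have T1 : Tendsto (fun j => (log (1 - q j) + q j + q j ^ 2 / 2) / q j ^ 2) atTop (𝓝 0) := by
    rw [tendsto_zero_iff_norm_tendsto_zero]
    refine squeeze_zero' (Eventually.of_forall fun j => norm_nonneg _) ?_ hqn
    filter_upwards [hsmall] with j hj
    have hpos : 0 < ‖q j‖ := norm_pos_iff.mpr (hq0 j)
    rw [norm_div, norm_pow, div_le_iff₀ (by positivity)]
    have h3 := norm_log_sub_logTaylor_le 2 (z := -q j) (by rw [norm_neg]; linarith)
    have h4 : logTaylor (2 + 1) (-q j) = -q j - q j ^ 2 / 2 := by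
      rw [logTaylor_succ, logTaylor_succ, logTaylor_succ, logTaylor_zero]
      simp only [Pi.add_apply]
      norm_num
      ring
    rw [h4, norm_neg] at h3
    have h5 : (1 - ‖q j‖)⁻¹ ≤ 2 := by
      rw [inv_le_comm₀ (by linarith) (by norm_num)]
      linarith
    have e : log (1 - q j) + q j + q j ^ 2 / 2 = log (1 + -q j) - (-q j - q j ^ 2 / 2) := by
      rw [← sub_eq_add_neg]; ring
    rw [e]
    refine h3.trans ?_
    calc ‖q j‖ ^ (2 + 1) * (1 - ‖q j‖)⁻¹ / ((2 : ℕ) + 1)
        ≤ ‖q j‖ ^ (2 + 1) * 2 / ((2 : ℕ) + 1) := by gcongr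
      _ ≤ ‖q j‖ * ‖q j‖ ^ 2 := by
        push_cast
        nlinarith [pow_nonneg hpos.le 3]
  have T2 : Tendsto (fun j => ((q j - q j ^ 2 / 4) + log (1 - q j)) / q j ^ 2) atTop
      (𝓝 (-3 / 4)) := by
    have h := T1.add_const (-3 / 4)
    rw [zero_add] at h
    refine h.congr fun j => ?_
    have := hq0 j
    field_simp
    ring
  have T3 : Tendsto (fun j => log (1 - q j) / q j) atTop (𝓝 (-1)) := by
    have h := ((T1.mul hq).sub (hq.div_const 2)).add_const (-1)
    rw [show (0 : ℂ) * 0 - 0 / 2 + -1 = -1 by ring] at h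
    refine h.congr fun j => ?_
    have := hq0 j
    field_simp
    ring
  have T4 : Tendsto (fun j => (q j - q j ^ 2 / 4) / q j) atTop (𝓝 1) := by
    have h := (hq.div_const 4).const_sub 1
    rw [show (1 : ℂ) - 0 / 4 = 1 by ring] at h
    refine h.congr fun j => ?_
    have := hq0 j
    field_simp
  have T5 := (T2.div (T4.mul T3) (by norm_num)).const_mul (-(Real.pi * I))
  have e : -(Real.pi * I) * (-3 / 4 / (1 * -1)) = -(3 / 4 * Real.pi) * I := by ring
  rw [e] at T5
  refine T5.congr' ?_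
  filter_upwards [hsmall] with j hj
  have hl := log_ne (by linarith) (hq0 j)
  have hqj := hq0 j
  have h4 : q j - q j ^ 2 / 4 ≠ 0 := by
    intro h
    have h5 : q j * (1 - q j / 4) = 0 := by linear_combination h
    rcases mul_eq_zero.mp h5 with h6 | h6
    · exact hqj h6
    · have h7 : q j = 4 := by linear_combination -4 * h6
      rw [h7] at hj
      norm_num at hj
  have h44 : 4 - q j ≠ 0 := by
    intro h
    have h7 : q j = 4 := by linear_combination -h
    rw [h7] at hj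
    norm_num at hj
  simp only [Pi.div_apply, NN]
  have h45 : q j - q j ^ 2 / 4 = q j * (4 - q j) / 4 := by ring
  rw [h45]
  field_simp
  ring

lemma re_im_piI_div (u y : ℝ) (h : u ^ 2 + y ^ 2 ≠ 0) :
    (Real.pi * I / ((u : ℂ) + y * I)).re = Real.pi * (y / (u ^ 2 + y ^ 2)) ∧
    (Real.pi * I / ((u : ℂ) + y * I)).im = Real.pi * (u / (u ^ 2 + y ^ 2)) := by
  have hne : ((u : ℂ) + y * I) ≠ 0 := by
    intro h0
    have h1 := congrArg re h0
    have h2 := congrArg im h0
    simp at h1 h2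
    apply h; rw [h1, h2]; ring
  have hc : ((u : ℂ) ^ 2 + y ^ 2) ≠ 0 := by exact_mod_cast h
  have e : Real.pi * I / ((u : ℂ) + y * I)
      = ((Real.pi * (y / (u ^ 2 + y ^ 2)) : ℝ) : ℂ) + ((Real.pi * (u / (u ^ 2 + y ^ 2)) : ℝ) : ℂ) * I := by
    push_cast
    rw [div_eq_iff hne]
    field_simp
    linear_combination (-(u : ℂ) * y) * I_sq
  rw [e]
  constructor
  · rw [add_re, ofReal_re, re_ofReal_mul, I_re]; ring
  · rw [add_im, ofReal_im, im_ofReal_mul, I_im]; ring

lemma crit_conj (c : ℂ) (n : ℕ) : crit (starRingEnd ℂ c) n = starRingEnd ℂ (crit c n) := by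
  induction n with
  | zero => simp
  | succ n ih => rw [crit_succ, crit_succ, ih]; simp

lemma mem_conj {c : ℂ} (hc : c ∈ mandelbrotSet) : starRingEnd ℂ c ∈ mandelbrotSet :=
  mem_of_bounded (B := 2) fun k => by
    rw [crit_conj, norm_conj]; exact norm_crit_le_two hc k

theorem horn : ∃ h₀ : ℝ, 0 < h₀ ∧ ∀ c ∈ mandelbrotSet, |c.im| < h₀ →
    -c.im ^ 2 ≤ c.re + 3 / 4 → c.re + 3 / 4 ≤ -c.im ^ 2 / 4 → c = -3 / 4 := by
  by_contra hcon
  push Not at hcon
  have hex : ∀ j : ℕ, ∃ c ∈ mandelbrotSet, 0 < c.im ∧ c.im < 1 / ((j : ℝ) + 1) ∧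
      -c.im ^ 2 ≤ c.re + 3 / 4 ∧ c.re + 3 / 4 ≤ -c.im ^ 2 / 4 := by
    intro j
    obtain ⟨c, hc, h1, h2, h3, h4⟩ := hcon (1 / ((j : ℝ) + 1)) (by positivity)
    rcases lt_trichotomy c.im 0 with h | h | h
    · refine ⟨starRingEnd ℂ c, mem_conj hc, by simpa using h, ?_, ?_, ?_⟩
      · rw [abs_of_neg h] at h1
        simpa using h1
      · simpa using h2
      · simpa using h3
    · exfalso
      rw [h] at h2 h3
      apply h4
      apply Complex.ext
      · norm_num at h2 h3 ⊢
        linarith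
      · rw [h]; norm_num
    · exact ⟨c, hc, h, by rwa [abs_of_pos h] at h1, h2, h3⟩
  choose c hcM hy0 hy1 hu1 hu2 using hex
  set y : ℕ → ℝ := fun j => (c j).im with hy
  set u : ℕ → ℝ := fun j => (c j).re + 3 / 4 with hu
  have hyt : Tendsto y atTop (𝓝 0) := by
    refine squeeze_zero (fun j => (hy0 j).le) (fun j => (hy1 j).le) ?_
    exact tendsto_one_div_add_atTop_nhds_zero_nat
  have hut : Tendsto u atTop (𝓝 0) := by
    have h1 : Tendsto (fun j => y j ^ 2) atTop (𝓝 0) := by simpa using hyt.pow 2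
    have h2 : Tendsto (fun j => -y j ^ 2) atTop (𝓝 0) := by simpa using h1.neg
    refine tendsto_of_tendsto_of_tendsto_of_le_of_le h2 h1 (fun j => hu1 j) (fun j => ?_)
    have := hu2 j
    have h3 := sq_nonneg (y j)
    simp only [hu, hy] at *
    linarith
  set ε : ℕ → ℂ := fun j => (u j : ℂ) + y j * I with hε
  have hεc : ∀ j, c j = -3 / 4 + ε j := by
    intro j
    conv_lhs => rw [← re_add_im (c j)]
    simp only [hε, hu, hy]
    push_cast
    ring
  have hεt : Tendsto ε atTop (𝓝 0) := by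
    have h1 : Tendsto (fun j => (u j : ℂ)) atTop (𝓝 ((0 : ℝ) : ℂ)) :=
      (continuous_ofReal.tendsto _).comp hut
    have h2 : Tendsto (fun j => (y j : ℂ)) atTop (𝓝 ((0 : ℝ) : ℂ)) :=
      (continuous_ofReal.tendsto _).comp hyt
    have h3 := h1.add (h2.mul_const I)
    simpa using h3
  set q : ℕ → ℂ := fun j => 2 - 2 * (1 - ε j) ^ (1 / 2 : ℂ) with hq
  have hqε : ∀ j, q j - q j ^ 2 / 4 = ε j := by
    intro j
    have h1 : ((1 - ε j) ^ (1 / 2 : ℂ)) ^ 2 = 1 - ε j := by
      have := cpow_nat_inv_pow (1 - ε j) (n := 2) (by norm_num)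
      rw [Nat.cast_ofNat] at this
      rw [one_div]
      exact this
    simp only [hq]
    linear_combination (-1) * h1
  have hqt : Tendsto q atTop (𝓝 0) := by
    have h1 : Tendsto (fun j => 1 - ε j) atTop (𝓝 1) := by
      simpa using hεt.const_sub 1
    have h2 : Tendsto (fun j => (1 - ε j) ^ (1 / 2 : ℂ)) atTop (𝓝 ((1 : ℂ) ^ (1 / 2 : ℂ))) :=
      h1.cpow tendsto_const_nhds (by simp)
    rw [one_cpow] at h2
    have h3 := (h2.const_mul 2).const_sub 2
    rw [show (2 : ℂ) - 2 * 1 = 0 by norm_num] at h3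
    exact h3
  have hq0 : ∀ j, q j ≠ 0 := by
    intro j h
    have h1 := hqε j
    rw [h] at h1
    have h2 := congrArg im h1
    simp [hε] at h2
    exact absurd h2 (hy0 j).ne
  have hNN := tendsto_NN hqt hq0
  have hqn := hqt.norm
  rw [norm_zero] at hqn
  have hsmall := hqn.eventually_le_const (u := 1 / 2) (by norm_num)
  have hpi := Real.pi_pos
  have hre : Tendsto (fun j => (NN (q j)).re - Real.pi * (y j / (u j ^ 2 + y j ^ 2))) atTop
      (𝓝 0) := by
    have h1 := (continuous_re.tendsto _).comp hNN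
    have e : (-(3 / 4 * (Real.pi : ℂ)) * I).re = 0 := by simp
    rw [e] at h1
    refine h1.congr fun j => ?_
    simp only [Function.comp]
    rw [hqε, sub_re]
    simp only [hε]
    rw [(re_im_piI_div (u j) (y j) (by have := hy0 j; positivity)).1]
  have him : Tendsto (fun j => (NN (q j)).im - Real.pi * (u j / (u j ^ 2 + y j ^ 2))) atTop
      (𝓝 (-(3 / 4 * Real.pi))) := by
    have h1 := (continuous_im.tendsto _).comp hNN
    have e : (-(3 / 4 * (Real.pi : ℂ)) * I).im = -(3 / 4 * Real.pi) := by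
      have : (-(3 / 4 * (Real.pi : ℂ)) * I) = ((-(3 / 4 * Real.pi) : ℝ) : ℂ) * I := by
        push_cast; ring
      rw [this, im_ofReal_mul, I_im, mul_one]
    rw [e] at h1
    refine h1.congr fun j => ?_
    simp only [Function.comp]
    rw [hqε, sub_im]
    simp only [hε]
    rw [(re_im_piI_div (u j) (y j) (by have := hy0 j; positivity)).2]
  -- real part tends to infinity
  have hRe : Tendsto (fun j => (NN (q j)).re) atTop atTop := by
    have h1 : Tendsto (fun j => Real.pi * (y j / (u j ^ 2 + y j ^ 2))) atTop atTop := by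
      have h2 : Tendsto (fun j : ℕ => ((j : ℝ) + 1) / 2) atTop atTop :=
        (tendsto_atTop_add_const_right _ _ tendsto_natCast_atTop_atTop).atTop_div_const
          (by norm_num)
      refine tendsto_atTop_mono (fun j => ?_) h2
      have a1 := hy0 j
      have a2 := hy1 j
      have a3 := hu1 j
      have a4 := hu2 j
      change 0 < y j at a1
      change y j < _ at a2
      change -y j ^ 2 ≤ u j at a3
      change u j ≤ -y j ^ 2 / 4 at a4
      have a5 : (0 : ℝ) < (j : ℝ) + 1 := by positivity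
      rw [lt_div_iff₀ a5] at a2
      have a6 : y j ≤ 1 := by nlinarith [(Nat.cast_nonneg j : (0 : ℝ) ≤ j)]
      have a7 : u j ^ 2 ≤ y j ^ 2 := by
        have : u j ^ 2 ≤ (y j ^ 2) ^ 2 := sq_le_sq' (by linarith) (by nlinarith [sq_nonneg (y j)])
        have hy1 : y j ^ 2 ≤ 1 := by nlinarith
        calc u j ^ 2 ≤ (y j ^ 2) ^ 2 := this
          _ = y j ^ 2 * y j ^ 2 := by ring
          _ ≤ 1 * y j ^ 2 := by gcongr
          _ = y j ^ 2 := one_mul _
      have a8 : 0 < u j ^ 2 + y j ^ 2 := by positivity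
      have a9 : ((j : ℝ) + 1) / 2 ≤ y j / (u j ^ 2 + y j ^ 2) := by
        rw [div_le_div_iff₀ (by norm_num) a8]
        nlinarith
      have a10 : y j / (u j ^ 2 + y j ^ 2) ≤ Real.pi * (y j / (u j ^ 2 + y j ^ 2)) := by
        have : 0 ≤ y j / (u j ^ 2 + y j ^ 2) := by positivity
        nlinarith [Real.pi_gt_three]
      linarith
    refine (h1.atTop_add hre).congr fun j => ?_
    ring
  -- imaginary part
  have hIm : ∀ᶠ j in atTop, |(NN (q j)).im + 11 / 8 * Real.pi| ≤ 1.179 := by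
    have e1 : ∀ᶠ j in atTop, |((NN (q j)).im - Real.pi * (u j / (u j ^ 2 + y j ^ 2)))
        - (-(3 / 4 * Real.pi))| < 0.0004 := by
      have := Metric.tendsto_nhds.mp him 0.0004 (by norm_num)
      filter_upwards [this] with j hj
      rwa [Real.dist_eq] at hj
    have e2 : ∀ᶠ j in atTop, y j ≤ 0.01 := by
      exact hyt.eventually_le_const (by norm_num)
    filter_upwards [e1, e2] with j h1 h2
    have a1 := hy0 j
    have a3 := hu1 j
    have a4 := hu2 j
    change 0 < y j at a1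
    change -y j ^ 2 ≤ u j at a3
    change u j ≤ -y j ^ 2 / 4 at a4
    have a8 : 0 < u j ^ 2 + y j ^ 2 := by positivity
    have b1 : -1 ≤ u j / (u j ^ 2 + y j ^ 2) := by
      rw [le_div_iff₀ a8]; nlinarith [sq_nonneg (u j)]
    have b2 : u j / (u j ^ 2 + y j ^ 2) ≤ -1 / 4 + 0.0001 := by
      rw [div_le_iff₀ a8]
      have a7 : u j ^ 2 ≤ 0.0001 * y j ^ 2 := by
        have h5 : u j ^ 2 ≤ (y j ^ 2) ^ 2 :=
          sq_le_sq' (by linarith) (by nlinarith [sq_nonneg (y j)])
        have h6 : y j ^ 2 ≤ 0.0001 := by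
          have : y j ^ 2 ≤ 0.01 ^ 2 := by gcongr
          norm_num at this ⊢
          exact this
        calc u j ^ 2 ≤ (y j ^ 2) ^ 2 := h5
          _ = y j ^ 2 * y j ^ 2 := by ring
          _ ≤ 0.0001 * y j ^ 2 := by gcongr
      norm_num at a7 ⊢
      nlinarith [sq_nonneg (y j), sq_nonneg (u j)]
    have hp1 : Real.pi < 3.1416 := Real.pi_lt_d4
    have b3 : |Real.pi * (u j / (u j ^ 2 + y j ^ 2)) + 5 / 8 * Real.pi| ≤ 1.1785 := by
      have e3 : Real.pi * (u j / (u j ^ 2 + y j ^ 2)) + 5 / 8 * Real.pi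
          = Real.pi * (u j / (u j ^ 2 + y j ^ 2) + 5 / 8) := by ring
      rw [e3, abs_mul, abs_of_pos hpi]
      have b4 : |u j / (u j ^ 2 + y j ^ 2) + 5 / 8| ≤ 0.3751 := by
        rw [abs_le]
        norm_num at b1 b2 ⊢
        constructor <;> linarith
      calc Real.pi * |u j / (u j ^ 2 + y j ^ 2) + 5 / 8| ≤ 3.1416 * 0.3751 := by gcongr
        _ ≤ 1.1785 := by norm_num
    have e4 : (NN (q j)).im + 11 / 8 * Real.pi
        = (((NN (q j)).im - Real.pi * (u j / (u j ^ 2 + y j ^ 2))) - (-(3 / 4 * Real.pi)))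
          + (Real.pi * (u j / (u j ^ 2 + y j ^ 2)) + 5 / 8 * Real.pi) := by ring
    rw [e4]
    refine (abs_add_le _ _).trans ?_
    norm_num at h1 b3 ⊢
    linarith
  obtain ⟨J, hJ⟩ := eventually_atTop.mp (hIm.and hsmall)
  obtain ⟨j, n, hjn⟩ := no_sequence (N := fun j => NN (q (j + J)))
    ((tendsto_add_atTop_iff_nat (f := fun j => (NN (q j)).re) J).mpr hRe)
    (fun j => (hJ (j + J) (by omega)).1)
  have hqj := (hJ (j + J) (by omega)).2
  rw [qq_NN (by linarith) (hq0 _)] at hjn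
  have h5 := crit_eq_xorb (q (j + J)) n
  rw [hqε, ← hεc] at h5
  have h6 := norm_crit_le_two (hcM (j + J)) n
  have h7 : xorb (q (j + J)) n = crit (c (j + J)) n + 1 / 2 - q (j + J) / 2 := by
    rw [h5]; ring
  rw [h7] at hjn
  have h8 : ‖crit (c (j + J)) n + 1 / 2 - q (j + J) / 2‖ ≤ 2 + 1 / 2 + 1 / 2 / 2 := by
    refine (norm_sub_le _ _).trans ?_
    rw [norm_div (q (j + J))]
    simp only [Complex.norm_ofNat]
    gcongr
    refine (norm_add_le _ _).trans ?_
    have : ‖(1 / 2 : ℂ)‖ = 1 / 2 := by norm_num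
    rw [this]
    linarith
  norm_num at h8
  linarith

end MPc6f924
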