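import Mathlib

/-!
# Real region estimates
-/

namespace MPc6f924

lemma box_realB {a b r s : ℝ} (hb : 0 < b) (hab : a ^ 2 + b ^ 2 ≤ 0.57 / 30)
    (hr1 : 30 ≤ r) (hr2 : r ≤ 31.31) (hs : |s| ≤ 2.12)
    (h1 : 2 * r * (b ^ 2 - a ^ 2) + 4 * s * a * b = 1 + a)
    (h2 : 2 * s * (b ^ 2 - a ^ 2) - 4 * r * a * b = b) :
    -0.01321 ≤ a ∧ a ≤ -0.00331 ∧ 0.1245 ≤ b ∧ b ≤ 0.1306 := by
  have q1 := hs
  norm_num at hab hr2
  rw [abs_le] at hs
  norm_num at hs
  have hb1 : b ≤ 689 / 5000 + 1 / 5000 := by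
    apply le_of_sq_le_sq _ (by norm_num)
    norm_num
    linarith [sq_nonneg a]
  norm_num at hb1
  have q2 : |a| ≤ 69 / 500 := by
    apply abs_le_of_sq_le_sq _ (by norm_num)
    norm_num
    linarith [sq_nonneg b]
  have q2' := abs_le.mp q2
  have q3 : |(4 : ℝ)| = 4 := by norm_num
  have q4 : |(2 : ℝ)| = 2 := by norm_num
  have hsab : |4 * s * a * b| ≤ 0.1615 := by
    rw [abs_mul, abs_mul, abs_mul, abs_of_pos hb, q3]
    calc 4 * |s| * |a| * b ≤ 4 * 2.12 * (69 / 500) * (69 / 500) := by gcongr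
      _ ≤ 0.1615 := by norm_num
  rw [abs_le] at hsab
  norm_num at hsab
  have hr0 : 0 < r := by linarith
  have hD : 0 < b ^ 2 - a ^ 2 := by
    by_contra hcon
    push Not at hcon
    have : 2 * r * (b ^ 2 - a ^ 2) ≤ 0 := mul_nonpos_of_nonneg_of_nonpos (by linarith) hcon
    linarith [hsab.2, q2'.1]
  have hDb : b ^ 2 - a ^ 2 ≤ 69 / 500 * b := by
    have : b * b ≤ 69 / 500 * b := by gcongr
    nlinarith [sq_nonneg a]
  have hs1 : |2 * s * (b ^ 2 - a ^ 2)| ≤ 0.58512 * b := by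
    rw [abs_mul, abs_mul, abs_of_pos hD, q4]
    calc 2 * |s| * (b ^ 2 - a ^ 2) ≤ 2 * 2.12 * (69 / 500 * b) := by gcongr
      _ = 0.58512 * b := by ring
  rw [abs_le] at hs1
  norm_num at hs1
  have k1 : 4 * r * a + 0.41488 ≤ 0 := by
    by_contra hcon
    push Not at hcon
    have : 0 < (4 * r * a + 0.41488) * b := mul_pos hcon hb
    norm_num at this
    linarith [hs1.2, hs1.1]
  have k2 : 0 ≤ 4 * r * a + 1.58512 := by
    by_contra hcon
    push Not at hcon
    have : (4 * r * a + 1.58512) * b < 0 := mul_neg_of_neg_of_pos hcon hb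
    norm_num at this
    linarith [hs1.1, hs1.2]
  have ha_neg : a < 0 := by
    by_contra hcon
    push Not at hcon
    have : 0 ≤ 4 * r * a := by positivity
    norm_num at k1
    linarith
  norm_num at k1 k2
  have A1 : -(1321 / 100000) ≤ a := by
    have h3 : 4 * r * a ≤ 120 * a := by
      have : (r - 30) * a ≤ 0 := mul_nonpos_of_nonneg_of_nonpos (by linarith) ha_neg.le
      linarith
    linarith
  have A2 : a ≤ -(331 / 100000) := by
    have h3 : 125.24 * a ≤ 4 * r * a := by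
      have : 0 ≤ (r - 31.31) * a := mul_nonneg_of_nonpos_of_nonpos (by norm_num; linarith) ha_neg.le
      linarith
    norm_num at h3
    linarith
  -- second pass
  have q5 : |a| ≤ 1321 / 100000 := by rw [abs_le]; constructor <;> linarith
  have hsab2 : |4 * s * a * b| ≤ 0.01547 := by
    rw [abs_mul, abs_mul, abs_mul, abs_of_pos hb, q3]
    calc 4 * |s| * |a| * b ≤ 4 * 2.12 * (1321 / 100000) * (69 / 500) := by gcongr
      _ ≤ 0.01547 := by norm_num
  rw [abs_le] at hsab2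
  norm_num at hsab2
  have ha2 : a ^ 2 ≤ (1321 / 100000) ^ 2 := sq_le_sq' A1 (by linarith)
  have ha2' := sq_nonneg a
  norm_num at ha2
  have B1 : 1245 / 10000 ≤ b := by
    by_contra hcon
    push Not at hcon
    have h3 : b ^ 2 ≤ (1245 / 10000) ^ 2 := by gcongr
    norm_num at h3
    have h4 : 2 * r * (b ^ 2 - a ^ 2) ≤ 2 * 31.31 * (1245 / 10000) ^ 2 := by
      gcongr
      · norm_num; linarith
      · norm_num; linarith
    norm_num at h4
    linarith [hsab2.2]
  have B2 : b ≤ 1306 / 10000 := by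
    by_contra hcon
    push Not at hcon
    have h3 : (1306 / 10000) ^ 2 ≤ b ^ 2 := by gcongr
    norm_num at h3
    have h5 : 1688 / 100000 ≤ b ^ 2 - a ^ 2 := by linarith
    have h6 : (r - 30) * (b ^ 2 - a ^ 2) ≥ 0 := mul_nonneg (by linarith) hD.le
    linarith [hsab2.1]
  norm_num at B1 B2 ⊢
  exact ⟨A1, A2, B1, B2⟩

lemma box_realC {a b r s : ℝ} (hb1 : 0.1245 ≤ b) (hb2 : b ≤ 0.1306) (ha1 : -0.01321 ≤ a)
    (ha2 : a ≤ -0.00331)
    (hr1 : 30 ≤ r) (hr2 : r ≤ 31.31) (hs1 : -1.82 ≤ s) (hs2 : s ≤ 2)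
    (h1 : 2 * r * (b ^ 2 - a ^ 2) + 4 * s * a * b = 1 + a)
    (h2 : 2 * s * (b ^ 2 - a ^ 2) - 4 * r * a * b = b) :
    -0.0123 ≤ a ∧ a ≤ -0.0038 ∧ 0.1247 ≤ b ∧ b ≤ 0.1303 := by
  norm_num at hb1 hb2 ha1 ha2 hr2 hs1
  have hb : 0 < b := by linarith
  have hD : 0 < b ^ 2 - a ^ 2 := by nlinarith
  have hDb : b ^ 2 - a ^ 2 ≤ 653 / 5000 * b := by
    have : b * b ≤ 653 / 5000 * b := by gcongr
    nlinarith [sq_nonneg a]
  have e1 : 2 * s * (b ^ 2 - a ^ 2) ≤ 0.5224 * b := by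
    have : 2 * s * (b ^ 2 - a ^ 2) ≤ 2 * 2 * (b ^ 2 - a ^ 2) := by gcongr
    norm_num at this ⊢
    linarith
  have e2 : -(0.47539 * b) ≤ 2 * s * (b ^ 2 - a ^ 2) := by
    have h3 : -(2 * 1.82) * (b ^ 2 - a ^ 2) ≤ 2 * s * (b ^ 2 - a ^ 2) := by
      apply mul_le_mul_of_nonneg_right _ hD.le
      norm_num
      linarith
    norm_num at h3 ⊢
    linarith
  norm_num at e1 e2
  have k1 : 4 * r * a + 0.4776 ≤ 0 := by
    by_contra hcon
    push Not at hcon
    have : 0 < (4 * r * a + 0.4776) * b := mul_pos hcon hb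
    norm_num at this
    linarith
  have k2 : 0 ≤ 4 * r * a + 1.47539 := by
    by_contra hcon
    push Not at hcon
    have : (4 * r * a + 1.47539) * b < 0 := mul_neg_of_neg_of_pos hcon hb
    norm_num at this
    linarith
  norm_num at k1 k2
  have ha_neg : a < 0 := by linarith
  have A1 : -(123 / 10000) ≤ a := by
    have h3 : 4 * r * a ≤ 120 * a := by
      have : (r - 30) * a ≤ 0 := mul_nonpos_of_nonneg_of_nonpos (by linarith) ha_neg.le
      linarith
    linarith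
  have A2 : a ≤ -(38 / 10000) := by
    have h3 : 125.24 * a ≤ 4 * r * a := by
      have : 0 ≤ (r - 31.31) * a := mul_nonneg_of_nonpos_of_nonpos (by norm_num; linarith) ha_neg.le
      linarith
    norm_num at h3
    linarith
  have hc0 : 0 ≤ -a * b := mul_nonneg (by linarith) hb.le
  have hc1 : -a * b ≤ 123 / 10000 * (653 / 5000) := by
    gcongr; linarith
  have f1 : -(4 * 2 * (123 / 10000 * (653 / 5000))) ≤ 4 * s * a * b := by
    have h3 : 4 * s * (-a * b) ≤ 4 * 2 * (-a * b) := by gcongr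
    linarith
  have f2 : 4 * s * a * b ≤ 4 * 1.82 * (123 / 10000 * (653 / 5000)) := by
    have h3 : -(4 * 1.82) * (-a * b) ≤ 4 * s * (-a * b) := by
      apply mul_le_mul_of_nonneg_right _ hc0
      norm_num
      linarith
    norm_num at h3 hc1 ⊢
    linarith
  norm_num at f1 f2
  have ha22 : a ^ 2 ≤ (123 / 10000) ^ 2 := sq_le_sq' A1 (by linarith)
  have ha2' := sq_nonneg a
  norm_num at ha22
  have B1 : 1247 / 10000 ≤ b := by
    by_contra hcon
    push Not at hcon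
    have h3 : b ^ 2 ≤ (1247 / 10000) ^ 2 := by gcongr
    norm_num at h3
    have h4 : 2 * r * (b ^ 2 - a ^ 2) ≤ 2 * 31.31 * (1247 / 10000) ^ 2 := by
      gcongr
      · norm_num; linarith
      · norm_num; linarith
    norm_num at h4
    linarith
  have B2 : b ≤ 1303 / 10000 := by
    by_contra hcon
    push Not at hcon
    have h3 : (1303 / 10000) ^ 2 ≤ b ^ 2 := by gcongr
    norm_num at h3
    have h5 : 16826 / 1000000 ≤ b ^ 2 - a ^ 2 := by linarith
    have h6 : (r - 30) * (b ^ 2 - a ^ 2) ≥ 0 := mul_nonneg (by linarith) hD.le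
    linarith
  norm_num at A2 B1 B2 ⊢
  exact ⟨A1, A2, B1, B2⟩

end MPc6f924
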