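import Mathlib
import Pool.Agent.Work.MP_c6f924_an.Err
import Pool.Agent.Work.MP_c6f924_an.Exit

/-!
# Repelling side, second order potential
-/

namespace MPc6f924

open Complex

noncomputable def VW (x t : ℂ) : ℂ :=
  t + 11 / 8 * log t - 3 / 4 * x - 53 / 32 * x ^ 2 + 35 / 32 * x ^ 3

noncomputable def ff (x : ℂ) : ℂ :=
  ee x + (53 / 32 * x ^ 2 - 35 / 32 * x ^ 3) - (53 / 32 * (gx x) ^ 2 - 35 / 32 * (gx x) ^ 3)

lemma one_sub_ne' {x : ℂ} (hx : ‖x‖ ≤ 7 / 50) : 1 - x ≠ 0 := by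
  intro h
  have : x = 1 := by linear_combination -h
  rw [this] at hx; norm_num at hx

lemma er_step' {x t : ℂ} (hx : ‖x‖ ≤ 7 / 50) (h : ER x t) : ER (gx x) (stepU x t) := by
  unfold ER gx stepU at *
  have h1 := one_sub_ne' hx
  have e : (2 - x) / (2 * (1 - x) ^ 2) * (2 * (1 - x) ^ 2) = 2 - x :=
    div_mul_cancel₀ _ (by simpa using h1)
  linear_combination (1 - x) ^ 2 * h + x ^ 2 * e

lemma ratio' {x t : ℂ} (hx : ‖x‖ ≤ 7 / 50) (h : ER x t) :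
    stepU x t * (1 + -x ^ 2) ^ 2 = t * (1 + x ^ 3) := by
  unfold ER stepU at *
  have h1 := one_sub_ne' hx
  have e : (2 - x) / (2 * (1 - x) ^ 2) * (2 * (1 - x) ^ 2) = 2 - x :=
    div_mul_cancel₀ _ (by simpa using h1)
  linear_combination (-(1 + x) ^ 2 / 2) * e + (2 - x) * (1 + x) / 2 * h

lemma norm_log_small' {y : ℂ} (hy : ‖y‖ ≤ 1 / 50) : ‖log (1 + y)‖ ≤ 1 / 25 := by
  refine (norm_log_one_add_half_le_self (by linarith)).trans ?_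
  linarith

lemma one_add_ne' {y : ℂ} (hy : ‖y‖ ≤ 1 / 50) : 1 + y ≠ 0 := by
  intro h
  have : y = -1 := by linear_combination h
  rw [this] at hy; norm_num at hy

lemma log_step' {x t : ℂ} (hx : ‖x‖ ≤ 7 / 50) (h : ER x t) (ht : 0 < t.re) :
    log (stepU x t) = log t + (log (1 + x ^ 3) - 2 * log (1 + -x ^ 2)) := by
  have hX := norm_nonneg x
  have y1 : ‖x ^ 3‖ ≤ 1 / 50 := by
    rw [norm_pow]
    calc ‖x‖ ^ 3 ≤ (7 / 50) ^ 3 := by gcongr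
      _ ≤ 1 / 50 := by norm_num
  have y2 : ‖-x ^ 2‖ ≤ 1 / 50 := by
    rw [norm_neg, norm_pow]
    calc ‖x‖ ^ 2 ≤ (7 / 50) ^ 2 := by gcongr
      _ ≤ 1 / 50 := by norm_num
  have n1 := one_add_ne' y1
  have n2 := one_add_ne' y2
  have l1 := norm_log_small' y1
  have l2 := norm_log_small' y2
  have ht0 : t ≠ 0 := by
    intro h; rw [h] at ht; simp at ht
  have e : stepU x t = exp (log t + (log (1 + x ^ 3) - 2 * log (1 + -x ^ 2))) := by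
    rw [exp_add, exp_sub, exp_log ht0, exp_log n1]
    have : exp (2 * log (1 + -x ^ 2)) = (1 + -x ^ 2) ^ 2 := by
      rw [show (2 : ℂ) * log (1 + -x ^ 2) = ((2 : ℕ) : ℂ) * log (1 + -x ^ 2) by norm_num,
        exp_nat_mul, exp_log n2]
    rw [this, mul_div_assoc', eq_div_iff (pow_ne_zero 2 n2)]
    exact ratio' hx h
  have him : |(log t).im| < Real.pi / 2 := by
    rw [log_im]
    exact abs_arg_lt_pi_div_two_iff.mpr (Or.inl ht)
  have hpi := Real.pi_gt_three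
  have i1 := (abs_im_le_norm (log (1 + x ^ 3))).trans l1
  have i2 := (abs_im_le_norm (log (1 + -x ^ 2))).trans l2
  have e3 : (log t + (log (1 + x ^ 3) - 2 * log (1 + -x ^ 2))).im
      = (log t).im + (log (1 + x ^ 3)).im - 2 * (log (1 + -x ^ 2)).im := by
    simp only [add_im, sub_im, mul_im, re_ofNat, im_ofNat, zero_mul, add_zero]
    ring
  rw [abs_le] at i1 i2
  rw [abs_lt] at him
  rw [e]
  apply log_exp
  · rw [e3]; linarith [i1.1, i2.2, him.1]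
  · rw [e3]; linarith [i1.2, i2.1, him.2]

lemma VW_step {x t : ℂ} (hx : ‖x‖ ≤ 7 / 50) (h : ER x t) (ht : 0 < t.re) :
    VW (gx x) (stepU x t) = VW x t - 1 + ff x := by
  have h1 := log_step' hx h ht
  unfold VW ff ee
  rw [h1]
  unfold stepU gx
  ring

lemma norm_one_sub' {x : ℂ} (hx : ‖x‖ ≤ 7 / 50) : 43 / 50 ≤ ‖1 - x‖ := by
  have h := norm_sub_norm_le (1 : ℂ) x
  rw [norm_one] at h
  linarith

lemma ff_bound {x : ℂ} (hx : ‖x‖ ≤ 7 / 50) : ‖ff x‖ ≤ 12 * ‖x‖ ^ 5 := by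
  have hX := norm_nonneg x
  have h1 := one_sub_ne' hx
  have h9 := norm_one_sub' hx
  -- rational part
  set E : ℂ := 1 - (2 - x) / (2 * (1 - x) ^ 2) + 11 / 8 * (x ^ 3 + 2 * x ^ 2 + x ^ 4)
    - 3 / 4 * (x ^ 2 - 2 * x) + (53 / 32 * x ^ 2 - 35 / 32 * x ^ 3)
    - (53 / 32 * (x ^ 2 - x) ^ 2 - 35 / 32 * (x ^ 2 - x) ^ 3) with hE
  have eE : E * (8 * (1 - x) ^ 2)
      = x ^ 5 * (-217 / 4 + 341 / 4 * x - 175 / 4 * x ^ 2 + 35 / 4 * x ^ 3) := by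
    rw [hE]
    field_simp
    ring
  have nE : ‖E‖ ≤ 11.35 * ‖x‖ ^ 5 := by
    have h2 : ‖(-217 / 4 + 341 / 4 * x - 175 / 4 * x ^ 2 + 35 / 4 * x ^ 3 : ℂ)‖ ≤ 67.1 := by
      calc ‖(-217 / 4 + 341 / 4 * x - 175 / 4 * x ^ 2 + 35 / 4 * x ^ 3 : ℂ)‖
          ≤ ‖(-217 / 4 + 341 / 4 * x - 175 / 4 * x ^ 2 : ℂ)‖ + ‖35 / 4 * x ^ 3‖ :=
            norm_add_le _ _
        _ ≤ (‖(-217 / 4 + 341 / 4 * x : ℂ)‖ + ‖175 / 4 * x ^ 2‖) + ‖35 / 4 * x ^ 3‖ := by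
            gcongr; exact norm_sub_le _ _
        _ ≤ ((‖(-217 / 4 : ℂ)‖ + ‖341 / 4 * x‖) + ‖175 / 4 * x ^ 2‖) + ‖35 / 4 * x ^ 3‖ := by
            gcongr; exact norm_add_le _ _
        _ = ((217 / 4 + 341 / 4 * ‖x‖) + 175 / 4 * ‖x‖ ^ 2) + 35 / 4 * ‖x‖ ^ 3 := by
            simp [norm_pow]
        _ ≤ ((217 / 4 + 341 / 4 * (7 / 50)) + 175 / 4 * (7 / 50) ^ 2) + 35 / 4 * (7 / 50) ^ 3 := by
            gcongr
        _ ≤ 67.1 := by norm_num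
    have h3 := congrArg norm eE
    rw [norm_mul, norm_mul, norm_mul, norm_pow, norm_pow] at h3
    have h8 : ‖(8 : ℂ)‖ = 8 := by simp
    rw [h8] at h3
    have h4 : ‖E‖ * (8 * (43 / 50) ^ 2) ≤ ‖x‖ ^ 5 * 67.1 := by
      calc ‖E‖ * (8 * (43 / 50) ^ 2) ≤ ‖E‖ * (8 * ‖1 - x‖ ^ 2) := by gcongr
        _ = _ := h3
        _ ≤ ‖x‖ ^ 5 * 67.1 := by gcongr
    nlinarith [pow_nonneg hX 5]
  -- logs
  have y1 : ‖x ^ 3‖ ≤ 1 / 50 := by
    rw [norm_pow]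
    calc ‖x‖ ^ 3 ≤ (7 / 50) ^ 3 := by gcongr
      _ ≤ 1 / 50 := by norm_num
  have y2 : ‖-x ^ 2‖ ≤ 1 / 50 := by
    rw [norm_neg, norm_pow]
    calc ‖x‖ ^ 2 ≤ (7 / 50) ^ 2 := by gcongr
      _ ≤ 1 / 50 := by norm_num
  have x6 : ‖x‖ ^ 6 ≤ 7 / 50 * ‖x‖ ^ 5 := by
    calc ‖x‖ ^ 6 = ‖x‖ * ‖x‖ ^ 5 := by ring
      _ ≤ (7 / 50) * ‖x‖ ^ 5 := by gcongr
  have l1 : ‖log (1 + x ^ 3) - x ^ 3‖ ≤ ‖x‖ ^ 6 := by
    refine (log_sub_le (by linarith)).trans (le_of_eq ?_)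
    rw [norm_pow]; ring
  have l2 : ‖log (1 + -x ^ 2) - (-x ^ 2 - x ^ 4 / 2)‖ ≤ 0.35 * ‖x‖ ^ 6 := by
    have h3 := norm_log_sub_logTaylor_le 2 (z := -x ^ 2) (by linarith)
    have h4 : logTaylor (2 + 1) (-x ^ 2) = -x ^ 2 - x ^ 4 / 2 := by
      rw [logTaylor_succ, logTaylor_succ, logTaylor_succ, logTaylor_zero]
      simp only [Pi.add_apply]
      norm_num
      ring
    rw [h4] at h3
    refine h3.trans ?_
    have h5 : (1 - ‖-x ^ 2‖)⁻¹ ≤ 1.05 := by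
      rw [inv_le_comm₀ (by linarith) (by norm_num)]
      norm_num at y2 ⊢
      linarith
    calc ‖-x ^ 2‖ ^ (2 + 1) * (1 - ‖-x ^ 2‖)⁻¹ / ((2 : ℕ) + 1)
        ≤ ‖-x ^ 2‖ ^ (2 + 1) * 1.05 / ((2 : ℕ) + 1) := by gcongr
      _ = 0.35 * ‖x‖ ^ 6 := by rw [norm_neg, norm_pow]; push_cast; ring
  have e : ff x = E + 11 / 8 * ((log (1 + x ^ 3) - x ^ 3)
      - 2 * (log (1 + -x ^ 2) - (-x ^ 2 - x ^ 4 / 2))) := by
    unfold ff ee gx
    rw [hE]; ring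
  rw [e]
  calc _ ≤ ‖E‖ + ‖11 / 8 * ((log (1 + x ^ 3) - x ^ 3)
      - 2 * (log (1 + -x ^ 2) - (-x ^ 2 - x ^ 4 / 2)))‖ := norm_add_le _ _
    _ ≤ ‖E‖ + 11 / 8 * (‖log (1 + x ^ 3) - x ^ 3‖
        + 2 * ‖log (1 + -x ^ 2) - (-x ^ 2 - x ^ 4 / 2)‖) := by
        rw [norm_mul]
        have : ‖(11 / 8 : ℂ)‖ = 11 / 8 := by norm_num
        rw [this]
        gcongr
        refine (norm_sub_le _ _).trans ?_
        rw [norm_mul]
        simp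
    _ ≤ 11.35 * ‖x‖ ^ 5 + 11 / 8 * (‖x‖ ^ 6 + 2 * (0.35 * ‖x‖ ^ 6)) := by gcongr
    _ ≤ 12 * ‖x‖ ^ 5 := by
        have := pow_nonneg hX 5
        norm_num
        linarith

lemma er_norm' {x t : ℂ} (h : ER x t) (ht : 30 ≤ t.re) (hx : ‖x‖ ≤ 1 / 5) :
    ‖x‖ ≤ 7 / 50 ∧ ‖x‖ ^ 2 ≤ 0.57 / t.re := by
  unfold ER at h
  have h1 := congrArg norm h
  rw [norm_mul, norm_mul, norm_pow, norm_neg] at h1
  simp only [Complex.norm_ofNat] at h1
  have h2 : t.re ≤ ‖t‖ := (le_abs_self _).trans (abs_re_le_norm _)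
  have h3 : ‖1 + x‖ ≤ 1 + ‖x‖ := by
    have := norm_add_le (1 : ℂ) x
    rwa [norm_one] at this
  have hX := norm_nonneg x
  have h4 : 2 * t.re * ‖x‖ ^ 2 ≤ 1 + ‖x‖ := by
    calc 2 * t.re * ‖x‖ ^ 2 ≤ 2 * ‖t‖ * ‖x‖ ^ 2 := by gcongr
      _ = _ := h1
      _ ≤ _ := h3
  have h5 : ‖x‖ ≤ 7 / 50 := by
    have h6 : 60 * ‖x‖ ^ 2 ≤ 2 * t.re * ‖x‖ ^ 2 := by gcongr; linarith
    nlinarith
  refine ⟨h5, ?_⟩
  rw [le_div_iff₀ (by linarith)]
  linarith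

lemma re_step' {x t : ℂ} (hx : ‖x‖ ^ 2 ≤ 0.57 / 30) :
    0.69 ≤ t.re - (stepU x t).re ∧ t.re - (stepU x t).re ≤ 1.31 := by
  have hX := norm_nonneg x
  have hx1 : ‖x‖ ≤ 0.138 := by
    norm_num at hx ⊢
    nlinarith
  have h1 := one_sub_ne' (x := x) (by norm_num at hx1 ⊢; linarith)
  have h9 : 0.862 ≤ ‖1 - x‖ := by
    have h := norm_sub_norm_le (1 : ℂ) x
    rw [norm_one] at h
    norm_num at hx1 ⊢
    linarith
  have e : (2 - x) / (2 * (1 - x) ^ 2) - 1 = x * (3 - 2 * x) / (2 * (1 - x) ^ 2) := by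
    field_simp
    ring
  have hpos : 0 < ‖1 - x‖ := by norm_num at h9; linarith
  have h2 : ‖(2 - x) / (2 * (1 - x) ^ 2) - 1‖ ≤ 0.31 := by
    rw [e, norm_div, norm_mul, norm_mul, norm_pow,
      div_le_iff₀ (mul_pos (by simp) (pow_pos hpos 2))]
    simp only [Complex.norm_ofNat]
    have h3 : ‖3 - 2 * x‖ ≤ 3 + 2 * 0.138 := by
      refine (norm_sub_le _ _).trans ?_
      rw [norm_mul]
      simp only [Complex.norm_ofNat]
      gcongr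
    calc ‖x‖ * ‖3 - 2 * x‖ ≤ 0.138 * (3 + 2 * 0.138) := by gcongr
      _ ≤ 0.31 * (2 * 0.862 ^ 2) := by norm_num
      _ ≤ _ := by gcongr
  have h3 := (abs_re_le_norm _).trans h2
  have e2 : t.re - (stepU x t).re = ((2 - x) / (2 * (1 - x) ^ 2) - 1).re + 1 := by
    unfold stepU
    rw [sub_re, sub_re, one_re]; ring
  rw [e2]
  rw [abs_le] at h3
  norm_num at h3 ⊢
  constructor <;> linarith [h3.1, h3.2]

lemma sqrt_step' {s s' X : ℝ} (hs : 30 ≤ s') (hss : s' ≤ s - 0.69) (hX0 : 0 ≤ X)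
    (hX : X ^ 2 ≤ 0.57 / s) : 12 * X ^ 5 ≤ 2.85 * (1 / √s' ^ 3 - 1 / √s ^ 3) := by
  have h0 : 0 < s' := by linarith
  have h0' : 0 < s := by norm_num at hss; linarith
  have a0 : 0 < √s' := Real.sqrt_pos.mpr h0
  have b0 : 0 < √s := Real.sqrt_pos.mpr h0'
  have a2 : √s' ^ 2 = s' := Real.sq_sqrt h0.le
  have b2 : √s ^ 2 = s := Real.sq_sqrt h0'.le
  have hab : √s' ≤ √s := Real.sqrt_le_sqrt (by norm_num at hss; linarith)
  set a := √s' with ha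
  set b := √s with hb
  have hX1 : X ≤ 0.755 / b := by
    rw [le_div_iff₀ b0]
    have h1 : (X * b) ^ 2 ≤ 0.57 := by
      rw [mul_pow, b2]
      rwa [le_div_iff₀ h0'] at hX
    norm_num at h1 ⊢
    nlinarith [mul_nonneg hX0 b0.le]
  have hX5 : X ^ 5 ≤ 0.2453 / b ^ 5 := by
    calc X ^ 5 = X ^ 2 * X ^ 2 * X := by ring
      _ ≤ 0.57 / s * (0.57 / s) * (0.755 / b) := by gcongr
      _ = 0.2452995 / b ^ 5 := by rw [← b2]; field_simp; norm_num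
      _ ≤ 0.2453 / b ^ 5 := by gcongr; norm_num
  have hd : 0.69 ≤ b ^ 2 - a ^ 2 := by rw [a2, b2]; linarith
  have k2 : 1.5 * (a * (a + b)) ≤ b ^ 2 + a * b + a ^ 2 := by
    norm_num
    nlinarith [mul_nonneg (sub_nonneg.mpr hab) (show 0 ≤ b + a / 2 by positivity)]
  have k3 : 1.035 * a ≤ b ^ 3 - a ^ 3 := by
    have hpos : 0 < a + b := by positivity
    have h1 : 1.035 * a * (a + b) ≤ (b ^ 3 - a ^ 3) * (a + b) := by
      calc 1.035 * a * (a + b) = 0.69 * (1.5 * (a * (a + b))) := by ring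
        _ ≤ (b ^ 2 - a ^ 2) * (b ^ 2 + a * b + a ^ 2) := by gcongr
        _ = _ := by ring
    exact le_of_mul_le_mul_right h1 hpos
  have key : 1.035 / b ^ 5 ≤ 1 / a ^ 3 - 1 / b ^ 3 := by
    rw [div_sub_div _ _ (pow_pos a0 3).ne' (pow_pos b0 3).ne',
      div_le_div_iff₀ (pow_pos b0 5) (mul_pos (pow_pos a0 3) (pow_pos b0 3))]
    have k4 : 0 ≤ b ^ 3 - a ^ 3 := le_trans (by positivity) k3
    calc 1.035 * (a ^ 3 * b ^ 3) = 1.035 * a * a ^ 2 * b ^ 3 := by ring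
      _ ≤ (b ^ 3 - a ^ 3) * b ^ 2 * b ^ 3 := by gcongr
      _ = _ := by ring
  calc 12 * X ^ 5 ≤ 12 * (0.2453 / b ^ 5) := by gcongr
    _ = 2.9436 / b ^ 5 := by ring
    _ ≤ 2.85 * (1.035 / b ^ 5) := by
        rw [← mul_div_assoc]
        gcongr
        norm_num
    _ ≤ _ := by gcongr


lemma norm_gx_le' {x : ℂ} (hx : ‖x‖ ≤ 7 / 50) : ‖gx x‖ ≤ 1 / 5 := by
  unfold gx
  have e : x ^ 2 - x = x * (x - 1) := by ring
  rw [e, norm_mul]
  have : ‖x - 1‖ ≤ 57 / 50 := by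
    refine (norm_sub_le _ _).trans ?_
    rw [norm_one]; linarith
  calc ‖x‖ * ‖x - 1‖ ≤ 7 / 50 * (57 / 50) := by gcongr
    _ ≤ 1 / 5 := by norm_num

structure ExInv' (τ R : ℝ) (x t : ℂ) (n : ℕ) : Prop where
  er : ER x t
  re : 30 ≤ t.re
  xs : ‖x‖ ≤ 7 / 50
  im : |(VW x t).im| ≤ τ + 2.85 / √t.re ^ 3
  dec : t.re ≤ R - 0.69 * n

lemma ex_step' {τ R : ℝ} {x t : ℂ} {n : ℕ} (h : ExInv' τ R x t n) (h2 : 31.31 < t.re) :
    ExInv' τ R (gx x) (stepU x t) (n + 1) := by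
  obtain ⟨her, hre, hxs, him, hdec⟩ := h
  norm_num at h2
  have hx2 := (er_norm' her hre (by linarith)).2
  have hx60 : ‖x‖ ^ 2 ≤ 0.57 / 30 := hx2.trans (by gcongr)
  obtain ⟨r1, r2⟩ := re_step' (t := t) hx60
  have her' := er_step' hxs her
  have hre' : 30 ≤ (stepU x t).re := by norm_num at r2; linarith
  have hxs' := (er_norm' her' hre' (norm_gx_le' hxs)).1
  refine ⟨her', hre', hxs', ?_, ?_⟩
  · rw [VW_step hxs her (by linarith)]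
    have h3 := sqrt_step' (s := t.re) (s' := (stepU x t).re) hre' (by norm_num at r1 ⊢; linarith)
      (norm_nonneg x) hx2
    have h4 := (abs_im_le_norm (ff x)).trans (ff_bound hxs)
    have e : (VW x t - 1 + ff x).im = (VW x t).im + (ff x).im := by
      simp [sub_im, add_im]
    rw [e]
    refine (abs_add_le _ _).trans ?_
    have e2 : (2.85 : ℝ) * (1 / √(stepU x t).re ^ 3 - 1 / √t.re ^ 3)
        = 2.85 / √(stepU x t).re ^ 3 - 2.85 / √t.re ^ 3 := by ring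
    rw [e2] at h3
    linarith
  · push_cast
    norm_num at r1 hdec ⊢
    linarith

lemma exists_exit' {τ : ℝ} {x t : ℂ} (her : ER x t) (hre : 30 ≤ t.re) (hx : ‖x‖ ≤ 7 / 50)
    (him : |(VW x t).im| ≤ τ) :
    ∃ (n : ℕ) (s : ℂ), ER (gx^[n] x) s ∧ 30 ≤ s.re ∧ s.re ≤ 31.31 ∧ ‖gx^[n] x‖ ≤ 7 / 50 ∧
      |(VW (gx^[n] x) s).im| ≤ τ + 0.0174 := by
  by_contra hcon
  push Not at hcon
  have key : ∀ n : ℕ, ∃ s, ExInv' τ t.re (gx^[n] x) s n := by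
    intro n
    induction n with
    | zero =>
      refine ⟨t, her, hre, hx, ?_, by simp⟩
      refine him.trans ?_
      have : (0 : ℝ) ≤ 2.85 / √t.re ^ 3 := by positivity
      simpa using this
    | succ n ih =>
      obtain ⟨s, hs⟩ := ih
      have h1 : 31.31 < s.re := by
        by_contra h2
        push Not at h2
        have h3 := hcon n s hs.er hs.re h2 hs.xs
        have h4 := hs.im
        have h5 : 2.85 / √s.re ^ 3 ≤ 0.0174 := by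
          have h60 : 5.477 ≤ √s.re := by
            apply Real.le_sqrt_of_sq_le
            have := hs.re
            norm_num; linarith
          have h61 : (5.477 : ℝ) ^ 3 ≤ √s.re ^ 3 := by gcongr
          have h62 : 0 < √s.re ^ 3 := lt_of_lt_of_le (by norm_num) h61
          rw [div_le_iff₀ h62]
          calc (2.85 : ℝ) ≤ 0.0174 * 5.477 ^ 3 := by norm_num
            _ ≤ _ := by gcongr
        linarith
      refine ⟨stepU (gx^[n] x) s, ?_⟩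
      rw [Function.iterate_succ_apply']
      exact ex_step' hs h1
  obtain ⟨n, hn⟩ := exists_nat_gt ((t.re - 30) / 0.69)
  obtain ⟨s, hs⟩ := key n
  have h1 := hs.dec
  have h2 := hs.re
  rw [div_lt_iff₀ (by norm_num)] at hn
  linarith

end MPc6f924
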