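import Mathlib
import Pool.Agent.Work.MP_c6f924_an.ExitB
import Pool.Agent.Work.MP_c6f924_an.BoxRealB

/-!
# The exit region
-/

namespace MPc6f924

open Complex

lemma VW_im (x t : ℂ) : (VW x t).im = t.im + 11 / 8 * arg t
    - x.im * (3 / 4 + 53 / 16 * x.re - 35 / 32 * (3 * x.re ^ 2 - x.im ^ 2)) := by
  unfold VW
  have e1 : (11 / 8 : ℂ) * log t = ((11 / 8 : ℝ) : ℂ) * log t := by push_cast; ring
  have e2 : (3 / 4 : ℂ) * x = ((3 / 4 : ℝ) : ℂ) * x := by push_cast; ring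
  have e3 : (53 / 32 : ℂ) * x ^ 2 = ((53 / 32 : ℝ) : ℂ) * x ^ 2 := by push_cast; ring
  have e4 : (35 / 32 : ℂ) * x ^ 3 = ((35 / 32 : ℝ) : ℂ) * x ^ 3 := by push_cast; ring
  rw [e1, e2, e3, e4, add_im, sub_im, sub_im, add_im, im_ofReal_mul, im_ofReal_mul,
    im_ofReal_mul, im_ofReal_mul, log_im]
  have e5 : (x ^ 2).im = 2 * x.re * x.im := by rw [pow_two, mul_im]; ring
  have e6 : (x ^ 3).im = 3 * x.re ^ 2 * x.im - x.im ^ 3 := by
    rw [pow_succ, pow_two, mul_im, mul_re, mul_im]; ring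
  rw [e5, e6]
  ring

lemma top_im {t : ℂ} (hn : ‖t‖ ≤ 31.4) (h : t.im + 11 / 8 * arg t ≤ 2.0812) : t.im ≤ 2 := by
  rcases le_or_gt t.im 0 with h0 | h0
  · linarith
  · have h1 : Real.sin (arg t) = t.im / ‖t‖ := sin_arg t
    have h2 := Real.sin_le (arg_nonneg_iff.mpr h0.le)
    have ht : 0 < ‖t‖ := norm_pos_iff.mpr (by intro h; rw [h] at h0; simp at h0)
    have h3 : t.im / 31.4 ≤ t.im / ‖t‖ := by gcongr
    rw [h1] at h2
    have h4 : t.im / 31.4 ≤ arg t := h3.trans h2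
    norm_num at h4 h ⊢
    linarith

lemma bot_im {t : ℂ} (hn : ‖t‖ ≤ 31.4) (h : -1.8925 ≤ t.im + 11 / 8 * arg t) :
    -1.82 ≤ t.im := by
  rcases le_or_gt 0 t.im with h0 | h0
  · norm_num; linarith
  · have h1 : Real.sin (arg t) = t.im / ‖t‖ := sin_arg t
    have h2 := Real.sin_le (x := -arg t) (by have := arg_neg_iff.mpr h0; linarith)
    have ht : 0 < ‖t‖ := norm_pos_iff.mpr (by intro h; rw [h] at h0; simp at h0)
    have h3 : -t.im / 31.4 ≤ -t.im / ‖t‖ := by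
      have : 0 ≤ -t.im := by linarith
      gcongr
    rw [Real.sin_neg, h1, ← neg_div] at h2
    have h4 : -t.im / 31.4 ≤ -arg t := h3.trans h2
    norm_num at h4 h ⊢
    linarith

lemma er_real {x t : ℂ} (her : ER x t) :
    2 * t.re * (x.im ^ 2 - x.re ^ 2) + 4 * t.im * x.re * x.im = 1 + x.re ∧
    2 * t.im * (x.im ^ 2 - x.re ^ 2) - 4 * t.re * x.re * x.im = x.im := by
  unfold ER at her
  have hre := congrArg re her
  have him := congrArg im her
  simp only [pow_two, mul_re, mul_im, neg_re, neg_im, re_ofNat, im_ofNat, add_re, add_im, one_re,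
    one_im] at hre him
  constructor
  · linear_combination hre
  · linear_combination him

lemma region_pos {x t : ℂ} (her : ER x t) (hr1 : 30 ≤ t.re) (hr2 : t.re ≤ 31.31)
    (hx : ‖x‖ ≤ 7 / 50) (hv : |(VW x t).im| ≤ 1.982) (hb : 0 < x.im) :
    (-0.0123 ≤ x.re ∧ x.re ≤ -0.0038 ∧ 0.1247 ≤ x.im ∧ x.im ≤ 0.1303) ∧
      -1.82 ≤ t.im ∧ t.im ≤ 2 := by
  have h0 := (er_norm' her hr1 (by linarith)).2
  have h0' : x.re ^ 2 + x.im ^ 2 ≤ 0.57 / 30 := by
    have e : x.re ^ 2 + x.im ^ 2 = ‖x‖ ^ 2 := by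
      rw [← normSq_eq_norm_sq, normSq_apply]; ring
    rw [e]
    exact h0.trans (by gcongr)
  obtain ⟨e1, e2⟩ := er_real her
  rw [VW_im] at hv
  set a := x.re with ha
  set b := x.im with hbdef
  set P := b * (3 / 4 + 53 / 16 * a - 35 / 32 * (3 * a ^ 2 - b ^ 2)) with hP
  have hs : |t.im| ≤ 2.12 := by
    refine im_le_of.trans ?_
    have hP1 : |P| ≤ 0.138 := by
      norm_num at h0'
      have hbn : b ≤ 0.13785 := by
        apply le_of_sq_le_sq _ (by norm_num)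
        norm_num
        nlinarith [sq_nonneg a]
      have hab2 : |2 * (a * b)| ≤ 0.019 := by
        rw [abs_le]
        norm_num
        constructor
        · nlinarith [sq_nonneg (a + b)]
        · nlinarith [sq_nonneg (a - b)]
      have hT : |b * (3 * a ^ 2 - b ^ 2)| ≤ 0.00262 := by
        apply abs_le_of_sq_le_sq _ (by norm_num)
        have e : (b * (3 * a ^ 2 - b ^ 2)) ^ 2
            = (a ^ 2 + b ^ 2) ^ 3 - (a * (a ^ 2 - 3 * b ^ 2)) ^ 2 := by ring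
        have e2 : (a ^ 2 + b ^ 2) ^ 3 ≤ (19 / 1000) ^ 3 := by gcongr
        rw [e]
        norm_num at e2 ⊢
        linarith [sq_nonneg (a * (a ^ 2 - 3 * b ^ 2))]
      have e : P = 3 / 4 * b + 53 / 32 * (2 * (a * b)) - 35 / 32 * (b * (3 * a ^ 2 - b ^ 2)) := by
        rw [hP]; ring
      rw [abs_le] at hab2 hT
      rw [e, abs_le]
      norm_num at hbn hab2 hT ⊢
      constructor <;> linarith [hab2.1, hab2.2, hT.1, hT.2]
    rw [abs_le] at hv hP1 ⊢
    norm_num at hv hP1 ⊢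
    constructor <;> linarith [hv.1, hv.2, hP1.1, hP1.2]
  obtain ⟨A1, A2, B1, B2⟩ := box_realB hb h0' hr1 hr2 hs e1 e2
  have hn : ‖t‖ ≤ 31.4 := by
    apply le_of_sq_le_sq _ (by norm_num)
    rw [← normSq_eq_norm_sq, normSq_apply]
    rw [abs_le] at hs
    norm_num at hs hr2 ⊢
    nlinarith [hs.1, hs.2]
  have hP2 : P ≤ 0.0991 := by
    norm_num at A1 A2 B1 B2 ⊢
    have c1 : b ^ 2 ≤ (653 / 5000) ^ 2 := by gcongr
    have c2 : 3 / 4 + 53 / 16 * a - 35 / 32 * (3 * a ^ 2 - b ^ 2) ≤ 0.758 := by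
      norm_num at c1 ⊢
      linarith [sq_nonneg a]
    calc P ≤ b * 0.758 := by rw [hP]; gcongr
      _ ≤ 653 / 5000 * 0.758 := by gcongr
      _ ≤ _ := by norm_num
  have hP3 : 0.0896 ≤ P := by
    norm_num at A1 A2 B1 B2 ⊢
    have c1 : (249 / 2000) ^ 2 ≤ b ^ 2 := by gcongr
    have c3 : a ^ 2 ≤ (1321 / 100000) ^ 2 := sq_le_sq' A1 (by linarith)
    have c2 : 0.722 ≤ 3 / 4 + 53 / 16 * a - 35 / 32 * (3 * a ^ 2 - b ^ 2) := by
      norm_num at c1 c3 ⊢
      linarith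
    calc (56 / 625 : ℝ) ≤ 249 / 2000 * 0.722 := by norm_num
      _ ≤ P := by rw [hP]; gcongr
  have T := top_im hn (by
    rw [abs_le] at hv
    norm_num at hv hP2 ⊢
    linarith [hv.2])
  have B := bot_im hn (by
    rw [abs_le] at hv
    norm_num at hv hP3 ⊢
    linarith [hv.1])
  exact ⟨box_realC B1 B2 A1 A2 hr1 hr2 B T e1 e2, B, T⟩


lemma im_rel {x t : ℂ} (her : ER x t) :
    2 * t.im * (x.re ^ 2 + x.im ^ 2) ^ 2 = x.im * ((x.re ^ 2 + x.im ^ 2) + 2 * x.re) := by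
  obtain ⟨e1, e2⟩ := er_real her
  linear_combination (x.im ^ 2 - x.re ^ 2) * e2 + 2 * x.re * x.im * e1

end MPc6f924
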