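import Mathlib
import Pool.Agent.Work.MP_c6f924_an.NumericB

/-!
# Soundness of the check in `NumericB`
-/

namespace MPc6f924

open Complex

lemma nat_div (a b : ℕ) : Nat.div a b = a / b := rfl

lemma offs_sq (u : ℕ) : ((u * u + BBN - B2N * u : ℕ) : ℤ) = ((u : ℤ) - BN) * ((u : ℤ) - BN) := by
  have h : B2N * u ≤ u * u + BBN := by
    have h1 : (B2N : ℤ) * u ≤ u * u + BBN := by
      have := mul_self_nonneg ((u : ℤ) - 70368744177664)
      push_cast
      linarith
    exact_mod_cast h1
  rw [Nat.cast_sub h]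
  push_cast
  ring

lemma shift_div (z : ℤ) (n : ℕ) (h : (n : ℤ) = z + 154742504910672534362390528) :
    ((n / SN : ℕ) : ℤ) = z / SC + 140737488355328 := by
  have e : z + 154742504910672534362390528 = z + 140737488355328 * SC := by norm_num [SC]
  have e2 : ((SN : ℕ) : ℤ) = SC := by norm_num [SC]
  rw [Int.natCast_div, h, e, e2, Int.add_mul_ediv_right _ _ (by norm_num [SC])]

/-- the `v` of the check. -/
lemma v_eq (u sw : ℕ) : ((4 * (u * u) + C1N + 4 * sw - C2N * u : ℕ) : ℤ)
    = (2 * ((u : ℤ) - BN) - SC) * (2 * ((u : ℤ) - BN) - SC) + 4 * sw := by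
  have h : C2N * u ≤ 4 * (u * u) + C1N + 4 * sw := by
    have h1 : (C2N : ℤ) * u ≤ 4 * (u * u) + C1N + 4 * sw := by
      have := mul_self_nonneg (2 * (u : ℤ) - 141836999983104)
      have h2 : (0 : ℤ) ≤ sw := Nat.cast_nonneg _
      push_cast
      linarith
    exact_mod_cast h1
  rw [Nat.cast_sub h]
  push_cast
  simp only [SC]
  ring

lemma chkN_sound (n : ℕ) : ∀ (u w r : ℕ) (x : ℂ), chkN n u w r = true →
    ‖(SC : ℂ) * x - ((((u : ℤ) - BN : ℤ) : ℂ) + (((w : ℤ) - BN : ℤ) : ℂ) * I)‖ ≤ r →
    ∃ k, 2 < ‖gx^[k] x‖ := by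
  induction n with
  | zero => intro u w r x h; simp [chkN] at h
  | succ n ih =>
    intro u w r x h hx
    have hS : (0 : ℝ) < (SC : ℝ) := by norm_num [SC]
    rw [chkN] at h
    simp only [forceN_eq, Nat.add_eq, Nat.sub_eq, Nat.mul_eq, nat_div] at h
    set re : ℤ := (u : ℤ) - BN with hre
    set im : ℤ := (w : ℤ) - BN with him
    set su : ℕ := u * u + BBN - B2N * u with hsu
    set sw : ℕ := w * w + BBN - B2N * w with hsw
    have esu : (su : ℤ) = re * re := offs_sq u
    have esw : (sw : ℤ) = im * im := offs_sq w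
    cases h1 : Nat.ble ((2199023255552 + r) * (2199023255552 + r) + 1) (su + sw) with
    | true =>
      have h2 := Nat.le_of_ble_eq_true h1
      refine ⟨0, ?_⟩
      simp only [Function.iterate_zero, id_eq]
      have h3' : (2 * SC + r) * (2 * SC + r) + 1 ≤ re * re + im * im := by
        rw [← esu, ← esw]
        have : ((2199023255552 + (r : ℤ)) * (2199023255552 + r) + 1) ≤ su + sw := by
          exact_mod_cast h2
        simp only [SC]
        linarith
      have h3 : (2 * (SC : ℝ) + r) * (2 * SC + r) + 1 ≤ re * re + im * im := by exact_mod_cast h3'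
      set c : ℂ := (re : ℂ) + (im : ℂ) * I with hc
      have e : ‖c‖ ^ 2 = (re : ℝ) * re + im * im := by
        rw [← normSq_eq_norm_sq, normSq_apply]
        simp [hc]
      have hr : (0 : ℝ) ≤ r := Nat.cast_nonneg _
      have h4 : 2 * (SC : ℝ) + r < ‖c‖ := by
        have := norm_nonneg c
        nlinarith
      have h5 : ‖c‖ ≤ ‖(SC : ℂ) * x‖ + r := by
        have : c = (SC : ℂ) * x - ((SC : ℂ) * x - c) := by ring
        calc ‖c‖ = ‖(SC : ℂ) * x - ((SC : ℂ) * x - c)‖ := by rw [← this]
          _ ≤ _ := (norm_sub_le _ _).trans (by gcongr)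
      rw [norm_mul, norm_intCast, abs_of_pos hS] at h5
      nlinarith
    | false =>
      rw [h1, cond_false] at h
      cases h2 : Nat.ble r SN with
      | false => rw [h2, cond_false] at h; simp at h
      | true =>
        rw [h2, cond_true] at h
        set v : ℕ := 4 * (u * u) + C1N + 4 * sw - C2N * u with hv
        set m : ℕ := newtonN v ((SN + v / SN) / 2) with hm
        set c : ℕ := 2 * (u * w) + 9903520314283042199192993792 with hc
        set d : ℕ := B2N * (u + w) with hd
        cases h3 : (Nat.ble v (m * m) && Nat.ble sw (su + BSN) && Nat.ble d (c + BSN)) with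
        | false => rw [h3, cond_false] at h; simp at h
        | true =>
          rw [h3, cond_true] at h
          set p : ℕ := (su + BSN - sw) / SN with hp
          set q : ℕ := (c + BSN - d) / SN with hq
          rw [Bool.and_eq_true, Bool.and_eq_true] at h3
          cases h4 : (Nat.ble u p && Nat.ble w q) with
          | false => rw [h4, cond_false] at h; simp at h
          | true =>
            rw [h4, cond_true] at h
            rw [Bool.and_eq_true] at h4
            have g1 := Nat.le_of_ble_eq_true h3.1.1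
            have g2 := Nat.le_of_ble_eq_true h3.1.2
            have g3 := Nat.le_of_ble_eq_true h3.2
            have g4 := Nat.le_of_ble_eq_true h4.1
            have g5 := Nat.le_of_ble_eq_true h4.2
            have ev : (v : ℤ) = (2 * re - SC) * (2 * re - SC) + 4 * (im * im) := by
              rw [hv, v_eq, esw]
            have gm : (2 * re - SC) * (2 * re - SC) + 4 * (im * im) ≤ (m : ℤ) * m := by
              rw [← ev]; exact_mod_cast g1
            have hx' : ‖(SC : ℂ) * x - ((re : ℂ) + (im : ℂ) * I)‖ ≤ (((r : ℕ) : ℤ) : ℝ) := by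
              simpa using hx
            have key := step_sound hx' gm (Nat.cast_nonneg m)
            have ep : (p : ℤ) = (re * re - im * im) / SC + 140737488355328 := by
              rw [hp]
              apply shift_div
              rw [Nat.cast_sub g2, Nat.cast_add, esu, esw]
              push_cast
              ring
            have eq : (q : ℤ) = (2 * (re * im)) / SC + 140737488355328 := by
              rw [hq]
              apply shift_div
              rw [Nat.cast_sub g3, Nat.cast_add, hc, hd, hre, him]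
              push_cast
              ring
            have eu : (((p - u : ℕ) : ℤ) - BN : ℤ) = (re * re - im * im) / SC - re := by
              rw [Nat.cast_sub g4, ep, hre]
              push_cast
              ring
            have ew : (((q - w : ℕ) : ℤ) - BN : ℤ) = (2 * (re * im)) / SC - im := by
              rw [Nat.cast_sub g5, eq, him]
              push_cast
              ring
            have er : (((m * r / SN + r * r / SN + 4 : ℕ) : ℤ)) = ((m : ℤ) * r) / SC
                + ((r : ℤ) * r) / SC + 4 := by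
              have e2 : ((SN : ℕ) : ℤ) = SC := by norm_num [SC]
              rw [Nat.cast_add, Nat.cast_add, Int.natCast_div, Int.natCast_div, e2]
              push_cast
              ring
            obtain ⟨k, hk⟩ := ih _ _ _ (gx x) h (by
              rw [eu, ew]
              have e3 : ((m * r / SN + r * r / SN + 4 : ℕ) : ℝ)
                  = (((m : ℤ) * r) / SC + ((r : ℤ) * r) / SC + 4 : ℤ) := by
                rw [← er]; norm_cast
              rw [e3]
              exact key)
            exact ⟨k + 1, by rwa [Function.iterate_succ_apply]⟩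


/-- real form of the skip test; `α = -S Re x`, `β = S Im x`. -/
lemma skipN_sound {a b ha hb : ℕ} {α β : ℝ} (h : skipN a b ha hb = true)
    (h1 : (a : ℝ) - ha ≤ α) (h2 : α ≤ a + ha) (h3 : (b : ℝ) - hb ≤ β) (h4 : β ≤ b + hb)
    (h5 : -(3.64 * (α ^ 2 + β ^ 2) ^ 2) ≤ β * (α ^ 2 + β ^ 2 - 2 * α * SC) * SC)
    (h6 : β * (α ^ 2 + β ^ 2 - 2 * α * SC) * SC ≤ 4 * (α ^ 2 + β ^ 2) ^ 2) : False := by
  have hS : (0 : ℝ) < (SC : ℝ) := by norm_num [SC]
  have hSN : ((SN : ℕ) : ℝ) = SC := by norm_num [SC]
  rw [skipN] at h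
  simp only [forceN_eq, Nat.add_eq, Nat.sub_eq, Nat.mul_eq] at h
  cases c1 : (Nat.ble ha a && Nat.ble hb b && Nat.ble (a + ha) SN) with
  | false => rw [c1, cond_false] at h; simp at h
  | true =>
    rw [c1, cond_true] at h
    rw [Bool.and_eq_true, Bool.and_eq_true] at c1
    have g1 := Nat.le_of_ble_eq_true c1.1.1
    have g2 := Nat.le_of_ble_eq_true c1.1.2
    have g3 := Nat.le_of_ble_eq_true c1.2
    set a1 : ℕ := a + ha with ha1
    set a2 : ℕ := a - ha with ha2
    set b1 : ℕ := b - hb with hb1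
    set b2 : ℕ := b + hb with hb2
    set R : ℕ := a1 * a1 + b2 * b2 with hR
    have k1 : (a2 : ℝ) ≤ α := by rw [ha2, Nat.cast_sub g1]; exact h1
    have k2 : α ≤ a1 := by rw [ha1, Nat.cast_add]; exact h2
    have k3 : (b1 : ℝ) ≤ β := by rw [hb1, Nat.cast_sub g2]; exact h3
    have k4 : β ≤ b2 := by rw [hb2, Nat.cast_add]; exact h4
    have n1 : (0 : ℝ) ≤ a1 := Nat.cast_nonneg _
    have n2 : (0 : ℝ) ≤ a2 := Nat.cast_nonneg _
    have n3 : (0 : ℝ) ≤ b1 := Nat.cast_nonneg _
    have n4 : (0 : ℝ) ≤ b2 := Nat.cast_nonneg _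
    have nα : 0 ≤ α := n2.trans k1
    have nβ : 0 ≤ β := n3.trans k3
    have g3' : (a1 : ℝ) ≤ SC := by rw [← hSN]; exact_mod_cast g3
    have hRR : α ^ 2 + β ^ 2 ≤ R := by
      rw [hR]
      push_cast
      nlinarith
    have hRR0 : 0 ≤ α ^ 2 + β ^ 2 := by positivity
    have hRR2 : (α ^ 2 + β ^ 2) ^ 2 ≤ (R : ℝ) ^ 2 := by gcongr
    cases c2 : Nat.ble (4 * (R * R) + 1) (b1 * (a1 * a1 + b1 * b1 - 2 * (a1 * SN)) * SN) with
    | true =>
      have g4 := Nat.le_of_ble_eq_true c2
      have g5 : 2 * (a1 * SN) ≤ a1 * a1 + b1 * b1 := by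
        by_contra hcon
        push Not at hcon
        rw [Nat.sub_eq_zero_of_le hcon.le, mul_zero, zero_mul] at g4
        omega
      have g4' : (4 * ((R : ℝ) * R) + 1) ≤ b1 * (a1 * a1 + b1 * b1 - 2 * (a1 * SC)) * SC := by
        rw [← hSN]
        have : ((4 * (R * R) + 1 : ℕ) : ℝ)
            ≤ ((b1 * (a1 * a1 + b1 * b1 - 2 * (a1 * SN)) * SN : ℕ) : ℝ) := by exact_mod_cast g4
        rw [Nat.cast_mul, Nat.cast_mul, Nat.cast_sub g5] at this
        push_cast at this ⊢
        exact this
      have g5' : 0 ≤ (a1 : ℝ) * a1 + b1 * b1 - 2 * (a1 * SC) := by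
        rw [← hSN]
        have : ((2 * (a1 * SN) : ℕ) : ℝ) ≤ ((a1 * a1 + b1 * b1 : ℕ) : ℝ) := by exact_mod_cast g5
        push_cast at this ⊢
        linarith
      have m1 : (a1 : ℝ) * a1 + b1 * b1 - 2 * (a1 * SC) ≤ α ^ 2 + β ^ 2 - 2 * α * SC := by
        have e1 : (a1 - α) * ((a1 + α) - 2 * SC) ≤ 0 :=
          mul_nonpos_of_nonneg_of_nonpos (by linarith) (by linarith)
        have e2 : (b1 : ℝ) * b1 ≤ β * β := by gcongr
        linarith
      have m2 : b1 * (a1 * a1 + b1 * b1 - 2 * (a1 * SC)) * SC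
          ≤ β * (α ^ 2 + β ^ 2 - 2 * α * SC) * SC := by gcongr
      nlinarith
    | false =>
      rw [c2, cond_false] at h
      have g4 := Nat.le_of_ble_eq_true h
      have g5 : a2 * a2 + b2 * b2 ≤ 2 * (a2 * SN) := by
        by_contra hcon
        push Not at hcon
        rw [Nat.sub_eq_zero_of_le hcon.le, mul_zero, zero_mul, mul_zero] at g4
        omega
      have g4' : (364 * ((R : ℝ) * R) + 1)
          ≤ 100 * (b1 * (2 * (a2 * SC) - (a2 * a2 + b2 * b2)) * SC) := by
        rw [← hSN]
        have : ((364 * (R * R) + 1 : ℕ) : ℝ)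
            ≤ ((100 * (b1 * (2 * (a2 * SN) - (a2 * a2 + b2 * b2)) * SN) : ℕ) : ℝ) := by
          exact_mod_cast g4
        rw [Nat.cast_mul, Nat.cast_mul, Nat.cast_mul, Nat.cast_sub g5] at this
        push_cast at this ⊢
        exact this
      have g5' : 0 ≤ 2 * ((a2 : ℝ) * SC) - (a2 * a2 + b2 * b2) := by
        rw [← hSN]
        have : ((a2 * a2 + b2 * b2 : ℕ) : ℝ) ≤ ((2 * (a2 * SN) : ℕ) : ℝ) := by exact_mod_cast g5
        push_cast at this ⊢
        linarith
      have m1 : 2 * ((a2 : ℝ) * SC) - (a2 * a2 + b2 * b2)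
          ≤ 2 * α * SC - (α ^ 2 + β ^ 2) := by
        have e1 : 0 ≤ (α - a2) * (2 * SC - (a2 + α)) :=
          mul_nonneg (by linarith) (by linarith)
        have e2 : β * β ≤ b2 * b2 := by gcongr
        linarith
      have m2 : b1 * (2 * (a2 * SC) - (a2 * a2 + b2 * b2)) * SC
          ≤ β * (2 * α * SC - (α ^ 2 + β ^ 2)) * SC := by gcongr
      norm_num at h5
      nlinarith

lemma covN_sound (n : ℕ) : ∀ (a b ha hb : ℕ) (x : ℂ), covN n a b ha hb = true →
    |(SC : ℝ) * (-x.re) - a| ≤ ha → |(SC : ℝ) * x.im - b| ≤ hb →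
    -(3.64 * (x.re ^ 2 + x.im ^ 2) ^ 2) ≤ x.im * (x.re ^ 2 + x.im ^ 2 + 2 * x.re) →
    x.im * (x.re ^ 2 + x.im ^ 2 + 2 * x.re) ≤ 4 * (x.re ^ 2 + x.im ^ 2) ^ 2 →
    ∃ k, 2 < ‖gx^[k] x‖ := by
  induction n with
  | zero => intro a b ha hb x h; simp [covN] at h
  | succ n ih =>
    intro a b ha hb x h hxa hxb h5 h6
    have hS : (0 : ℝ) < (SC : ℝ) := by norm_num [SC]
    rw [covN] at h
    simp only [forceN_eq, Nat.add_eq, Nat.sub_eq, Nat.mul_eq, nat_div] at h
    have hhalf : ∀ z : ℕ, (z : ℝ) ≤ 2 * (((z + 1) / 2 : ℕ) : ℝ) := by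
      intro z
      have : z ≤ 2 * ((z + 1) / 2) := by omega
      exact_mod_cast this
    rw [abs_le] at hxa hxb
    cases h0 : skipN a b ha hb with
    | true =>
      exfalso
      refine skipN_sound (α := (SC : ℝ) * (-x.re)) (β := (SC : ℝ) * x.im) h0 (by linarith [hxa.1])
        (by linarith [hxa.2]) (by linarith [hxb.1]) (by linarith [hxb.2]) ?_ ?_
      · have := mul_le_mul_of_nonneg_left h5 (pow_nonneg hS.le 4)
        linarith
      · have := mul_le_mul_of_nonneg_left h6 (pow_nonneg hS.le 4)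
        linarith
    | false =>
      rw [h0, cond_false] at h
      cases h1 : (Nat.ble n 15 && (Nat.ble (ha * ha + hb * hb) (radN ha hb * radN ha hb)
        && Nat.ble a BN && chkN 110 (BN - a) (BN + b) (radN ha hb))) with
      | true =>
        rw [Bool.and_eq_true, Bool.and_eq_true, Bool.and_eq_true] at h1
        obtain ⟨-, ⟨h2, h3⟩, h4⟩ := h1
        apply chkN_sound 110 _ _ (radN ha hb) x h4
        have h2' : (ha : ℝ) * ha + hb * hb ≤ radN ha hb * radN ha hb := by
          exact_mod_cast Nat.le_of_ble_eq_true h2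
        have h3' := Nat.le_of_ble_eq_true h3
        have e1 : (((BN - a : ℕ) : ℤ) - BN : ℤ) = -(a : ℤ) := by
          rw [Nat.cast_sub h3']; ring
        have e2 : (((BN + b : ℕ) : ℤ) - BN : ℤ) = (b : ℤ) := by
          rw [Nat.cast_add]; ring
        rw [e1, e2]
        have e : ‖(SC : ℂ) * x - (((-(a : ℤ) : ℤ) : ℂ) + (((b : ℤ) : ℤ) : ℂ) * I)‖ ^ 2
            = ((SC : ℝ) * (-x.re) - a) ^ 2 + ((SC : ℝ) * x.im - b) ^ 2 := by
          rw [← normSq_eq_norm_sq, normSq_apply]
          have r1 : ((SC : ℂ) * x - (((-(a : ℤ) : ℤ) : ℂ) + (((b : ℤ) : ℤ) : ℂ) * I)).re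
              = (SC : ℝ) * x.re + a := by
            simp
          have r2 : ((SC : ℂ) * x - (((-(a : ℤ) : ℤ) : ℂ) + (((b : ℤ) : ℤ) : ℂ) * I)).im
              = (SC : ℝ) * x.im - b := by
            simp
          rw [r1, r2]; ring
        have q1 : ((SC : ℝ) * (-x.re) - a) ^ 2 ≤ (ha : ℝ) ^ 2 := sq_le_sq' hxa.1 hxa.2
        have q2 : ((SC : ℝ) * x.im - b) ^ 2 ≤ (hb : ℝ) ^ 2 := sq_le_sq' hxb.1 hxb.2
        apply le_of_sq_le_sq _ (Nat.cast_nonneg _)
        rw [e]
        nlinarith
      | false =>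
        rw [h1, cond_false] at h
        cases h2 : Nat.ble hb ha with
        | true =>
          rw [h2, cond_true] at h
          cases h7 : Nat.ble ((ha + 1) / 2) a with
          | false => rw [h7, cond_false] at h; simp at h
          | true =>
            rw [h7, cond_true, Bool.and_eq_true] at h
            have h8 := Nat.le_of_ble_eq_true h7
            have hh := hhalf ha
            rcases le_total ((SC : ℝ) * (-x.re)) a with h3 | h3
            · apply ih _ _ _ _ x h.1 _ (abs_le.mpr hxb) h5 h6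
              rw [Nat.cast_sub h8, abs_le]
              constructor <;> linarith [hxa.1, hxa.2]
            · apply ih _ _ _ _ x h.2 _ (abs_le.mpr hxb) h5 h6
              rw [Nat.cast_add, abs_le]
              constructor <;> linarith [hxa.1, hxa.2]
        | false =>
          rw [h2, cond_false] at h
          cases h7 : Nat.ble ((hb + 1) / 2) b with
          | false => rw [h7, cond_false] at h; simp at h
          | true =>
            rw [h7, cond_true, Bool.and_eq_true] at h
            have h8 := Nat.le_of_ble_eq_true h7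
            have hh := hhalf hb
            rcases le_total ((SC : ℝ) * x.im) b with h3 | h3
            · apply ih _ _ _ _ x h.1 (abs_le.mpr hxa) _ h5 h6
              rw [Nat.cast_sub h8, abs_le]
              constructor <;> linarith [hxb.1, hxb.2]
            · apply ih _ _ _ _ x h.2 (abs_le.mpr hxa) _ h5 h6
              rw [Nat.cast_add, abs_le]
              constructor <;> linarith [hxb.1, hxb.2]

/-- All points of the region escape. -/
lemma region_escape {x : ℂ} (h1 : -0.0123 ≤ x.re) (h2 : x.re ≤ -0.0038) (h3 : 0.1247 ≤ x.im)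
    (h4 : x.im ≤ 0.1303)
    (h5 : -(3.64 * (x.re ^ 2 + x.im ^ 2) ^ 2) ≤ x.im * (x.re ^ 2 + x.im ^ 2 + 2 * x.re))
    (h6 : x.im * (x.re ^ 2 + x.im ^ 2 + 2 * x.re) ≤ 4 * (x.re ^ 2 + x.im ^ 2) ^ 2) :
    ∃ k, 2 < ‖gx^[k] x‖ := by
  refine covN_sound _ _ _ _ _ x covN_true ?_ ?_ h5 h6
  · rw [abs_le]
    constructor
    · norm_num [SC]; norm_num at h1 h2; linarith
    · norm_num [SC]; norm_num at h1 h2; linarith
  · rw [abs_le]
    constructor
    · norm_num [SC]; norm_num at h3 h4; linarith
    · norm_num [SC]; norm_num at h3 h4; linarith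

end MPc6f924
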