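import Mathlib
import Pool.Agent.Work.MP_c6f924_an.Horn
import Pool.Agent.Work.MP_c6f924_an.RegionB
import Pool.Agent.Work.MP_c6f924_an.SoundB

/-!
# The full channel at `-3/4`
-/

namespace MPc6f924

open Complex Filter Topology N62a1eb23

lemma arg_conj_of_re_pos {t : ℂ} (ht : 0 < t.re) : arg (starRingEnd ℂ t) = -arg t := by
  rw [arg_conj, if_neg]
  intro h
  have h1 := abs_arg_lt_pi_div_two_iff.mpr (Or.inl ht)
  rw [h, abs_of_pos Real.pi_pos] at h1
  linarith [Real.pi_pos]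

lemma VW_conj {x t : ℂ} (ht : 0 < t.re) :
    (VW (starRingEnd ℂ x) (starRingEnd ℂ t)).im = -(VW x t).im := by
  rw [VW_im, VW_im, arg_conj_of_re_pos ht]
  simp only [conj_re, conj_im]
  ring

lemma escape_exit {y s : ℂ} (h1 : ER y s) (h2 : 30 ≤ s.re) (h3 : s.re ≤ 31.31)
    (h4 : ‖y‖ ≤ 7 / 50) (h5 : |(VW y s).im| ≤ 1.982) : ∃ m, 3 < ‖gx^[m] y‖ := by
  have main : ∀ y s : ℂ, ER y s → 30 ≤ s.re → s.re ≤ 31.31 → ‖y‖ ≤ 7 / 50 →
      |(VW y s).im| ≤ 1.982 → 0 < y.im → ∃ m, 3 < ‖gx^[m] y‖ := by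
    intro y s h1 h2 h3 h4 h5 hb
    obtain ⟨⟨a1, a2, b1, b2⟩, s1, s2⟩ := region_pos h1 h2 h3 h4 h5 hb
    have hrel := im_rel h1
    have hR : 0 ≤ (y.re ^ 2 + y.im ^ 2) ^ 2 := by positivity
    obtain ⟨k, hk⟩ := region_escape a1 a2 b1 b2 (by
      rw [← hrel]
      have := mul_le_mul_of_nonneg_right s1 hR
      norm_num at this ⊢
      linarith) (by
      rw [← hrel]
      have := mul_le_mul_of_nonneg_right s2 hR
      linarith)
    exact unbounded_of hk 3
  rcases lt_trichotomy y.im 0 with hb | hb | hb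
  · have her' : ER (starRingEnd ℂ y) (starRingEnd ℂ s) := by
      unfold ER at h1 ⊢
      have := congrArg (starRingEnd ℂ) h1
      simpa [map_ofNat] using this
    obtain ⟨m, hm⟩ := main _ _ her' (by simpa using h2) (by simpa using h3) (by simpa using h4)
      (by rw [VW_conj (by linarith), abs_neg]; exact h5) (by simpa using hb)
    rw [conj_iter, norm_conj] at hm
    exact ⟨m, hm⟩
  · exfalso
    obtain ⟨hre, -⟩ := er_real h1
    rw [hb] at hre
    have h7 := abs_le.mp ((abs_re_le_norm y).trans h4)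
    nlinarith [h7.1, h7.2, mul_nonneg (show (0 : ℝ) ≤ s.re by linarith) (mul_self_nonneg y.re)]
  · exact main _ _ h1 h2 h3 h4 h5 hb

lemma escape_channelB {x t : ℂ} (her : ER x t) (hre : 6000 ≤ t.re) (hx : ‖x‖ ≤ 1 / 20)
    (him : |(VV x t).im| ≤ 1.9641) : ∃ n, 3 < ‖gx^[n] x‖ := by
  have hx2 := (er_norm' her (by linarith) (by linarith)).2
  have hx3 : ‖x‖ ^ 2 ≤ 0.57 / 6000 := hx2.trans (by gcongr)
  have hW : |(VW x t).im| ≤ 1.9644 := by
    have e : VW x t = VV x t - x ^ 2 * (53 / 32 - 35 / 32 * x) := by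
      unfold VW VV; ring
    rw [e, sub_im]
    have h1 : ‖x ^ 2 * (53 / 32 - 35 / 32 * x)‖ ≤ 0.0003 := by
      rw [norm_mul, norm_pow]
      have h2 : ‖(53 / 32 - 35 / 32 * x : ℂ)‖ ≤ 2 := by
        refine (norm_sub_le _ _).trans ?_
        rw [norm_mul]
        have e1 : ‖(53 / 32 : ℂ)‖ = 53 / 32 := by norm_num
        have e2 : ‖(35 / 32 : ℂ)‖ = 35 / 32 := by norm_num
        rw [e1, e2]
        linarith
      calc ‖x‖ ^ 2 * ‖(53 / 32 - 35 / 32 * x : ℂ)‖ ≤ 0.57 / 6000 * 2 := by gcongr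
        _ ≤ 0.0003 := by norm_num
    have h2 := (abs_im_le_norm _).trans h1
    refine (abs_sub _ _).trans ?_
    norm_num at him h2 ⊢
    linarith
  obtain ⟨n, s, h1, h2, h3, h4, h5⟩ := exists_exit' her (by linarith) (by linarith) hW
  obtain ⟨m, hm⟩ := escape_exit h1 h2 h3 h4 (by norm_num at h5 ⊢; linarith)
  refine ⟨m + n, ?_⟩
  rw [Function.iterate_add_apply]
  exact hm

lemma no_sequenceB {N : ℕ → ℂ} (hA : Tendsto (fun j => (N j).re) atTop atTop)
    (hν : ∀ j, |(N j).im + 11 / 8 * Real.pi| ≤ 1.964) : ∃ j n, 3 < ‖xorb (qq (N j)) n‖ := by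
  by_contra hcon
  push Not at hcon
  obtain ⟨C, hC, hCerr⟩ := err_bound
  obtain ⟨x, t, h1, h2, h3, h4, h5⟩ := limit_lemma hC hCerr (σ := 1.964) (by norm_num) 6000
    (η := 0.0001) (by norm_num) hA hν hcon
  have h4' : |(VV x t).im| ≤ 1.9641 := by
    unfold VV
    refine h4.trans (by norm_num)
  obtain ⟨n, hn⟩ := escape_channelB (x := x) (t := t) h3 h1 h2 h4'
  have := h5 n
  rw [xit_eq_gx] at this
  linarith

theorem hornB : ∃ h₀ : ℝ, 0 < h₀ ∧ ∀ c ∈ mandelbrotSet, |c.im| < h₀ →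
    -(5 / 4 * c.im ^ 2) ≤ c.re + 3 / 4 → c.re + 3 / 4 ≤ 0 → c = -3 / 4 := by
  by_contra hcon
  push Not at hcon
  have hex : ∀ j : ℕ, ∃ c ∈ mandelbrotSet, 0 < c.im ∧ c.im < 1 / ((j : ℝ) + 1) ∧
      -(5 / 4 * c.im ^ 2) ≤ c.re + 3 / 4 ∧ c.re + 3 / 4 ≤ 0 := by
    intro j
    obtain ⟨c, hc, h1, h2, h3, h4⟩ := hcon (1 / ((j : ℝ) + 1)) (by positivity)
    rcases lt_trichotomy c.im 0 with h | h | h
    · refine ⟨starRingEnd ℂ c, mem_conj hc, by simpa using h, ?_, ?_, ?_⟩
      · rw [abs_of_neg h] at h1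
        simpa using h1
      · simpa using h2
      · simpa using h3
    · exfalso
      rw [h] at h2
      apply h4
      apply Complex.ext
      · norm_num at h2 h3 ⊢
        linarith
      · rw [h]; norm_num
    · exact ⟨c, hc, h, by rwa [abs_of_pos h] at h1, h2, h3⟩
  choose c hcM hy0 hy1 hu1 hu2 using hex
  set y : ℕ → ℝ := fun j => (c j).im with hy
  set u : ℕ → ℝ := fun j => (c j).re + 3 / 4 with hu
  have hyt : Tendsto y atTop (𝓝 0) := by
    refine squeeze_zero (fun j => (hy0 j).le) (fun j => (hy1 j).le) ?_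
    exact tendsto_one_div_add_atTop_nhds_zero_nat
  have hut : Tendsto u atTop (𝓝 0) := by
    have h1 : Tendsto (fun j => y j ^ 2) atTop (𝓝 0) := by simpa using hyt.pow 2
    have h2 : Tendsto (fun j => -(5 / 4 * y j ^ 2)) atTop (𝓝 0) := by
      simpa using (h1.const_mul (5 / 4)).neg
    exact tendsto_of_tendsto_of_tendsto_of_le_of_le h2 tendsto_const_nhds (fun j => hu1 j)
      (fun j => hu2 j)
  set ε : ℕ → ℂ := fun j => (u j : ℂ) + y j * I with hε
  have hεc : ∀ j, c j = -3 / 4 + ε j := by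
    intro j
    conv_lhs => rw [← re_add_im (c j)]
    simp only [hε, hu, hy]
    push_cast
    ring
  have hεt : Tendsto ε atTop (𝓝 0) := by
    have h1 : Tendsto (fun j => (u j : ℂ)) atTop (𝓝 ((0 : ℝ) : ℂ)) :=
      (continuous_ofReal.tendsto _).comp hut
    have h2 : Tendsto (fun j => (y j : ℂ)) atTop (𝓝 ((0 : ℝ) : ℂ)) :=
      (continuous_ofReal.tendsto _).comp hyt
    have h3 := h1.add (h2.mul_const I)
    simpa using h3
  set q : ℕ → ℂ := fun j => 2 - 2 * (1 - ε j) ^ (1 / 2 : ℂ) with hq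
  have hqε : ∀ j, q j - q j ^ 2 / 4 = ε j := by
    intro j
    have h1 : ((1 - ε j) ^ (1 / 2 : ℂ)) ^ 2 = 1 - ε j := by
      have := cpow_nat_inv_pow (1 - ε j) (n := 2) (by norm_num)
      rw [Nat.cast_ofNat] at this
      rw [one_div]
      exact this
    simp only [hq]
    linear_combination (-1) * h1
  have hqt : Tendsto q atTop (𝓝 0) := by
    have h1 : Tendsto (fun j => 1 - ε j) atTop (𝓝 1) := by
      simpa using hεt.const_sub 1
    have h2 : Tendsto (fun j => (1 - ε j) ^ (1 / 2 : ℂ)) atTop (𝓝 ((1 : ℂ) ^ (1 / 2 : ℂ))) :=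
      h1.cpow tendsto_const_nhds (by simp)
    rw [one_cpow] at h2
    have h3 := (h2.const_mul 2).const_sub 2
    rw [show (2 : ℂ) - 2 * 1 = 0 by norm_num] at h3
    exact h3
  have hq0 : ∀ j, q j ≠ 0 := by
    intro j h
    have h1 := hqε j
    rw [h] at h1
    have h2 := congrArg im h1
    simp [hε] at h2
    exact absurd h2 (hy0 j).ne
  have hNN := tendsto_NN hqt hq0
  have hqn := hqt.norm
  rw [norm_zero] at hqn
  have hsmall := hqn.eventually_le_const (u := 1 / 2) (by norm_num)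
  have hpi := Real.pi_pos
  have hre : Tendsto (fun j => (NN (q j)).re - Real.pi * (y j / (u j ^ 2 + y j ^ 2))) atTop
      (𝓝 0) := by
    have h1 := (continuous_re.tendsto _).comp hNN
    have e : (-(3 / 4 * (Real.pi : ℂ)) * I).re = 0 := by simp
    rw [e] at h1
    refine h1.congr fun j => ?_
    simp only [Function.comp]
    rw [hqε, sub_re]
    simp only [hε]
    rw [(re_im_piI_div (u j) (y j) (by have := hy0 j; positivity)).1]
  have him : Tendsto (fun j => (NN (q j)).im - Real.pi * (u j / (u j ^ 2 + y j ^ 2))) atTop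
      (𝓝 (-(3 / 4 * Real.pi))) := by
    have h1 := (continuous_im.tendsto _).comp hNN
    have e : (-(3 / 4 * (Real.pi : ℂ)) * I).im = -(3 / 4 * Real.pi) := by
      have : (-(3 / 4 * (Real.pi : ℂ)) * I) = ((-(3 / 4 * Real.pi) : ℝ) : ℂ) * I := by
        push_cast; ring
      rw [this, im_ofReal_mul, I_im, mul_one]
    rw [e] at h1
    refine h1.congr fun j => ?_
    simp only [Function.comp]
    rw [hqε, sub_im]
    simp only [hε]
    rw [(re_im_piI_div (u j) (y j) (by have := hy0 j; positivity)).2]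
  -- real part tends to infinity
  have hRe : Tendsto (fun j => (NN (q j)).re) atTop atTop := by
    have h1 : Tendsto (fun j => Real.pi * (y j / (u j ^ 2 + y j ^ 2))) atTop atTop := by
      have h2 : Tendsto (fun j : ℕ => ((j : ℝ) + 1) / 3) atTop atTop :=
        (tendsto_atTop_add_const_right _ _ tendsto_natCast_atTop_atTop).atTop_div_const
          (by norm_num)
      refine tendsto_atTop_mono (fun j => ?_) h2
      have a1 := hy0 j
      have a2 := hy1 j
      have a3 := hu1 j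
      have a4 := hu2 j
      change 0 < y j at a1
      change y j < _ at a2
      change -(5 / 4 * y j ^ 2) ≤ u j at a3
      change u j ≤ 0 at a4
      have a5 : (0 : ℝ) < (j : ℝ) + 1 := by positivity
      rw [lt_div_iff₀ a5] at a2
      have a6 : y j ≤ 1 := by nlinarith [(Nat.cast_nonneg j : (0 : ℝ) ≤ j)]
      have a7 : u j ^ 2 ≤ 25 / 16 * y j ^ 2 := by
        have : u j ^ 2 ≤ (5 / 4 * y j ^ 2) ^ 2 :=
          sq_le_sq' (by linarith) (by nlinarith [sq_nonneg (y j)])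
        have hy1 : y j ^ 2 ≤ 1 := by nlinarith
        calc u j ^ 2 ≤ (5 / 4 * y j ^ 2) ^ 2 := this
          _ = 25 / 16 * y j ^ 2 * y j ^ 2 := by ring
          _ ≤ 25 / 16 * 1 * y j ^ 2 := by gcongr
          _ = 25 / 16 * y j ^ 2 := by ring
      have a8 : 0 < u j ^ 2 + y j ^ 2 := by positivity
      have a9 : ((j : ℝ) + 1) / 3 ≤ y j / (u j ^ 2 + y j ^ 2) := by
        rw [div_le_div_iff₀ (by norm_num) a8]
        nlinarith
      have a10 : y j / (u j ^ 2 + y j ^ 2) ≤ Real.pi * (y j / (u j ^ 2 + y j ^ 2)) := by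
        have : 0 ≤ y j / (u j ^ 2 + y j ^ 2) := by positivity
        nlinarith [Real.pi_gt_three]
      linarith
    refine (h1.atTop_add hre).congr fun j => ?_
    ring
  -- imaginary part
  have hIm : ∀ᶠ j in atTop, |(NN (q j)).im + 11 / 8 * Real.pi| ≤ 1.964 := by
    have e1 : ∀ᶠ j in atTop, |((NN (q j)).im - Real.pi * (u j / (u j ^ 2 + y j ^ 2)))
        - (-(3 / 4 * Real.pi))| < 0.0004 := by
      have := Metric.tendsto_nhds.mp him 0.0004 (by norm_num)
      filter_upwards [this] with j hj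
      rwa [Real.dist_eq] at hj
    filter_upwards [e1] with j h1
    have a1 := hy0 j
    have a3 := hu1 j
    have a4 := hu2 j
    change -(5 / 4 * y j ^ 2) ≤ u j at a3
    change u j ≤ 0 at a4
    have a8 : 0 < u j ^ 2 + y j ^ 2 := by positivity
    have b1 : -(5 / 4) ≤ u j / (u j ^ 2 + y j ^ 2) := by
      rw [le_div_iff₀ a8]; nlinarith [sq_nonneg (u j)]
    have b2 : u j / (u j ^ 2 + y j ^ 2) ≤ 0 := div_nonpos_of_nonpos_of_nonneg a4 a8.le
    have hp1 : Real.pi < 3.1416 := Real.pi_lt_d4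
    have b3 : |Real.pi * (u j / (u j ^ 2 + y j ^ 2)) + 5 / 8 * Real.pi| ≤ 1.9635 := by
      have e3 : Real.pi * (u j / (u j ^ 2 + y j ^ 2)) + 5 / 8 * Real.pi
          = Real.pi * (u j / (u j ^ 2 + y j ^ 2) + 5 / 8) := by ring
      rw [e3, abs_mul, abs_of_pos hpi]
      have b4 : |u j / (u j ^ 2 + y j ^ 2) + 5 / 8| ≤ 5 / 8 := by
        rw [abs_le]
        constructor <;> linarith
      calc Real.pi * |u j / (u j ^ 2 + y j ^ 2) + 5 / 8| ≤ 3.1416 * (5 / 8) := by gcongr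
        _ ≤ 1.9635 := by norm_num
    have e4 : (NN (q j)).im + 11 / 8 * Real.pi
        = (((NN (q j)).im - Real.pi * (u j / (u j ^ 2 + y j ^ 2))) - (-(3 / 4 * Real.pi)))
          + (Real.pi * (u j / (u j ^ 2 + y j ^ 2)) + 5 / 8 * Real.pi) := by ring
    rw [e4]
    refine (abs_add_le _ _).trans ?_
    norm_num at h1 b3 ⊢
    linarith
  obtain ⟨J, hJ⟩ := eventually_atTop.mp (hIm.and hsmall)
  obtain ⟨j, n, hjn⟩ := no_sequenceB (N := fun j => NN (q (j + J)))
    ((tendsto_add_atTop_iff_nat (f := fun j => (NN (q j)).re) J).mpr hRe)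
    (fun j => (hJ (j + J) (by omega)).1)
  have hqj := (hJ (j + J) (by omega)).2
  rw [qq_NN (by linarith) (hq0 _)] at hjn
  have h5 := crit_eq_xorb (q (j + J)) n
  rw [hqε, ← hεc] at h5
  have h6 := norm_crit_le_two (hcM (j + J)) n
  have h7 : xorb (q (j + J)) n = crit (c (j + J)) n + 1 / 2 - q (j + J) / 2 := by
    rw [h5]; ring
  rw [h7] at hjn
  have h8 : ‖crit (c (j + J)) n + 1 / 2 - q (j + J) / 2‖ ≤ 2 + 1 / 2 + 1 / 2 / 2 := by
    refine (norm_sub_le _ _).trans ?_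
    rw [norm_div (q (j + J))]
    simp only [Complex.norm_ofNat]
    gcongr
    refine (norm_add_le _ _).trans ?_
    have : ‖(1 / 2 : ℂ)‖ = 1 / 2 := by norm_num
    rw [this]
    linarith
  norm_num at h8
  linarith

end MPc6f924
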