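import Mathlib
import Pool.Agent.Work.MP_c6f924_an.Defs

/-!
# Attracting cycles attract the critical orbit (Fatou)
-/

namespace MPc6f924

open Complex Filter Topology Metric N62a1eb23 Bornology

/-- Square roots of zero-free holomorphic functions on discs. -/
lemma exists_sqrt {g : ℂ → ℂ} {a b : ℂ} {ρ : ℝ} (hρ : 0 < ρ)
    (hg : DifferentiableOn ℂ g (ball a ρ)) (h0 : ∀ z ∈ ball a ρ, g z ≠ 0) (hb : b ^ 2 = g a) :
    ∃ h : ℂ → ℂ, DifferentiableOn ℂ h (ball a ρ) ∧ (∀ z ∈ ball a ρ, h z ^ 2 = g z) ∧ h a = b := by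
  have hd : DifferentiableOn ℂ (fun z => deriv g z / g z) (ball a ρ) :=
    (hg.deriv isOpen_ball).div hg h0
  obtain ⟨L, hLa, hL⟩ := (hd.isExactOn_ball).with_val_at a 0
  have ha : a ∈ ball a ρ := mem_ball_self hρ
  set F : ℂ → ℂ := fun z => g z * exp (-L z) with hF
  have hgd : ∀ z ∈ ball a ρ, HasDerivAt g (deriv g z) z := fun z hz =>
    (hg.differentiableAt (isOpen_ball.mem_nhds hz)).hasDerivAt
  have hFd : ∀ z ∈ ball a ρ, HasDerivAt F 0 z := by
    intro z hz
    have h1 := (hgd z hz).mul ((hL z hz).neg.cexp)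
    convert! h1 using 1
    have := h0 z hz
    field_simp
    ring
  have hFc : ∀ z ∈ ball a ρ, F z = g a := by
    intro z hz
    have h1 := isOpen_ball.is_const_of_deriv_eq_zero (𝕜 := ℂ) (s := ball a ρ) (f := F)
      (convex_ball a ρ).isPreconnected
      (fun w hw => (hFd w hw).differentiableAt.differentiableWithinAt)
      (fun w hw => (hFd w hw).deriv) hz ha
    rw [h1, hF]
    simp [hLa]
  refine ⟨fun z => b * exp (L z / 2), ?_, ?_, ?_⟩
  · intro z hz
    have := ((hL z hz).div_const 2).cexp.const_mul b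
    exact this.differentiableAt.differentiableWithinAt
  · intro z hz
    have h1 := hFc z hz
    rw [hF] at h1
    simp only at h1
    have h2 : exp (L z / 2) ^ 2 = exp (L z) := by
      rw [← exp_nat_mul]; congr 1; push_cast; ring
    rw [mul_pow, h2, hb, ← h1, mul_assoc, ← exp_add]
    simp
  · simp [hLa]

/-- The quadratic map. -/
def fc (c z : ℂ) : ℂ := z ^ 2 + c

lemma crit_eq (c : ℂ) (n : ℕ) : crit c n = (fc c)^[n] 0 := rfl

lemma differentiable_fc (c : ℂ) : Differentiable ℂ (fc c) := by
  unfold fc; fun_prop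

lemma norm_le_of_fc {c z : ℂ} {R : ℝ} (h2 : 2 ≤ R) (hc : ‖c‖ ≤ R) (h : ‖fc c z‖ ≤ R) :
    ‖z‖ ≤ R := by
  by_contra hcon
  push Not at hcon
  have h1 : ‖z ^ 2‖ - ‖c‖ ≤ ‖fc c z‖ := by
    have := norm_sub_norm_le (z ^ 2) (-c)
    simpa [fc, sub_neg_eq_add] using this
  rw [norm_pow] at h1
  nlinarith

/-- **Fatou**: if `z ↦ z ^ 2 + c` has an attracting cycle then `c` lies in the Mandelbrot set. -/
theorem attracting_mem {c a : ℂ} {p : ℕ} (hp : 0 < p) (hper : (fc c)^[p] a = a)
    (hμ : ‖deriv (fc c)^[p] a‖ < 1) : c ∈ mandelbrotSet := by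
  by_contra hc
  rw [mem_iff_not_tendsto, not_not] at hc
  have hperk : ∀ m, (fc c)^[m + p] a = (fc c)^[m] a := by
    intro m
    rw [Function.iterate_add_apply, hper]
  set F : ℂ → ℂ := (fc c)^[p] with hF
  set μ := deriv F a with hμdef
  have hFdiff : Differentiable ℂ F := (differentiable_fc c).iterate p
  have hFa : HasDerivAt F μ a := (hFdiff a).hasDerivAt
  -- invariant disc
  obtain ⟨ρ, hρ, hball⟩ : ∃ ρ > 0, ∀ z ∈ ball a ρ, ‖F z - a‖ ≤ ‖z - a‖ := by
    have h1 := hFa.isLittleO.def (show 0 < 1 - ‖μ‖ by linarith)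
    obtain ⟨ρ, hρ, h2⟩ := Metric.eventually_nhds_iff_ball.mp h1
    refine ⟨ρ, hρ, fun z hz => ?_⟩
    have h3 := h2 z hz
    simp only [smul_eq_mul] at h3
    rw [hper] at h3
    have e : F z - a = (F z - a - (z - a) * μ) + (z - a) * μ := by ring
    rw [e]
    refine (norm_add_le _ _).trans ?_
    rw [norm_mul (z - a)]
    nlinarith
  have hmaps : ∀ z ∈ ball a ρ, F z ∈ ball a ρ := by
    intro z hz
    rw [mem_ball_iff_norm] at hz ⊢
    exact (hball z (by rwa [mem_ball_iff_norm])).trans_lt hz
  -- the critical orbit avoids the disc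
  have havoid : ∀ n, crit c n ∉ ball a ρ := by
    intro n hn
    have h1 : ∀ k, crit c (n + p * k) ∈ ball a ρ := by
      intro k
      induction k with
      | zero => simpa using hn
      | succ k ih =>
        have : crit c (n + p * (k + 1)) = F (crit c (n + p * k)) := by
          rw [show n + p * (k + 1) = p + (n + p * k) by ring, crit_eq, crit_eq, hF,
            Function.iterate_add_apply]
        rw [this]
        exact hmaps _ ih
    have h2 : Tendsto (fun k => n + p * k) atTop atTop := by
      apply tendsto_atTop_mono (f := fun k => k) _ tendsto_id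
      intro k
      nlinarith
    have h3 := (tendsto_norm_atTop_iff_cobounded.mpr hc).comp h2
    obtain ⟨k, hk⟩ := (h3.eventually_gt_atTop (‖a‖ + ρ)).exists
    have h4 := h1 k
    rw [mem_ball_iff_norm] at h4
    have h5 := norm_sub_norm_le (crit c (n + p * k)) a
    simp only [Function.comp] at hk
    linarith
  set R : ℝ := max 2 (max ‖c‖ (‖a‖ + ρ)) with hR
  have hR2 : 2 ≤ R := le_max_left _ _
  have hRc : ‖c‖ ≤ R := (le_max_left _ _).trans (le_max_right _ _)
  have hRa : ‖a‖ + ρ ≤ R := (le_max_right _ _).trans (le_max_right _ _)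
  -- inverse branches
  have hinv : ∀ n : ℕ, ∃ φ : ℂ → ℂ, DifferentiableOn ℂ φ (ball a ρ) ∧
      (∀ z ∈ ball a ρ, (fc c)^[n] (φ z) = z) ∧ φ a = (fc c)^[(p - 1) * n] a ∧
      ∀ z ∈ ball a ρ, ‖φ z‖ ≤ R := by
    intro n
    induction n with
    | zero =>
      refine ⟨id, differentiableOn_id, fun z _ => rfl, rfl, fun z hz => ?_⟩
      rw [mem_ball_iff_norm] at hz
      have h5 := norm_sub_norm_le z a
      simp only [id]
      linarith
    | succ n ih =>
      obtain ⟨φ, h1, h2, h3, h4⟩ := ih
      have hne : ∀ z ∈ ball a ρ, φ z - c ≠ 0 := by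
        intro z hz h
        have h5 : φ z = c := sub_eq_zero.mp h
        have h6 := h2 z hz
        rw [h5] at h6
        have h7 : crit c (n + 1) = z := by
          rw [crit_eq, Function.iterate_succ_apply]
          have : fc c 0 = c := by simp [fc]
          rw [this, h6]
        exact havoid (n + 1) (h7 ▸ hz)
      have hb : ((fc c)^[(p - 1) * (n + 1)] a) ^ 2 = φ a - c := by
        rw [h3]
        have h5 : fc c ((fc c)^[(p - 1) * (n + 1)] a) = (fc c)^[(p - 1) * n] a := by
          rw [← Function.iterate_succ_apply' (fc c)]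
          have : ((p - 1) * (n + 1)).succ = (p - 1) * n + p := by
            obtain ⟨q, rfl⟩ : ∃ q, p = q + 1 := ⟨p - 1, by omega⟩
            simp only [Nat.add_sub_cancel]
            rw [Nat.succ_eq_add_one]; ring
          rw [this, hperk]
        rw [← h5]
        simp [fc]
      obtain ⟨h, k1, k2, k3⟩ := exists_sqrt hρ (h1.sub_const c) hne hb
      have k4 : ∀ z ∈ ball a ρ, fc c (h z) = φ z := by
        intro z hz
        unfold fc
        rw [k2 z hz]; ring
      refine ⟨h, k1, fun z hz => ?_, k3, fun z hz => ?_⟩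
      · rw [Function.iterate_succ_apply, k4 z hz, h2 z hz]
      · apply norm_le_of_fc hR2 hRc
        rw [k4 z hz]
        exact h4 z hz
  -- Cauchy estimate
  have hcau : ∀ k : ℕ, 1 ≤ ‖μ‖ ^ k * (R / (ρ / 2)) := by
    intro k
    obtain ⟨φ, h1, h2, h3, h4⟩ := hinv (p * k)
    have ha : a ∈ ball a ρ := mem_ball_self hρ
    have hφa : φ a = a := by
      rw [h3]
      have : ∀ m, (fc c)^[p * m] a = a := by
        intro m
        induction m with
        | zero => rfl
        | succ m ih => rw [mul_add, mul_one, hperk, ih]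
      rw [show (p - 1) * (p * k) = p * ((p - 1) * k) by ring]
      exact this _
    have hφd : HasDerivAt φ (deriv φ a) a :=
      (h1.differentiableAt (isOpen_ball.mem_nhds ha)).hasDerivAt
    have hFk : HasDerivAt (F^[k]) (μ ^ k) a := HasDerivAt.iterate a hFa hper k
    have hcomp : HasDerivAt (F^[k] ∘ φ) (μ ^ k * deriv φ a) a := by
      apply HasDerivAt.comp
      · rw [hφa]; exact hFk
      · exact hφd
    have hid : HasDerivAt (F^[k] ∘ φ) 1 a := by
      have h5 : (F^[k] ∘ φ) =ᶠ[𝓝 a] id := by
        filter_upwards [isOpen_ball.mem_nhds ha] with z hz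
        simp only [Function.comp, id]
        rw [hF, ← Function.iterate_mul]
        exact h2 z hz
      exact (hasDerivAt_id a).congr_of_eventuallyEq h5
    have h6 := hcomp.unique hid
    have h7 : ‖deriv φ a‖ ≤ R / (ρ / 2) := by
      apply norm_deriv_le_of_forall_mem_sphere_norm_le (by positivity)
      · apply DifferentiableOn.diffContOnCl
        apply h1.mono
        refine closure_ball_subset_closedBall.trans ?_
        exact closedBall_subset_ball (by linarith)
      · intro z hz
        apply h4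
        exact sphere_subset_closedBall.trans (closedBall_subset_ball (by linarith)) hz
    have h8 := congrArg norm h6
    rw [norm_mul, norm_pow, norm_one] at h8
    rw [← h8]
    gcongr
  have hlim : Tendsto (fun k : ℕ => ‖μ‖ ^ k * (R / (ρ / 2))) atTop (𝓝 0) := by
    have := (tendsto_pow_atTop_nhds_zero_of_lt_one (norm_nonneg μ) hμ).mul_const (R / (ρ / 2))
    simpa using this
  have := ge_of_tendsto' hlim hcau
  linarith

end MPc6f924
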