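import Pool.Agent.Work.MP_c6f924_an.Orbit

set_option autoImplicit false

/-!
The superattracting parameters are dense in the boundary of the Mandelbrot set.
-/

namespace Pool.Agent.Work.MP_c6f924_an

open Set Filter Metric Topology Bornology

/-- A holomorphic function without zeros on a disc has a holomorphic logarithm there. -/
lemma exists_log {f : ℂ → ℂ} {a : ℂ} {R : ℝ} (hR : 0 < R) (hf : DifferentiableOn ℂ f (ball a R))
    (h0 : ∀ z ∈ ball a R, f z ≠ 0) :
    ∃ L : ℂ → ℂ, DifferentiableOn ℂ L (ball a R) ∧ (∀ z ∈ ball a R, Complex.exp (L z) = f z) ∧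
      L a = Complex.log (f a) := by
  have ha : a ∈ ball a R := mem_ball_self hR
  have hdf : DifferentiableOn ℂ (deriv f) (ball a R) := hf.deriv isOpen_ball
  have hq : DifferentiableOn ℂ (fun z => deriv f z / f z) (ball a R) := hdf.div hf h0
  obtain ⟨L, hLa, hL⟩ := hq.isExactOn_ball.with_val_at a (Complex.log (f a))
  refine ⟨L, fun z hz => (hL z hz).differentiableAt.differentiableWithinAt, ?_, hLa⟩
  -- `g = exp (-L) * f` has derivative zero
  set g : ℂ → ℂ := fun z => Complex.exp (-L z) * f z with hg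
  have hgd : ∀ z ∈ ball a R, HasDerivAt g 0 z := by
    intro z hz
    have h1 : HasDerivAt f (deriv f z) z :=
      (hf.differentiableAt (isOpen_ball.mem_nhds hz)).hasDerivAt
    have h2 := ((hL z hz).neg.cexp).mul h1
    have h3 : deriv f z / f z * f z = deriv f z := div_mul_cancel₀ _ (h0 z hz)
    have h4 : Complex.exp (-L z) * -(deriv f z / f z) * f z + Complex.exp (-L z) * deriv f z = 0 := by
      rw [mul_assoc, neg_mul, h3]; ring
    rw [← h4]
    exact h2
  have hconst : ∀ z ∈ ball a R, g z = g a := by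
    intro z hz
    refine (convex_ball a R).is_const_of_fderivWithin_eq_zero (𝕜 := ℂ) (f := g) ?_ ?_ hz ha
    · exact fun w hw => (hgd w hw).differentiableAt.differentiableWithinAt
    · intro w hw
      rw [fderivWithin_of_isOpen isOpen_ball hw]
      ext
      simp [(hgd w hw).hasFDerivAt.fderiv]
  intro z hz
  have hga : g a = 1 := by
    simp only [hg]
    rw [hLa, Complex.exp_neg, Complex.exp_log (h0 a ha), inv_mul_cancel₀ (h0 a ha)]
  have := hconst z hz
  rw [hga] at this
  simp only [hg, Complex.exp_neg] at this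
  have he : Complex.exp (L z) ≠ 0 := Complex.exp_ne_zero _
  field_simp at this
  exact this.symm

/-- Borel-Carathéodory on a disc centred at `a`. -/
lemma borel {V : ℂ → ℂ} {a : ℂ} {R B : ℝ} (hR : 0 < R) (hB : 0 < B)
    (hV : DifferentiableOn ℂ V (ball a R)) (hVB : ∀ z ∈ ball a R, (V z).re ≤ B) {z : ℂ}
    (hz : z ∈ ball a R) :
    ‖V z‖ ≤ 2 * B * ‖z - a‖ / (R - ‖z - a‖) + ‖V a‖ * (R + ‖z - a‖) / (R - ‖z - a‖) := by
  have hmap : ∀ w ∈ ball (0 : ℂ) R, a + w ∈ ball a R := by
    intro w hw
    simpa [mem_ball, dist_eq_norm] using hw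
  have h1 : DifferentiableOn ℂ (fun w => V (a + w)) (ball 0 R) := by
    refine hV.comp ?_ hmap
    exact (differentiable_const a).add differentiable_id |>.differentiableOn
  have hz' : z - a ∈ ball (0 : ℂ) R := by
    simpa [mem_ball, dist_eq_norm] using hz
  have h2 := Complex.borelCaratheodory (f := fun w => V (a + w)) (M := B) (R := R) (z := z - a) hB
    h1 (fun w hw => hVB _ (hmap w hw)) hR hz'
  simpa using h2

/-- Two constants theorem for concentric discs. -/
lemma two_constants {V : ℂ → ℂ} {a x : ℂ} {ρ σ R A ε : ℝ} (hρ : 0 < ρ) (hρσ : ρ < σ) (hσR : σ < R)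
    (hV : DifferentiableOn ℂ V (ball a R)) (hA : ∀ z ∈ closedBall a σ, ‖V z‖ ≤ A)
    (hε : ∀ z ∈ closedBall a ρ, ‖V z‖ ≤ ε) (hx1 : ρ ≤ ‖x - a‖) (hx2 : ‖x - a‖ ≤ σ) :
    ‖V x‖ ≤ ε ^ (1 - (Real.log ‖x - a‖ - Real.log ρ) / (Real.log σ - Real.log ρ)) *
      A ^ ((Real.log ‖x - a‖ - Real.log ρ) / (Real.log σ - Real.log ρ)) := by
  have hσ : 0 < σ := hρ.trans hρσ
  have hxpos : 0 < ‖x - a‖ := hρ.trans_le hx1
  set g : ℂ → ℂ := fun s => V (a + Complex.exp s) with hg
  have hnorm : ∀ s : ℂ, ‖(a + Complex.exp s) - a‖ = Real.exp s.re := by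
    intro s; rw [add_sub_cancel_left, Complex.norm_exp]
  have hlog : Real.log ρ < Real.log σ := Real.log_lt_log hρ hρσ
  have hstrip : ∀ s : ℂ, s.re ≤ Real.log σ → a + Complex.exp s ∈ closedBall a σ := by
    intro s hs
    rw [mem_closedBall, dist_eq_norm, hnorm]
    calc Real.exp s.re ≤ Real.exp (Real.log σ) := Real.exp_le_exp.2 hs
      _ = σ := Real.exp_log hσ
  have hdiff : ∀ s : ℂ, s.re ≤ Real.log σ → DifferentiableAt ℂ g s := by
    intro s hs
    have h1 : a + Complex.exp s ∈ ball a R :=
      (closedBall_subset_ball hσR) (hstrip s hs)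
    have h2 : DifferentiableAt ℂ V (a + Complex.exp s) :=
      hV.differentiableAt (isOpen_ball.mem_nhds h1)
    exact h2.comp s ((differentiableAt_const a).add Complex.differentiable_exp.differentiableAt)
  have hd : DiffContOnCl ℂ g (Complex.HadamardThreeLines.verticalStrip (Real.log ρ) (Real.log σ)) := by
    refine DifferentiableOn.diffContOnCl ?_
    intro s hs
    have hs' : s.re ≤ Real.log σ := by
      have hcl : closure (Complex.HadamardThreeLines.verticalStrip (Real.log ρ) (Real.log σ)) ⊆
          {s : ℂ | s.re ≤ Real.log σ} := by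
        refine closure_minimal ?_ (isClosed_le Complex.continuous_re continuous_const)
        intro s hs
        exact hs.2.le
      exact hcl hs
    exact (hdiff s hs').differentiableWithinAt
  have hBd : BddAbove ((norm ∘ g) '' (Complex.HadamardThreeLines.verticalClosedStrip (Real.log ρ) (Real.log σ))) := by
    refine ⟨A, ?_⟩
    rintro _ ⟨s, hs, rfl⟩
    exact hA _ (hstrip s hs.2)
  -- the point
  set s0 : ℂ := Complex.log (x - a) with hs0
  have hxa : x - a ≠ 0 := by
    intro h; rw [h] at hxpos; simp at hxpos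
  have hs0re : s0.re = Real.log ‖x - a‖ := by rw [hs0, Complex.log_re]
  have hgs0 : g s0 = V x := by
    simp only [hg, hs0]
    rw [Complex.exp_log hxa, add_sub_cancel]
  have hmem : s0 ∈ Complex.HadamardThreeLines.verticalClosedStrip (Real.log ρ) (Real.log σ) := by
    constructor
    · rw [hs0re]; exact Real.log_le_log hρ hx1
    · rw [hs0re]; exact Real.log_le_log hxpos hx2
  have hmain := Complex.HadamardThreeLines.norm_le_interp_of_mem_verticalClosedStrip' (f := g)
    (z := s0) (a := ε) (b := A) hlog hmem hd hBd ?_ ?_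
  · rw [hgs0, hs0re] at hmain
    exact hmain
  · intro s hs
    refine hε _ ?_
    rw [mem_closedBall, dist_eq_norm, hnorm]
    have : s.re = Real.log ρ := hs
    rw [this, Real.exp_log hρ]
  · intro s hs
    refine hA _ ?_
    have : s.re = Real.log σ := hs
    exact hstrip s this.le

end Pool.Agent.Work.MP_c6f924_an
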