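import Mathlib
import Pool.Agent.Work.MP_c6f924_an.Horn
import Pool.Agent.Work.MP_c6f924_an.Attract

/-!
# The modulus of local connectivity at `-3/4`
-/

namespace MPc6f924

open Complex Filter Topology Metric N62a1eb23 Bornology

/-- Parameters with an attracting fixed point of multiplier `l`. -/
lemma cardioid_mem {l : ℂ} (hl : ‖l‖ < 1) : l / 2 - l ^ 2 / 4 ∈ mandelbrotSet := by
  have hper : (fc (l / 2 - l ^ 2 / 4))^[1] (l / 2) = l / 2 := by
    simp only [Function.iterate_one, fc]; ring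
  have hd : HasDerivAt (fc (l / 2 - l ^ 2 / 4)) l (l / 2) := by
    have h1 := ((hasDerivAt_id (l / 2)).pow 2).add_const (l / 2 - l ^ 2 / 4)
    convert! h1 using 1
    simp; ring
  apply attracting_mem (a := l / 2) one_pos hper
  rw [Function.iterate_one, hd.deriv]
  exact hl

/-- Parameters with an attracting cycle of period two. -/
lemma period_two_mem {c : ℂ} (hc : ‖c + 1‖ < 1 / 4) : c ∈ mandelbrotSet := by
  obtain ⟨w, hw⟩ : ∃ w : ℂ, w ^ 2 = 1 - 4 * (c + 1) := by
    refine ⟨(1 - 4 * (c + 1)) ^ (2 : ℂ)⁻¹, ?_⟩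
    have := cpow_nat_inv_pow (1 - 4 * (c + 1)) (n := 2) (by norm_num)
    rwa [Nat.cast_ofNat] at this
  set a : ℂ := (-1 + w) / 2 with ha
  have haq : a ^ 2 + a + 1 + c = 0 := by
    rw [ha]; linear_combination hw / 4
  have e1 : fc c a = -a - 1 := by
    unfold fc; linear_combination haq
  have e2 : fc c (-a - 1) = a := by
    unfold fc; linear_combination haq
  have hper : (fc c)^[2] a = a := by
    rw [Function.iterate_succ_apply, Function.iterate_one, e1, e2]
  have hd : ∀ z : ℂ, HasDerivAt (fc c) (2 * z) z := by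
    intro z
    have h1 := ((hasDerivAt_id z).pow 2).add_const c
    convert! h1 using 1
    simp
  have hd2 : HasDerivAt ((fc c)^[2]) (4 * (c + 1)) a := by
    have h1 : HasDerivAt (fc c ∘ fc c) (2 * (-a - 1) * (2 * a)) a := by
      apply HasDerivAt.comp
      · rw [e1]; exact hd _
      · exact hd a
    have h2 : (fc c)^[2] = fc c ∘ fc c := rfl
    rw [h2]
    convert! h1 using 1
    linear_combination 4 * haq
  apply attracting_mem (a := a) two_pos hper
  rw [hd2.deriv, norm_mul]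
  simp only [Complex.norm_ofNat]
  linarith

lemma norm_le_two {c : ℂ} (hc : c ∈ mandelbrotSet) : ‖c‖ ≤ 2 := by
  have h1 : crit c 1 = c := by rw [crit_succ]; simp
  rw [← h1]
  exact norm_crit_le_two hc 1

lemma norm_eq_sqrt' (z : ℂ) : ‖z‖ ^ 2 = z.re ^ 2 + z.im ^ 2 := by
  rw [← normSq_eq_norm_sq, normSq_apply]; ring

theorem modulus : ∃ δ₀ : ℝ, 0 < δ₀ ∧ ∀ δ : ℝ, 0 < δ → δ < δ₀ →
    ∃ x ∈ mandelbrotSet, ∃ y ∈ mandelbrotSet,
      ‖x - y‖ ≤ δ ∧ ‖x + 3 / 4‖ ≤ √δ ∧ ‖y + 3 / 4‖ ≤ √δ ∧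
      ∀ K : Set ℂ, K ⊆ mandelbrotSet → IsPreconnected K → x ∈ K → y ∈ K →
        √δ / 2 ≤ Metric.diam K := by
  obtain ⟨h₀, hh₀, hhorn⟩ := horn
  refine ⟨min (1 / 48) (3 / 4 * h₀ ^ 2), by positivity, fun δ hδ hδ₀ => ?_⟩
  have hδ1 : δ < 1 / 48 := hδ₀.trans_le (min_le_left _ _)
  have hδ2 : δ < 3 / 4 * h₀ ^ 2 := hδ₀.trans_le (min_le_right _ _)
  set h : ℝ := √(δ / 3) with hh
  have hpos : 0 < h := Real.sqrt_pos.mpr (by positivity)
  have h2 : h ^ 2 = δ / 3 := Real.sq_sqrt (by positivity)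
  have hsδ : √δ ^ 2 = δ := Real.sq_sqrt hδ.le
  have hsδ0 : 0 < √δ := Real.sqrt_pos.mpr hδ
  have h12 : h < 1 / 12 := by
    apply lt_of_pow_lt_pow_left₀ 2 (by norm_num)
    rw [h2]; linarith
  have hh02 : h < h₀ / 2 := by
    apply lt_of_pow_lt_pow_left₀ 2 (by positivity)
    rw [h2]; linarith
  have hsl : 5 / 4 * h ≤ √δ := by
    apply Real.le_sqrt_of_sq_le
    rw [mul_pow, h2]; linarith
  have hsu : √δ ≤ 7 / 4 * h := by
    apply Real.sqrt_le_iff.mpr
    refine ⟨by positivity, ?_⟩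
    rw [mul_pow, h2]; linarith
  have h2' : h ^ 2 ≤ h / 12 := by
    have : h * h ≤ 1 / 12 * h := by gcongr
    linarith [pow_two h]
  have h20 : 0 < h ^ 2 := by positivity
  have h3 : h ^ 3 ≤ h ^ 2 / 12 := by
    have : h * h ^ 2 ≤ 1 / 12 * h ^ 2 := by gcongr
    linarith [pow_succ h 2, mul_comm h (h ^ 2)]
  have h3' : 0 < h ^ 3 := by positivity
  have h4 : h ^ 4 ≤ h ^ 2 / 144 := by
    have : h ^ 2 * h ^ 2 ≤ (1 / 12) ^ 2 * h ^ 2 := by gcongr
    have e : h ^ 4 = h ^ 2 * h ^ 2 := by ring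
    rw [e]; linarith
  have h4' : 0 < h ^ 4 := by positivity
  -- the two points
  set x : ℂ := ⟨-3 / 4 + 13 / 16 * h ^ 2 - 81 / 1024 * h ^ 4, h - 9 / 32 * h ^ 3⟩ with hx
  set y : ℂ := ⟨-3 / 4 - 33 / 16 * h ^ 2, h⟩ with hy
  have hxM : x ∈ mandelbrotSet := by
    set l : ℂ := ⟨-(1 - 9 / 16 * h ^ 2), h⟩ with hl
    have hln : ‖l‖ < 1 := by
      have h5 := norm_eq_sqrt' l
      have r1 : l.re = -(1 - 9 / 16 * h ^ 2) := rfl
      have r2 : l.im = h := rfl
      rw [r1, r2] at h5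
      have h6 : (-(1 - 9 / 16 * h ^ 2)) ^ 2 + h ^ 2 = 1 - 1 / 8 * h ^ 2 + 81 / 256 * h ^ 4 := by
        ring
      rw [h6] at h5
      apply lt_of_pow_lt_pow_left₀ 2 (by norm_num)
      rw [h5]; linarith
    have h7 := cardioid_mem hln
    have h8 : l / 2 - l ^ 2 / 4 = x := by
      have e1 : l = ((-(1 - 9 / 16 * h ^ 2) : ℝ) : ℂ) + (h : ℂ) * I := by
        apply Complex.ext <;> simp only [hl, add_re, add_im, re_ofReal_mul, im_ofReal_mul,
          ofReal_re, ofReal_im, I_re, I_im] <;> ring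
      have e2 : x = ((-3 / 4 + 13 / 16 * h ^ 2 - 81 / 1024 * h ^ 4 : ℝ) : ℂ)
          + ((h - 9 / 32 * h ^ 3 : ℝ) : ℂ) * I := by
        apply Complex.ext <;> simp only [hx, add_re, add_im, re_ofReal_mul, im_ofReal_mul,
          ofReal_re, ofReal_im, I_re, I_im] <;> ring
      rw [e1, e2]
      push_cast
      linear_combination (-(h : ℂ) ^ 2 / 4) * I_sq
    rwa [h8] at h7
  have hyM : y ∈ mandelbrotSet := by
    apply period_two_mem
    have h5 := norm_eq_sqrt' (y + 1)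
    have r1 : (y + 1).re = 1 / 4 - 33 / 16 * h ^ 2 := by
      simp only [hy, add_re, one_re]; ring
    have r2 : (y + 1).im = h := by
      simp only [hy, add_im, one_im]; ring
    rw [r1, r2] at h5
    have h8 : (1 / 4 - 33 / 16 * h ^ 2) ^ 2 + h ^ 2
        = 1 / 16 - 1 / 32 * h ^ 2 + 1089 / 256 * h ^ 4 := by ring
    rw [h8] at h5
    apply lt_of_pow_lt_pow_left₀ 2 (by norm_num)
    rw [h5]; linarith
  have hxre : x.re = -3 / 4 + 13 / 16 * h ^ 2 - 81 / 1024 * h ^ 4 := rfl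
  have hxim : x.im = h - 9 / 32 * h ^ 3 := rfl
  have hyre : y.re = -3 / 4 - 33 / 16 * h ^ 2 := rfl
  have hyim : y.im = h := rfl
  clear_value x y
  have hxim0 : 7 / 8 * h ≤ x.im := by rw [hxim]; linarith
  have hxim1 : x.im ≤ h := by rw [hxim]; linarith
  refine ⟨x, hxM, y, hyM, ?_, ?_, ?_, ?_⟩
  · refine (norm_le_abs_re_add_abs_im _).trans ?_
    rw [sub_re, sub_im, hxre, hxim, hyre, hyim]
    have e1 : |(-3 / 4 + 13 / 16 * h ^ 2 - 81 / 1024 * h ^ 4) - (-3 / 4 - 33 / 16 * h ^ 2)|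
        ≤ 23 / 8 * h ^ 2 := by
      rw [abs_le]; constructor <;> linarith
    have e2 : |(h - 9 / 32 * h ^ 3) - h| ≤ 1 / 8 * h ^ 2 := by
      rw [abs_le]; constructor <;> linarith
    linarith
  · refine (norm_le_abs_re_add_abs_im _).trans ?_
    have r1 : (x + 3 / 4).re = 13 / 16 * h ^ 2 - 81 / 1024 * h ^ 4 := by
      simp only [add_re, div_ofNat_re, re_ofNat, hxre]; ring
    have r2 : (x + 3 / 4).im = x.im := by
      simp only [add_im, div_ofNat_im, im_ofNat]; ring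
    rw [r1, r2, abs_of_nonneg (by linarith), abs_of_nonneg (by linarith)]
    linarith
  · refine (norm_le_abs_re_add_abs_im _).trans ?_
    have r1 : (y + 3 / 4).re = -(33 / 16 * h ^ 2) := by
      simp only [add_re, div_ofNat_re, re_ofNat, hyre]; ring
    have r2 : (y + 3 / 4).im = h := by
      simp only [add_im, div_ofNat_im, im_ofNat, hyim]; ring
    rw [r1, r2, abs_neg, abs_of_nonneg (by positivity), abs_of_nonneg hpos.le]
    linarith
  · intro K hK hKc hxK hyK
    have hbdd : IsBounded K := by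
      refine (isBounded_closedBall (x := (0 : ℂ)) (r := 2)).subset fun z hz => ?_
      rw [mem_closedBall_zero_iff]
      exact norm_le_two (hK hz)
    -- the separating function
    have hφ : Continuous (fun c : ℂ => c.re + 3 / 4 + 5 / 8 * c.im ^ 2) := by fun_prop
    have hφx : 0 ≤ x.re + 3 / 4 + 5 / 8 * x.im ^ 2 := by
      have := sq_nonneg x.im
      rw [hxre]; linarith
    have hφy : y.re + 3 / 4 + 5 / 8 * y.im ^ 2 ≤ 0 := by
      rw [hyre, hyim]; linarith
    obtain ⟨z, hzK, hz⟩ := hKc.intermediate_value hyK hxK hφ.continuousOn ⟨hφy, hφx⟩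
    simp only at hz
    have hdiam : 7 / 8 * h ≤ ‖z - x‖ := by
      have h5 := abs_im_le_norm (z - x)
      rw [sub_im] at h5
      by_cases hzi : |z.im| < h₀
      · have hz34 := hhorn z (hK hzK) hzi (by linarith [sq_nonneg z.im])
          (by linarith [sq_nonneg z.im])
        have h6 : z.im = 0 := by rw [hz34]; norm_num
        rw [h6, zero_sub, abs_neg, abs_of_nonneg (by linarith)] at h5
        linarith
      · push Not at hzi
        have h6 : |z.im| ≤ |z.im - x.im| + |x.im| := by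
          have := abs_add_le (z.im - x.im) x.im
          rwa [sub_add_cancel] at this
        rw [abs_of_nonneg (show (0 : ℝ) ≤ x.im by linarith)] at h6
        linarith
    have h7 := dist_le_diam_of_mem hbdd hzK hxK
    rw [dist_eq_norm] at h7
    linarith

end MPc6f924
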