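import Mathlib
import Pool.Prelude.Def_F_c31e40fa

set_option autoImplicit false

/-!
Basic facts on the critical orbits `P n c` of `z ↦ z ^ 2 + c`.
-/

namespace Pool.Agent.Work.MP_c6f924_an

open Set Filter Metric Topology Bornology

/-- The `n`-th point of the orbit of `0` under `z ↦ z ^ 2 + c`, as a polynomial in `c`. -/
def P (n : ℕ) (c : ℂ) : ℂ := (fun z : ℂ ↦ z ^ 2 + c)^[n] 0

lemma P_zero (c : ℂ) : P 0 c = 0 := rfl

lemma P_succ (n : ℕ) (c : ℂ) : P (n + 1) c = P n c ^ 2 + c := by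
  simp [P, Function.iterate_succ_apply']

lemma P_one (c : ℂ) : P 1 c = c := by simp [P_succ, P_zero]

lemma differentiable_P (n : ℕ) : Differentiable ℂ (P n) := by
  induction n with
  | zero =>
    have : P 0 = fun _ => 0 := by funext c; exact P_zero c
    rw [this]; exact differentiable_const 0
  | succ n ih =>
    have : P (n + 1) = fun c => P n c ^ 2 + c := by funext c; exact P_succ n c
    rw [this]
    exact (ih.pow 2).add differentiable_id

lemma continuous_P (n : ℕ) : Continuous (P n) := (differentiable_P n).continuous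

/-- The Mandelbrot set, as in the frozen statement. -/
abbrev M : Set ℂ := N62a1eb23.mandelbrotSet

lemma mem_M_iff (c : ℂ) : c ∈ M ↔ ¬ Tendsto (fun k ↦ P k c) atTop (cobounded ℂ) := Iff.rfl

/-- growth step -/
lemma norm_P_succ_ge (n : ℕ) (c : ℂ) : ‖P n c‖ ^ 2 - ‖c‖ ≤ ‖P (n + 1) c‖ := by
  rw [P_succ]
  have h := norm_sub_norm_le (P n c ^ 2) (-c)
  rw [norm_neg, norm_pow, sub_neg_eq_add] at h
  exact h

lemma norm_P_succ_le (n : ℕ) (c : ℂ) : ‖P (n + 1) c‖ ≤ ‖P n c‖ ^ 2 + ‖c‖ := by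
  rw [P_succ]
  have h := norm_add_le (P n c ^ 2) c
  rwa [norm_pow] at h

lemma tendsto_of_gt {c : ℂ} {n : ℕ} (h2 : 2 < ‖P n c‖) (hc : ‖c‖ ≤ ‖P n c‖) :
    Tendsto (fun k ↦ P k c) atTop (cobounded ℂ) := by
  -- ratio q = ‖P n c‖ - 1 > 1
  set q : ℝ := ‖P n c‖ - 1 with hq
  have hq1 : 1 < q := by rw [hq]; linarith
  have key : ∀ k, ‖P n c‖ * q ^ k ≤ ‖P (n + k) c‖ := by
    intro k
    induction k with
    | zero => simp
    | succ k ih =>
      have h1 : 1 ≤ q ^ k := one_le_pow₀ hq1.le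
      have h0 : ‖P n c‖ ≤ ‖P (n + k) c‖ := by
        refine le_trans ?_ ih
        have := norm_nonneg (P n c)
        nlinarith
      have h3 := norm_P_succ_ge (n + k) c
      have h4 : ‖P (n + k) c‖ * q ≤ ‖P (n + k) c‖ ^ 2 - ‖c‖ := by
        have : ‖P (n + k) c‖ * (‖P (n + k) c‖ - 1 - q) ≥ 0 := by
          apply mul_nonneg (norm_nonneg _)
          rw [hq]; linarith
        nlinarith
      calc ‖P n c‖ * q ^ (k + 1) = (‖P n c‖ * q ^ k) * q := by ring
        _ ≤ ‖P (n + k) c‖ * q := by gcongr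
        _ ≤ ‖P (n + k + 1) c‖ := h4.trans h3
        _ = ‖P (n + (k + 1)) c‖ := by rw [add_assoc]
  have htend : Tendsto (fun k ↦ ‖P (n + k) c‖) atTop atTop := by
    refine tendsto_atTop_mono key ?_
    exact (tendsto_pow_atTop_atTop_of_one_lt hq1).const_mul_atTop (by linarith)
  rw [← tendsto_norm_atTop_iff_cobounded]
  refine (tendsto_add_atTop_iff_nat (f := fun k => ‖P k c‖) n).1 ?_
  refine htend.congr fun k => ?_
  rw [add_comm]

lemma norm_P_ge_of_large {c : ℂ} (hc : 2 ≤ ‖c‖) (n : ℕ) : ‖c‖ ≤ ‖P (n + 1) c‖ := by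
  induction n with
  | zero => rw [P_one]
  | succ n ih =>
    have h := norm_P_succ_ge (n + 1) c
    nlinarith

lemma tendsto_of_norm_P_gt {c : ℂ} {n : ℕ} (h : 2 < ‖P n c‖) :
    Tendsto (fun k ↦ P k c) atTop (cobounded ℂ) := by
  by_cases hc : ‖c‖ ≤ 2
  · exact tendsto_of_gt h (hc.trans h.le)
  · push Not at hc
    have h1 : P 1 c = c := P_one c
    exact tendsto_of_gt (n := 1) (by rw [h1]; exact hc) (by rw [h1])

lemma mem_M_iff_le (c : ℂ) : c ∈ M ↔ ∀ n, ‖P n c‖ ≤ 2 := by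
  rw [mem_M_iff]
  constructor
  · intro h n
    by_contra hn
    push Not at hn
    exact h (tendsto_of_norm_P_gt hn)
  · intro h ht
    rw [← tendsto_norm_atTop_iff_cobounded] at ht
    obtain ⟨n, hn⟩ := (ht.eventually (eventually_gt_atTop 2)).exists
    exact absurd (h n) (not_le.2 hn)

lemma isClosed_M : IsClosed M := by
  have : M = ⋂ n, {c | ‖P n c‖ ≤ 2} := by
    ext c
    rw [mem_M_iff_le]
    simp
  rw [this]
  exact isClosed_iInter fun n => isClosed_le (continuous_P n).norm continuous_const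

lemma norm_le_of_mem_M {c : ℂ} (h : c ∈ M) : ‖c‖ ≤ 2 := by
  simpa [P_one] using (mem_M_iff_le c).1 h 1

lemma isCompact_M : IsCompact M :=
  (isCompact_closedBall (0 : ℂ) 2).of_isClosed_subset isClosed_M fun c hc => by
    simpa using norm_le_of_mem_M hc

/-- The sets `{‖P n c‖ ≤ 3}` decrease. -/
lemma norm_P_le_three {c : ℂ} {n : ℕ} (h : ‖P (n + 1) c‖ ≤ 3) : ‖P n c‖ ≤ 3 := by
  by_contra hn
  push Not at hn
  by_cases hc : ‖c‖ ≤ 6
  · have := norm_P_succ_ge n c
    nlinarith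
  · push Not at hc
    have := norm_P_ge_of_large (c := c) (by linarith) n
    linarith

lemma norm_P_lt_three {c : ℂ} {n : ℕ} (h : ‖P (n + 1) c‖ < 3) : ‖P n c‖ < 3 := by
  by_contra hn
  push Not at hn
  by_cases hc : ‖c‖ ≤ 6
  · have := norm_P_succ_ge n c
    nlinarith
  · push Not at hc
    have := norm_P_ge_of_large (c := c) (by linarith) n
    linarith

lemma norm_P_le_three_of_le {c : ℂ} {m n : ℕ} (hmn : m ≤ n) (h : ‖P n c‖ ≤ 3) : ‖P m c‖ ≤ 3 := by
  induction n, hmn using Nat.le_induction with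
  | base => exact h
  | succ n hn ih => exact ih (norm_P_le_three h)

lemma norm_P_lt_three_of_le {c : ℂ} {m n : ℕ} (hmn : m ≤ n) (h : ‖P n c‖ < 3) : ‖P m c‖ < 3 := by
  induction n, hmn using Nat.le_induction with
  | base => exact h
  | succ n hn ih => exact ih (norm_P_lt_three h)

lemma mem_M_of_forall_le_three {c : ℂ} (h : ∀ n, ‖P n c‖ ≤ 3) : c ∈ M := by
  rw [mem_M_iff]
  intro ht
  rw [← tendsto_norm_atTop_iff_cobounded] at ht
  obtain ⟨n, hn⟩ := (ht.eventually (eventually_gt_atTop 3)).exists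
  exact absurd (h n) (not_le.2 hn)

lemma P_mul_eq_zero {c : ℂ} {n : ℕ} (h : P n c = 0) (k : ℕ) : P (k * n) c = 0 := by
  have h' : Function.IsPeriodicPt (fun z : ℂ ↦ z ^ 2 + c) n 0 := h
  exact h'.const_mul k

lemma mem_M_of_P_eq_zero {c : ℂ} {n : ℕ} (hn : 1 ≤ n) (h : P n c = 0) : c ∈ M := by
  rw [mem_M_iff]
  intro ht
  rw [← tendsto_norm_atTop_iff_cobounded] at ht
  obtain ⟨N, hN⟩ := (eventually_atTop.1 (ht.eventually (eventually_gt_atTop 0)))
  have h1 := hN (N * n) (Nat.le_mul_of_pos_right N hn)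
  rw [P_mul_eq_zero h N] at h1
  simp at h1

end Pool.Agent.Work.MP_c6f924_an
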