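import Pool.Agent.Work.MP_c6f924_an.Dense2

set_option autoImplicit false

/-!
Topological lemmas, and the equivalence of local connectivity of the Mandelbrot set with a uniform
statement on the zeros of the polynomials `P n`.
-/

namespace Pool.Agent.Work.MP_c6f924_an

open Set Filter Metric Topology Bornology

/-- A preconnected set that meets `s` and its complement meets the frontier of `s`. -/
lemma meets_frontier {X : Type*} [TopologicalSpace X] {C s : Set X} (hC : IsPreconnected C)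
    (h1 : (C ∩ s).Nonempty) (h2 : (C ∩ sᶜ).Nonempty) : (C ∩ frontier s).Nonempty := by
  by_contra hcon
  rw [Set.not_nonempty_iff_eq_empty] at hcon
  have hcov : C ⊆ interior s ∪ (closure s)ᶜ := by
    intro x hx
    by_cases hx1 : x ∈ closure s
    · left
      by_contra hx2
      have : x ∈ C ∩ frontier s := ⟨hx, ⟨hx1, hx2⟩⟩
      rw [hcon] at this
      exact this
    · right; exact hx1
  obtain ⟨x, hxC, hxs⟩ := h1
  obtain ⟨y, hyC, hys⟩ := h2
  have hx' : x ∈ interior s := by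
    rcases hcov hxC with h | h
    · exact h
    · exact absurd (subset_closure hxs) h
  have hy' : y ∈ (closure s)ᶜ := by
    rcases hcov hyC with h | h
    · exact absurd (interior_subset h) hys
    · exact h
  obtain ⟨z, -, hz1, hz2⟩ := hC _ _ isOpen_interior isClosed_closure.isOpen_compl hcov
    ⟨x, hxC, hx'⟩ ⟨y, hyC, hy'⟩
  exact hz2 (interior_subset_closure hz1)

/-- Uniform local connectivity of a compact locally connected set. -/
lemma ulc_of_lc {X : Type*} [MetricSpace X] {K : Set X} (hK : IsCompact K)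
    [LocallyConnectedSpace K] {ε : ℝ} (hε : 0 < ε) :
    ∃ δ > 0, ∀ x ∈ K, ∀ y ∈ K, dist x y < δ →
      ∃ C ⊆ K ∩ ball x ε, IsPreconnected C ∧ x ∈ C ∧ y ∈ C := by
  have : CompactSpace K := isCompact_iff_compactSpace.1 hK
  obtain ⟨δ, hδ, hδ'⟩ := lebesgue_number_lemma_of_metric (s := (univ : Set K)) (ι := K)
    (c := fun p => connectedComponentIn (ball p (ε / 2)) p) isCompact_univ
    (fun p => isOpen_ball.connectedComponentIn)
    (fun p _ => mem_iUnion.2 ⟨p, mem_connectedComponentIn (mem_ball_self (by positivity))⟩)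
  refine ⟨δ, hδ, fun x hx y hy hxy => ?_⟩
  obtain ⟨p, hp⟩ := hδ' ⟨x, hx⟩ (mem_univ _)
  have hxp : (⟨x, hx⟩ : K) ∈ connectedComponentIn (ball p (ε / 2)) p := hp (mem_ball_self hδ)
  have hyp : (⟨y, hy⟩ : K) ∈ connectedComponentIn (ball p (ε / 2)) p := by
    apply hp
    rw [mem_ball, dist_comm]
    exact hxy
  have hsub : connectedComponentIn (ball p (ε / 2)) p ⊆ ball p (ε / 2) :=
    connectedComponentIn_subset _ _
  refine ⟨Subtype.val '' connectedComponentIn (ball p (ε / 2)) p, ?_, ?_, ⟨_, hxp, rfl⟩,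
    ⟨_, hyp, rfl⟩⟩
  · rintro _ ⟨z, hz, rfl⟩
    refine ⟨z.2, ?_⟩
    have h1 : dist z p < ε / 2 := hsub hz
    have h2 : dist (⟨x, hx⟩ : K) p < ε / 2 := hsub hxp
    have h3 := dist_triangle_right z (⟨x, hx⟩ : K) p
    rw [mem_ball]
    calc dist (z : X) x = dist z (⟨x, hx⟩ : K) := rfl
      _ ≤ dist z p + dist (⟨x, hx⟩ : K) p := h3
      _ < ε := by linarith
  · exact isPreconnected_connectedComponentIn.image _ continuous_subtype_val.continuousOn

/-- Two points of a compact set that are not in a common preconnected subset are separated. -/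
lemma exists_separation {X : Type*} [TopologicalSpace X] [T2Space X] {K : Set X}
    (hK : IsCompact K) {x y : X} (hx : x ∈ K) (hy : y ∈ K)
    (h : ¬ ∃ C ⊆ K, IsPreconnected C ∧ x ∈ C ∧ y ∈ C) :
    ∃ U V : Set X, IsOpen U ∧ IsOpen V ∧ Disjoint U V ∧ K ⊆ U ∪ V ∧ x ∈ U ∧ y ∈ V := by
  have : CompactSpace K := isCompact_iff_compactSpace.1 hK
  have hnot : (⟨y, hy⟩ : K) ∉ connectedComponent (⟨x, hx⟩ : K) := by
    intro hmem
    refine h ⟨Subtype.val '' connectedComponent (⟨x, hx⟩ : K), ?_, ?_, ?_, ?_⟩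
    · rintro _ ⟨z, -, rfl⟩; exact z.2
    · exact isPreconnected_connectedComponent.image _ continuous_subtype_val.continuousOn
    · exact ⟨_, mem_connectedComponent, rfl⟩
    · exact ⟨_, hmem, rfl⟩
  rw [connectedComponent_eq_iInter_isClopen, mem_iInter] at hnot
  push Not at hnot
  obtain ⟨⟨Z, hZ, hxZ⟩, hyZ⟩ := hnot
  have h1 : IsCompact (Subtype.val '' Z) := hZ.1.isCompact.image continuous_subtype_val
  have h2 : IsCompact (Subtype.val '' Zᶜ) := hZ.compl.1.isCompact.image continuous_subtype_val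
  have h3 : Disjoint (Subtype.val '' Z) (Subtype.val '' Zᶜ) := by
    rw [Set.disjoint_image_iff Subtype.val_injective]
    exact disjoint_compl_right
  obtain ⟨U, V, hU, hV, hZU, hZV, hUV⟩ := SeparatedNhds.of_isCompact_isCompact h1 h2 h3
  refine ⟨U, V, hU, hV, hUV, ?_, hZU ⟨_, hxZ, rfl⟩, hZV ⟨_, hyZ, rfl⟩⟩
  intro z hz
  by_cases hzZ : (⟨z, hz⟩ : K) ∈ Z
  · left; exact hZU ⟨_, hzZ, rfl⟩
  · right; exact hZV ⟨_, hzZ, rfl⟩

/-- Near a compact part of `M` the sets `{‖P m‖ ≤ 3}` are close to `M`. -/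
lemma exists_level {x : ℂ} {r : ℝ} {W : Set ℂ} (hW : IsOpen W) (h : M ∩ closedBall x r ⊆ W) :
    ∃ m, {c | ‖P m c‖ ≤ 3} ∩ closedBall x r ⊆ W := by
  have hQ : IsCompact (closedBall x r \ W) := (isCompact_closedBall x r).diff hW
  obtain ⟨m, hm⟩ := hQ.elim_directed_family_closed (fun m => {c | ‖P m c‖ ≤ 3})
    (fun m => isClosed_le (continuous_P m).norm continuous_const) (by
      rw [Set.eq_empty_iff_forall_notMem]
      rintro c ⟨⟨hc1, hc2⟩, hc3⟩
      apply hc2
      apply h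
      refine ⟨mem_M_of_forall_le_three fun n => ?_, hc1⟩
      exact mem_iInter.1 hc3 n) (by
      intro i j
      refine ⟨max i j, ?_, ?_⟩
      · intro c hc; exact norm_P_le_three_of_le (le_max_left i j) hc
      · intro c hc; exact norm_P_le_three_of_le (le_max_right i j) hc)
  refine ⟨m, ?_⟩
  rintro c ⟨hc1, hc2⟩
  by_contra hcW
  have : c ∈ (closedBall x r \ W) ∩ {c | ‖P m c‖ ≤ 3} := ⟨⟨hc2, hcW⟩, hc1⟩
  rw [hm] at this
  exact this

/-- The uniform condition on the zeros of the polynomials `P n`, `n ∈ S`. -/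
def LevelCondition (S : Set ℕ) : Prop :=
  ∀ ε > 0, ∃ δ > 0, ∀ n ∈ S, ∀ a b : ℂ, P n a = 0 → P n b = 0 → dist a b < δ →
    JoinedIn {c : ℂ | ‖P n c‖ < 3 ∧ dist c a < ε} a b

/-- `0 ∉ S` and every positive integer divides an element of `S`. -/
def DivisiblyCofinal (S : Set ℕ) : Prop := 0 ∉ S ∧ ∀ d, 1 ≤ d → ∃ n ∈ S, d ∣ n

/-- Consequence of the condition for boundary points. -/
lemma frontier_joined {S : Set ℕ} (hS : DivisiblyCofinal S) (h : LevelCondition S) {ε : ℝ}
    (hε : 0 < ε) :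
    ∃ δ > 0, ∀ x ∈ frontier M, ∀ y ∈ frontier M, dist x y < δ →
      ∃ C ⊆ M ∩ closedBall x ε, IsPreconnected C ∧ x ∈ C ∧ y ∈ C := by
  obtain ⟨δ, hδ, H⟩ := h (ε / 2) (by positivity)
  refine ⟨min δ ε, lt_min hδ hε, fun x hx y hy hxy => ?_⟩
  have hxyδ : dist x y < δ := hxy.trans_le (min_le_left _ _)
  have hxyε : dist x y < ε := hxy.trans_le (min_le_right _ _)
  have hK : IsCompact (M ∩ closedBall x ε) := isCompact_M.inter_right isClosed_closedBall
  by_contra hcon
  obtain ⟨U, V, hU, hV, hUV, hcov, hxU, hyV⟩ := exists_separation hK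
    (x := x) (y := y) ⟨isClosed_M.frontier_subset hx, mem_closedBall_self hε.le⟩
    ⟨isClosed_M.frontier_subset hy, by rw [mem_closedBall, dist_comm]; exact hxyε.le⟩ hcon
  obtain ⟨m, hm⟩ := exists_level (hU.union hV) hcov
  obtain ⟨s1, hs1, hs1U⟩ := Metric.isOpen_iff.1 hU x hxU
  obtain ⟨s2, hs2, hs2V⟩ := Metric.isOpen_iff.1 hV y hyV
  set s : ℝ := min (min s1 s2) (min ((δ - dist x y) / 2) (ε / 2)) with hs
  have hspos : 0 < s := lt_min (lt_min hs1 hs2) (lt_min (by linarith) (by positivity))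
  have hss1 : s ≤ s1 := (min_le_left _ _).trans (min_le_left _ _)
  have hss2 : s ≤ s2 := (min_le_left _ _).trans (min_le_right _ _)
  have hssδ : s ≤ (δ - dist x y) / 2 := (min_le_right _ _).trans (min_le_left _ _)
  have hssε : s ≤ ε / 2 := (min_le_right _ _).trans (min_le_right _ _)
  obtain ⟨i, hi, a, ha, hax⟩ := centers_dense hx hspos
  obtain ⟨j, hj, b, hb, hby⟩ := centers_dense hy hspos
  obtain ⟨n, hnS, hdvd⟩ := hS.2 ((m + 1) * (i * j)) (Nat.one_le_iff_ne_zero.2 (by positivity))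
  have hn0 : n ≠ 0 := fun h0 => hS.1 (h0 ▸ hnS)
  have hmn : m ≤ n := by
    have h1 : m + 1 ∣ n := (dvd_mul_right _ _).trans hdvd
    have := Nat.le_of_dvd (Nat.pos_of_ne_zero hn0) h1
    omega
  have hPa : P n a = 0 := by
    obtain ⟨l, hl⟩ : i ∣ n := ((dvd_mul_right i j).trans (dvd_mul_left _ _)).trans hdvd
    have := P_mul_eq_zero ha l
    rwa [mul_comm, ← hl] at this
  have hPb : P n b = 0 := by
    obtain ⟨l, hl⟩ : j ∣ n := ((dvd_mul_left j i).trans (dvd_mul_left _ _)).trans hdvd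
    have := P_mul_eq_zero hb l
    rwa [mul_comm, ← hl] at this
  have hab : dist a b < δ := by
    have h1 := dist_triangle4 a x y b
    rw [dist_comm y b] at h1
    linarith
  obtain ⟨γ, hγ⟩ := H n hnS a b hPa hPb hab
  have hC : IsPreconnected (range γ) := isPreconnected_range γ.continuous
  have hCsub : range γ ⊆ U ∪ V := by
    rintro _ ⟨t, rfl⟩
    obtain ⟨h1, h2⟩ := hγ t
    apply hm
    refine ⟨norm_P_le_three_of_le hmn h1.le, ?_⟩
    rw [mem_closedBall]
    have h3 := dist_triangle (γ t) a x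
    linarith
  obtain ⟨z, -, hz1, hz2⟩ := hC U V hU hV hCsub
    ⟨a, ⟨0, γ.source⟩, hs1U (by rw [mem_ball]; linarith)⟩
    ⟨b, ⟨1, γ.target⟩, hs2V (by rw [mem_ball]; linarith)⟩
  exact Set.disjoint_left.1 hUV hz1 hz2

/-- From a point of `M` to a frontier point by a segment inside `M`. -/
lemma exists_segment {x y : ℂ} (hx : x ∈ frontier M) (hy : y ∈ M) :
    ∃ z ∈ frontier M, dist z x ≤ dist y x ∧ ∃ C ⊆ M ∩ closedBall x (dist y x),
      IsPreconnected C ∧ y ∈ C ∧ z ∈ C := by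
  set f : ℝ → ℂ := fun t => AffineMap.lineMap y x t with hf
  have hfc : Continuous f := AffineMap.lineMap_continuous
  have hf0 : f 0 = y := by simp [hf]
  have hf1 : f 1 = x := by simp [hf]
  have hfdist : ∀ t ∈ Icc (0 : ℝ) 1, dist (f t) x ≤ dist y x := by
    intro t ht
    simp only [hf]
    rw [dist_lineMap_right]
    have : ‖1 - t‖ ≤ 1 := by
      rw [Real.norm_eq_abs, abs_le]; constructor <;> linarith [ht.1, ht.2]
    calc ‖1 - t‖ * dist y x ≤ 1 * dist y x := by gcongr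
      _ = dist y x := one_mul _
  set A : Set ℝ := Icc (0 : ℝ) 1 ∩ f ⁻¹' (frontier M) with hA
  have hAc : IsCompact A := isCompact_Icc.inter_right (isClosed_frontier.preimage hfc)
  have hAn : A.Nonempty := ⟨1, ⟨by norm_num, le_rfl⟩, by rw [mem_preimage, hf1]; exact hx⟩
  set t0 := sInf A with ht0
  have ht0A : t0 ∈ A := hAc.sInf_mem hAn
  have hmin : ∀ t ∈ A, t0 ≤ t := fun t ht => csInf_le hAc.bddBelow ht
  have hin : ∀ t ∈ Icc (0 : ℝ) t0, f t ∈ M := by
    intro t ht
    by_contra hcon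
    have h1 : IsPreconnected (f '' Icc 0 t) := isPreconnected_Icc.image _ hfc.continuousOn
    obtain ⟨_, ⟨s, hs, rfl⟩, hs2⟩ := meets_frontier h1
      ⟨f 0, ⟨0, ⟨le_rfl, ht.1⟩, rfl⟩, by rw [hf0]; exact hy⟩
      ⟨f t, ⟨t, ⟨ht.1, le_rfl⟩, rfl⟩, hcon⟩
    have hsA : s ∈ A := ⟨⟨hs.1, hs.2.trans (ht.2.trans ht0A.1.2)⟩, hs2⟩
    have hs0 := hmin s hsA
    have : s = t := le_antisymm hs.2 (ht.2.trans hs0)
    rw [this] at hs2
    exact hcon (isClosed_M.frontier_subset hs2)
  refine ⟨f t0, ht0A.2, hfdist t0 ht0A.1, f '' Icc 0 t0, ?_, isPreconnected_Icc.image _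
    hfc.continuousOn, ⟨0, ⟨le_rfl, ht0A.1.1⟩, hf0⟩, ⟨t0, ⟨ht0A.1.1, le_rfl⟩, rfl⟩⟩
  rintro _ ⟨t, ht, rfl⟩
  exact ⟨hin t ht, hfdist t ⟨ht.1, ht.2.trans ht0A.1.2⟩⟩

theorem lc_of_levelCondition {S : Set ℕ} (hS : DivisiblyCofinal S) (h : LevelCondition S) :
    LocallyConnectedSpace M := by
  rw [locallyConnectedSpace_iff_connected_subsets]
  rintro ⟨x, hx⟩ U hU
  obtain ⟨ε, hε, hεU⟩ := Metric.mem_nhds_iff.1 hU
  -- it suffices to find a preconnected subset of `M` in the ball that is a neighbourhood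
  suffices H : ∃ ρ > 0, ∀ y ∈ M, dist y x < ρ →
      ∃ C ⊆ M ∩ closedBall x (ε / 2), IsPreconnected C ∧ x ∈ C ∧ y ∈ C by
    obtain ⟨ρ, hρ, H⟩ := H
    refine ⟨connectedComponentIn (closedBall (⟨x, hx⟩ : M) (ε / 2)) ⟨x, hx⟩, ?_,
      isPreconnected_connectedComponentIn, ?_⟩
    · rw [Metric.mem_nhds_iff]
      refine ⟨ρ, hρ, ?_⟩
      rintro ⟨y, hy⟩ hyx
      obtain ⟨C, hC1, hC2, hxC, hyC⟩ := H y hy hyx
      have hCM : C ⊆ M := fun c hc => (hC1 hc).1
      have hpre : IsPreconnected ((Subtype.val : M → ℂ) ⁻¹' C) := by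
        rw [← Topology.IsInducing.subtypeVal.isPreconnected_image]
        rwa [Subtype.image_preimage_coe, inter_eq_right.2 hCM]
      refine hpre.subset_connectedComponentIn (show (⟨x, hx⟩ : M) ∈ _ from hxC) ?_
        (show (⟨y, hy⟩ : M) ∈ _ from hyC)
      rintro ⟨z, hz⟩ hzC
      exact (hC1 hzC).2
    · refine (connectedComponentIn_subset _ _).trans (Subset.trans ?_ hεU)
      exact closedBall_subset_ball (by linarith)
  by_cases hxf : x ∈ frontier M
  · obtain ⟨δ, hδ, Hδ⟩ := frontier_joined hS h (show 0 < ε / 2 by positivity)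
    refine ⟨min δ (ε / 2), lt_min hδ (by positivity), fun y hy hyx => ?_⟩
    obtain ⟨z, hz, hzx, C1, hC1, hC1p, hyC1, hzC1⟩ := exists_segment hxf hy
    obtain ⟨C2, hC2, hC2p, hxC2, hzC2⟩ := Hδ x hxf z hz (by
      rw [dist_comm]; exact hzx.trans_lt (hyx.trans_le (min_le_left _ _)))
    refine ⟨C1 ∪ C2, ?_, hC1p.union z hzC1 hzC2 hC2p, Or.inr hxC2, Or.inl hyC1⟩
    refine union_subset (hC1.trans ?_) hC2
    refine inter_subset_inter_right _ (closedBall_subset_closedBall ?_)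
    exact (hyx.trans_le (min_le_right _ _)).le
  · have hxi : x ∈ interior M := by
      by_contra hcon
      exact hxf ⟨subset_closure hx, hcon⟩
    obtain ⟨ρ, hρ, hρM⟩ := Metric.isOpen_iff.1 isOpen_interior x hxi
    refine ⟨min ρ (ε / 2), lt_min hρ (by positivity), fun y hy hyx => ?_⟩
    refine ⟨ball x (min ρ (ε / 2)), ?_, (convex_ball x _).isPreconnected,
      mem_ball_self (lt_min hρ (by positivity)), hyx⟩
    intro z hz
    refine ⟨interior_subset (hρM (ball_subset_ball (min_le_left _ _) hz)), ?_⟩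
    exact (ball_subset_closedBall (ball_subset_ball (min_le_right _ _) hz))

/-- Parameters with periodic critical point that are close to each other are joined by a small
connected subset of `M`. -/
def CenterCondition : Prop :=
  ∀ ε > 0, ∃ δ > 0, ∀ i j : ℕ, 1 ≤ i → 1 ≤ j → ∀ a b : ℂ, P i a = 0 → P j b = 0 → dist a b < δ →
    ∃ C ⊆ M ∩ ball a ε, IsPreconnected C ∧ a ∈ C ∧ b ∈ C

theorem centerCondition_of_lc (h : LocallyConnectedSpace M) : CenterCondition := by
  intro ε hε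
  obtain ⟨δ, hδ, H⟩ := ulc_of_lc isCompact_M hε
  exact ⟨δ, hδ, fun i j hi hj a b ha hb hab =>
    H a (mem_M_of_P_eq_zero hi ha) b (mem_M_of_P_eq_zero hj hb) hab⟩

theorem levelCondition_of_centerCondition {S : Set ℕ} (hS : 0 ∉ S)
    (h : CenterCondition) : LevelCondition S := by
  intro ε hε
  obtain ⟨δ, hδ, H⟩ := h ε hε
  refine ⟨δ, hδ, fun n hnS a b ha hb hab => ?_⟩
  have hn : 1 ≤ n := Nat.one_le_iff_ne_zero.2 fun h0 => hS (h0 ▸ hnS)
  obtain ⟨C, hC, hCp, haC, hbC⟩ := H n n hn hn a b ha hb hab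
  set O : Set ℂ := {c : ℂ | ‖P n c‖ < 3 ∧ dist c a < ε} with hO
  have hOo : IsOpen O := (isOpen_lt (continuous_P n).norm continuous_const).inter
    (isOpen_lt (continuous_id.dist continuous_const) continuous_const)
  have hCO : C ⊆ O := fun c hc => ⟨by
    have := (mem_M_iff_le c).1 (hC hc).1 n
    linarith, (hC hc).2⟩
  have hcomp : C ⊆ connectedComponentIn O a := hCp.subset_connectedComponentIn haC hCO
  have hconn : IsConnected (connectedComponentIn O a) :=
    ⟨⟨a, hcomp haC⟩, isPreconnected_connectedComponentIn⟩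
  have hpath : IsPathConnected (connectedComponentIn O a) :=
    (hOo.connectedComponentIn.isConnected_iff_isPathConnected).1 hconn
  exact (hpath.joinedIn a (hcomp haC) b (hcomp hbC)).mono (connectedComponentIn_subset _ _)

theorem main :
    (LocallyConnectedSpace M ↔ CenterCondition) ∧
      ∀ S : Set ℕ, DivisiblyCofinal S → (LocallyConnectedSpace M ↔ LevelCondition S) := by
  have hall : DivisiblyCofinal {n : ℕ | n ≠ 0} :=
    ⟨fun h => h rfl, fun d hd => ⟨d, Nat.one_le_iff_ne_zero.1 hd, dvd_rfl⟩⟩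
  refine ⟨⟨centerCondition_of_lc, fun h => ?_⟩, fun S hS => ⟨fun h => ?_, fun h => ?_⟩⟩
  · exact lc_of_levelCondition hall (levelCondition_of_centerCondition hall.1 h)
  · exact levelCondition_of_centerCondition hS.1 (centerCondition_of_lc h)
  · exact lc_of_levelCondition hS h

end Pool.Agent.Work.MP_c6f924_an
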